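import Mathlib
import Pool.Agent.Lib.MP_7ab245_nt.Sumset

/-! Additive maps on iterated sumsets: small integral ones span. -/

set_option autoImplicit false

open scoped Pointwise

namespace Pool.Agent.Lib.MP_7ab245_nt.Few

/-- Simultaneous Dirichlet approximation, with weights. -/
lemma dirichlet (E : Finset ℕ) (v : ℕ → ℝ) (N : ℕ → ℕ) (hN : ∀ e, 0 < N e) :
    ∃ q : ℕ, 1 ≤ q ∧ q ≤ ∏ e ∈ E, N e ∧ ∀ e ∈ E, |q * v e - round (q * v e)| ≤ 1 / N e := by
  classical
  let Ψ : Fin (∏ e ∈ E, N e + 1) → (∀ e : E, Fin (N e)) := fun j e =>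
    ⟨⌊(N e : ℝ) * Int.fract ((j : ℕ) * v e)⌋₊, by
      have hNR : (0 : ℝ) < N e := by exact_mod_cast hN e
      have h1 := Int.fract_lt_one (((j : ℕ) : ℝ) * v e)
      have h0 := Int.fract_nonneg (((j : ℕ) : ℝ) * v e)
      rw [Nat.floor_lt (by positivity)]
      calc (N e : ℝ) * Int.fract (((j : ℕ) : ℝ) * v e) < N e * 1 := by gcongr
        _ = N e := mul_one _⟩
  have hlt : Fintype.card (∀ e : E, Fin (N e)) < Fintype.card (Fin (∏ e ∈ E, N e + 1)) := by
    rw [Fintype.card_pi, Fintype.card_fin]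
    simp only [Fintype.card_fin]
    rw [Finset.prod_coe_sort E N]
    omega
  obtain ⟨i, j, hne, heq⟩ := Fintype.exists_ne_map_eq_of_card_lt Ψ hlt
  wlog hij : (i : ℕ) < j generalizing i j
  · have hne' : (i : ℕ) ≠ j := fun h => hne (Fin.ext h)
    exact this j i hne.symm heq.symm (by omega)
  refine ⟨(j : ℕ) - i, by omega, by omega, fun e he => ?_⟩
  have hNR : (0 : ℝ) < N e := by exact_mod_cast hN e
  have h1 := congrFun heq ⟨e, he⟩
  simp only [Ψ, Fin.mk.injEq] at h1
  set x := ((i : ℕ) : ℝ) * v e with hx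
  set y := ((j : ℕ) : ℝ) * v e with hy
  have hxy : (((j : ℕ) - (i : ℕ) : ℕ) : ℝ) * v e = y - x := by
    rw [Nat.cast_sub hij.le]; ring
  rw [hxy]
  refine (round_le (y - x) (⌊y⌋ - ⌊x⌋)).trans ?_
  have h2 : y - x - ((⌊y⌋ - ⌊x⌋ : ℤ) : ℝ) = Int.fract y - Int.fract x := by
    push_cast
    rw [Int.fract, Int.fract]; ring
  rw [h2]
  have hfx := Int.fract_nonneg x
  have hfy := Int.fract_nonneg y
  have a1 := Nat.floor_le (show (0 : ℝ) ≤ N e * Int.fract x by positivity)
  have a2 := Nat.lt_floor_add_one ((N e : ℝ) * Int.fract x)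
  have b1 := Nat.floor_le (show (0 : ℝ) ≤ N e * Int.fract y by positivity)
  have b2 := Nat.lt_floor_add_one ((N e : ℝ) * Int.fract y)
  rw [h1] at a1 a2
  rw [abs_le]
  constructor
  · rw [← sub_nonneg]
    have : 0 ≤ N e * (Int.fract y - Int.fract x + 1 / N e) := by
      have : N e * (Int.fract y - Int.fract x + 1 / N e) =
          N e * Int.fract y - N e * Int.fract x + 1 := by
        field_simp
      rw [this]; linarith
    have := nonneg_of_mul_nonneg_right this hNR
    linarith
  · have : 0 ≤ N e * (1 / N e - (Int.fract y - Int.fract x)) := by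
      have : N e * (1 / N e - (Int.fract y - Int.fract x)) =
          1 - N e * Int.fract y + N e * Int.fract x := by
        field_simp
        ring
      rw [this]; linarith
    have := nonneg_of_mul_nonneg_right this hNR
    linarith

/-- additive on sums of length at most `L` -/
def IsHom {R : Type*} [AddMonoid R] (E : Finset ℕ) (L : ℕ) (w : ℕ → R) : Prop :=
  w 0 = 0 ∧ ∀ m < L, ∀ s ∈ SS E m, ∀ e ∈ E, w (s + e) = w s + w e

lemma IsHom.add_of {R : Type*} [AddMonoid R] {E : Finset ℕ} {L : ℕ} {w : ℕ → R}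
    (hw : IsHom E L w) {a : ℕ} {s : ℕ} (hs : s ∈ SS E a) :
    ∀ b : ℕ, a + b ≤ L → ∀ t ∈ SS E b, w (s + t) = w s + w t := by
  intro b
  induction b with
  | zero =>
    intro _ t ht
    simp only [SS, Finset.mem_singleton] at ht
    subst ht
    rw [add_zero, hw.1, add_zero]
  | succ b ih =>
    intro hab t ht
    rw [SS, Finset.mem_add] at ht
    obtain ⟨t', ht', e, he, rfl⟩ := ht
    have h1 : s + t' ∈ SS E (a + b) := by
      rw [← SS_add]; exact Finset.add_mem_add hs ht'
    rw [← add_assoc, hw.2 (a + b) (by omega) _ h1 e he, ih (by omega) t' ht',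
      hw.2 b (by omega) t' ht' e he, add_assoc]

lemma SS_mono {E : Finset ℕ} (h0 : 0 ∈ E) {a b : ℕ} (h : a ≤ b) : SS E a ⊆ SS E b := by
  induction h with
  | refl => exact fun _ h => h
  | step _ ih =>
    refine ih.trans ?_
    intro s hs
    rw [SS, Finset.mem_add]
    exact ⟨s, hs, 0, h0, add_zero s⟩

lemma mem_SS_one {E : Finset ℕ} {e : ℕ} : e ∈ SS E 1 ↔ e ∈ E := by
  rw [SS, SS, Finset.singleton_zero, zero_add]

/-- extension by zero -/
noncomputable def ext {S : Finset ℕ} (u : S → ℝ) (n : ℕ) : ℝ := if h : n ∈ S then u ⟨n, h⟩ else 0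

lemma ext_of_mem {S : Finset ℕ} (u : S → ℝ) {n : ℕ} (h : n ∈ S) : ext u n = u ⟨n, h⟩ := dif_pos h

lemma ext_add {S : Finset ℕ} (u v : S → ℝ) (n : ℕ) : ext (u + v) n = ext u n + ext v n := by
  unfold ext; split_ifs <;> simp

lemma ext_smul {S : Finset ℕ} (c : ℝ) (u : S → ℝ) (n : ℕ) : ext (c • u) n = c * ext u n := by
  unfold ext; split_ifs <;> simp

/-- the space of additive maps -/
noncomputable def homSpace (E : Finset ℕ) (L : ℕ) : Submodule ℝ (SS E L → ℝ) where
  carrier := {u | IsHom E L (ext u)}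
  add_mem' := by
    intro u v hu hv
    refine ⟨by rw [ext_add, hu.1, hv.1, add_zero], fun m hm s hs e he => ?_⟩
    rw [ext_add, ext_add, ext_add, hu.2 m hm s hs e he, hv.2 m hm s hs e he]; ring
  zero_mem' := by
    have h : ∀ n, ext (0 : SS E L → ℝ) n = 0 := by intro n; unfold ext; split_ifs <;> rfl
    exact ⟨h 0, fun m hm s hs e he => by rw [h, h, h, add_zero]⟩
  smul_mem' := by
    intro c u hu
    refine ⟨by rw [ext_smul, hu.1, mul_zero], fun m hm s hs e he => ?_⟩
    rw [ext_smul, ext_smul, ext_smul, hu.2 m hm s hs e he]; ring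

/-- restrictions of small integral additive maps -/
def smallHoms (E : Finset ℕ) (L A : ℕ) : Set (SS E L → ℝ) :=
  {u | ∃ z : ℕ → ℤ, IsHom E L z ∧ (∀ s ∈ SS E L, |z s| ≤ A) ∧ ∀ s : SS E L, u s = z s}

lemma isHom_ext {E : Finset ℕ} {L : ℕ} (h0 : 0 ∈ E) (u : SS E L → ℝ) (w : ℕ → ℝ)
    (hw : IsHom E L w) (huw : ∀ s : SS E L, u s = w s) : IsHom E L (ext u) := by
  have h : ∀ n ∈ SS E L, ext u n = w n := fun n hn => by rw [ext_of_mem u hn, huw]
  have h00 : 0 ∈ SS E L := SS_mono h0 (Nat.zero_le L) (by simp [SS])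
  refine ⟨by rw [h 0 h00, hw.1], fun m hm s hs e he => ?_⟩
  have hs' : s ∈ SS E L := SS_mono h0 hm.le hs
  have he' : e ∈ SS E L := SS_mono h0 (by omega : 1 ≤ L) (mem_SS_one.mpr he)
  have hse : s + e ∈ SS E L := SS_mono h0 (by omega : m + 1 ≤ L) (Finset.add_mem_add hs he)
  rw [h _ hse, h _ hs', h _ he', hw.2 m hm s hs e he]

/-- The key statement: the inclusion map is a combination of small integral additive maps. -/
theorem incl_mem_span (E : Finset ℕ) (h0 : 0 ∈ E) (L : ℕ) (hL : 1 ≤ L) (Q : ℕ)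
    (hdir : ∀ w : ℕ → ℝ, IsHom E L w → ∃ q : ℕ, 1 ≤ q ∧ q ≤ Q ∧
      ∀ e ∈ E, |q * w e - round (q * w e)| ≤ 1 / ((2 * L + 1 : ℕ) : ℝ)) :
    (fun s : SS E L => ((s : ℕ) : ℝ)) ∈
      Submodule.span ℝ (smallHoms E L (Q * L + 1)) := by
  classical
  set A := Q * L + 1 with hA
  set U := Submodule.span ℝ (smallHoms E L A) with hU
  set N := 2 * L + 1 with hN
  have hNpos : 0 < N := by omega
  have hNR : (0 : ℝ) < N := by exact_mod_cast hNpos
  set ι : SS E L → ℝ := fun s => ((s : ℕ) : ℝ) with hι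
  by_contra hcon
  have hιW : ι ∈ homSpace E L := by
    apply isHom_ext h0 ι (fun n => (n : ℝ)) ?_ (fun s => rfl)
    exact ⟨by simp, fun m _ s _ e _ => by push_cast; ring⟩
  let F : Submodule ℝ (homSpace E L) := U.comap (homSpace E L).subtype
  have hFc : IsClosed (F : Set (homSpace E L)) := F.closed_of_finiteDimensional
  obtain ⟨x₀, hx₀, hdist⟩ := riesz_lemma hFc ⟨⟨ι, hιW⟩, hcon⟩ (r := 1 / 2) (by norm_num)
  set x : ℕ → ℝ := ext (x₀ : SS E L → ℝ) with hx
  have hxhom : IsHom E L x := x₀.2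
  obtain ⟨e₀, he₀, hmax⟩ := E.exists_max_image (fun e => |x e|) ⟨0, h0⟩
  set m := |x e₀| with hm
  have hE1 : ∀ e ∈ E, e ∈ SS E L := fun e he => SS_mono h0 hL (mem_SS_one.mpr he)
  -- bound on sumsets
  have hbound : ∀ a ≤ L, ∀ s ∈ SS E a, |x s| ≤ a * m := by
    intro a
    induction a with
    | zero =>
      intro _ s hs
      simp only [SS, Finset.mem_singleton] at hs
      rw [hs, hxhom.1]; simp
    | succ a ih =>
      intro ha s hs
      rw [SS, Finset.mem_add] at hs
      obtain ⟨t, ht, e, he, rfl⟩ := hs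
      rw [hxhom.2 a (by omega) t ht e he]
      calc |x t + x e| ≤ |x t| + |x e| := abs_add_le _ _
        _ ≤ a * m + m := add_le_add (ih (by omega) t ht) (hmax e he)
        _ = ((a + 1 : ℕ) : ℝ) * m := by push_cast; ring
  have hmpos : 0 < m := by
    rcases (abs_nonneg (x e₀)).lt_or_eq with h | h
    · exact h
    · exfalso
      apply hx₀
      have h1 : (x₀ : SS E L → ℝ) = 0 := by
        funext s
        have h2 := hbound L le_rfl s s.2
        rw [hm, ← h, mul_zero] at h2
        have h3 := abs_nonpos_iff.mp h2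
        rw [hx, ext_of_mem _ s.2] at h3
        exact h3
      have h2 : x₀ = 0 := Subtype.ext h1
      rw [h2]; exact F.zero_mem
  set w : ℕ → ℝ := fun n => x n / m with hw
  have hwhom' : IsHom E L w := by
    refine ⟨by simp only [hw]; rw [hxhom.1, zero_div], fun a ha s hs e he => ?_⟩
    simp only [hw]
    rw [hxhom.2 a ha s hs e he]; ring
  obtain ⟨q, hq1, hqN, hq⟩ := hdir w hwhom'
  have hqR : (1 : ℝ) ≤ q := by exact_mod_cast hq1
  set z : ℕ → ℤ := fun n => round (q * w n) with hz
  have hwhom : ∀ a < L, ∀ s ∈ SS E a, ∀ e ∈ E, w (s + e) = w s + w e := by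
    intro a ha s hs e he
    simp only [hw]
    rw [hxhom.2 a ha s hs e he]; ring
  have happrox : ∀ a ≤ L, ∀ s ∈ SS E a, |q * w s - z s| ≤ a / N := by
    intro a
    induction a with
    | zero =>
      intro _ s hs
      simp only [SS, Finset.mem_singleton] at hs
      subst hs
      simp only [hz, hw, hxhom.1]
      simp
    | succ a ih =>
      intro ha s hs
      rw [SS, Finset.mem_add] at hs
      obtain ⟨t, ht, e, he, rfl⟩ := hs
      have h1 := ih (by omega) t ht
      have h2 := hq e he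
      refine (round_le (q * w (t + e)) (z t + z e)).trans ?_
      rw [hwhom a (by omega) t ht e he]
      push_cast
      calc |q * (w t + w e) - (z t + z e)| = |(q * w t - z t) + (q * w e - z e)| := by ring_nf
        _ ≤ |q * w t - z t| + |q * w e - z e| := abs_add_le _ _
        _ ≤ a / N + 1 / N := add_le_add h1 h2
        _ = (a + 1) / N := by ring
  have hzhom : IsHom E L z := by
    refine ⟨by simp only [hz, hw, hxhom.1]; simp, fun a ha s hs e he => ?_⟩
    have h1 := happrox (a + 1) (by omega) (s + e) (Finset.add_mem_add hs he)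
    have h2 := happrox a ha.le s hs
    have h3 := happrox 1 hL e (mem_SS_one.mpr he)
    rw [hwhom a ha s hs e he] at h1
    have h4 : |((z (s + e) - (z s + z e) : ℤ) : ℝ)| < 1 := by
      have h5 : ((z (s + e) - (z s + z e) : ℤ) : ℝ) =
          -(q * (w s + w e) - z (s + e)) + (q * w s - z s) + (q * w e - z e) := by
        push_cast; ring
      rw [h5]
      calc |-(q * (w s + w e) - z (s + e)) + (q * w s - z s) + (q * w e - z e)|
          ≤ |q * (w s + w e) - z (s + e)| + |q * w s - z s| + |q * w e - z e| := by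
            refine (abs_add_le _ _).trans ?_
            gcongr
            refine (abs_add_le _ _).trans ?_
            rw [abs_neg]
        _ ≤ ((a + 1 : ℕ) : ℝ) / N + a / N + (1 : ℕ) / N := by gcongr
        _ = (2 * (a + 1)) / N := by push_cast; ring
        _ < 1 := by
            rw [div_lt_one hNR, hN]
            have : ((a + 1 : ℕ) : ℝ) ≤ L := by exact_mod_cast (by omega : a + 1 ≤ L)
            push_cast at this ⊢
            linarith
    have h6 : |z (s + e) - (z s + z e)| < 1 := by exact_mod_cast h4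
    have h7 := Int.abs_lt_one_iff.mp h6
    omega
  have hzbound : ∀ s ∈ SS E L, |z s| ≤ A := by
    intro s hs
    have h1 := happrox L le_rfl s hs
    have h2 := hbound L le_rfl s hs
    have h3 : |w s| ≤ L := by
      simp only [hw]
      rw [abs_div, abs_of_pos hmpos, div_le_iff₀ hmpos]
      exact h2
    have h4 : |(z s : ℝ)| ≤ q * L + L / N := by
      calc |(z s : ℝ)| = |q * w s - (q * w s - z s)| := by ring_nf
        _ ≤ |q * w s| + |q * w s - z s| := abs_sub _ _
        _ ≤ q * L + L / N := by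
            gcongr
            rw [abs_mul, abs_of_nonneg (by linarith : (0:ℝ) ≤ q)]
            gcongr
    have h5 : (L : ℝ) / N ≤ 1 := by
      rw [div_le_one hNR, hN]; push_cast
      have : (0 : ℝ) ≤ L := by positivity
      linarith
    have h6 : q * L + 1 ≤ A := by
      have := Nat.mul_le_mul_right L hqN
      omega
    have h7 : |(z s : ℝ)| ≤ A := by
      have : ((q * L + 1 : ℕ) : ℝ) ≤ A := by exact_mod_cast h6
      push_cast at this
      linarith
    exact_mod_cast h7
  -- the approximation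
  let uz : SS E L → ℝ := fun s => z s
  have huzS : uz ∈ smallHoms E L A := ⟨z, hzhom, hzbound, fun s => rfl⟩
  have huzU : uz ∈ U := Submodule.subset_span huzS
  have huzW : uz ∈ homSpace E L := by
    apply isHom_ext h0 uz (fun n => (z n : ℝ)) ?_ (fun s => rfl)
    refine ⟨by simp [hzhom.1], fun a ha s hs e he => ?_⟩
    have h := hzhom.2 a ha s hs e he
    change ((z (s + e) : ℤ) : ℝ) = (z s : ℝ) + (z e : ℝ)
    rw [h]; push_cast; ring
  let y : homSpace E L := (m / q) • ⟨uz, huzW⟩
  have hyF : y ∈ F := by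
    change ((homSpace E L).subtype y) ∈ U
    exact U.smul_mem _ huzU
  have h1 := hdist y hyF
  have h2 : m ≤ ‖x₀‖ := by
    have h3 : ‖(x₀ : SS E L → ℝ) ⟨e₀, hE1 e₀ he₀⟩‖ ≤ ‖(x₀ : SS E L → ℝ)‖ := norm_le_pi_norm _ _
    have h4 : x e₀ = (x₀ : SS E L → ℝ) ⟨e₀, hE1 e₀ he₀⟩ := by rw [hx, ext_of_mem _ (hE1 e₀ he₀)]
    rw [hm, h4]
    exact h3
  have h3 : ‖x₀ - y‖ ≤ m * (L / N) := by
    have h4 : ‖x₀ - y‖ = ‖((x₀ - y : homSpace E L) : SS E L → ℝ)‖ := rfl
    rw [h4, pi_norm_le_iff_of_nonneg (by positivity)]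
    intro s
    have h5 : ((x₀ - y : homSpace E L) : SS E L → ℝ) s = x s - (m / q) * z s := by
      rw [hx, ext_of_mem _ s.2]
      rfl
    rw [h5, Real.norm_eq_abs]
    have h6 := happrox L le_rfl s s.2
    have h7 : x s - (m / q) * z s = (m / q) * (q * w s - z s) := by
      simp only [hw]
      field_simp
    rw [h7, abs_mul, abs_of_pos (by positivity)]
    have h8 : m / q ≤ m := div_le_self hmpos.le hqR
    gcongr
  have h4 : (L : ℝ) / N < 1 / 2 := by
    rw [div_lt_iff₀ hNR, hN]; push_cast; linarith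
  nlinarith

end Pool.Agent.Lib.MP_7ab245_nt.Few
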