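import Mathlib
import Pool.Agent.Lib.MP_7ab245_nt.Res

/-! Windows: finding a short interval in which two nested sets have almost the same size,
and resultant bounds for polynomials supported in a window. -/

set_option autoImplicit false

open Polynomial

namespace Pool.Agent.Lib.MP_7ab245_nt.Few

/-- counting points of a set in the windows `[x - ω, x - v)` -/
lemma sum_window (A : Finset ℕ) (v ω X : ℕ) (hX : ∀ a ∈ A, a + ω < X) :
    ∑ x ∈ Finset.range X, (A.filter (fun a => a + v < x ∧ x ≤ a + ω)).card = (ω - v) * A.card := by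
  classical
  simp only [Finset.card_filter]
  rw [Finset.sum_comm]
  have h1 : ∀ a ∈ A, ∑ x ∈ Finset.range X, (if a + v < x ∧ x ≤ a + ω then 1 else 0) = ω - v := by
    intro a ha
    rw [← Finset.card_filter]
    have h2 : (Finset.range X).filter (fun x => a + v < x ∧ x ≤ a + ω) =
        Finset.Ioc (a + v) (a + ω) := by
      ext x
      rw [Finset.mem_filter, Finset.mem_range, Finset.mem_Ioc]
      have := hX a ha
      constructor
      · rintro ⟨_, h⟩; exact h
      · rintro ⟨h, h'⟩; exact ⟨by omega, h, h'⟩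
    rw [h2, Nat.card_Ioc]
    omega
  rw [Finset.sum_congr rfl h1, Finset.sum_const, smul_eq_mul, mul_comm]

/-- the averaging argument -/
lemma exists_window (A A' : Finset ℕ) (hA : A.Nonempty) (hA' : A' ⊆ A) (V v ω : ℕ) (hV : 1 ≤ V)
    (hg : (2 * V - 1) * A.card ≤ 2 * V * A'.card) (hω : 2 * V * v ≤ ω) (hω0 : 1 ≤ ω) :
    ∃ x : ℕ, (A.filter (fun a => a < x ∧ x ≤ a + ω)).Nonempty ∧
      V * (A.filter (fun a => a < x ∧ x ≤ a + ω)).card ≤
        (A.filter (fun a => a < x ∧ x ≤ a + ω)).card +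
        V * (A'.filter (fun a => a + v < x ∧ x ≤ a + ω)).card := by
  classical
  by_contra hcon
  push Not at hcon
  obtain ⟨X, hX⟩ : ∃ X, ∀ a ∈ A, a + ω < X :=
    ⟨A.sup id + ω + 1, fun a ha => by have := Finset.le_sup (f := id) ha; simp only [id] at this; omega⟩
  have hX' : ∀ a ∈ A', a + ω < X := fun a ha => hX a (hA' ha)
  have hs1 := sum_window A 0 ω X hX
  simp only [add_zero, Nat.sub_zero] at hs1
  have hs2 := sum_window A' v ω X hX'
  have hle : ∀ x ∈ Finset.range X,
      (A.filter (fun a => a < x ∧ x ≤ a + ω)).card +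
        V * (A'.filter (fun a => a + v < x ∧ x ≤ a + ω)).card ≤
      V * (A.filter (fun a => a < x ∧ x ≤ a + ω)).card := by
    intro x _
    rcases (A.filter (fun a => a < x ∧ x ≤ a + ω)).eq_empty_or_nonempty with h | h
    · have h2 : (A'.filter (fun a => a + v < x ∧ x ≤ a + ω)) = ∅ := by
        rw [Finset.filter_eq_empty_iff] at h ⊢
        intro a ha hax
        exact h (hA' ha) ⟨by omega, hax.2⟩
      rw [h, h2]; simp
    · exact (hcon x h).le
  obtain ⟨a₀, ha₀⟩ := hA
  have hlt : ∃ x ∈ Finset.range X,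
      (A.filter (fun a => a < x ∧ x ≤ a + ω)).card +
        V * (A'.filter (fun a => a + v < x ∧ x ≤ a + ω)).card <
      V * (A.filter (fun a => a < x ∧ x ≤ a + ω)).card := by
    refine ⟨a₀ + 1, ?_, hcon (a₀ + 1) ⟨a₀, ?_⟩⟩
    · rw [Finset.mem_range]
      have := hX a₀ ha₀
      omega
    · rw [Finset.mem_filter]
      exact ⟨ha₀, by omega, by omega⟩
  have hsum := Finset.sum_lt_sum hle hlt
  rw [Finset.sum_add_distrib, ← Finset.mul_sum, ← Finset.mul_sum, hs1, hs2] at hsum
  have hApos : 0 < A.card := Finset.card_pos.mpr ⟨a₀, ha₀⟩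
  have hvω : v ≤ ω := by nlinarith
  obtain ⟨u, hu⟩ := Nat.exists_eq_add_of_le hvω
  obtain ⟨V', rfl⟩ := Nat.exists_eq_add_of_le hV
  have h2 : ω - v = u := by omega
  have h3 : 2 * (1 + V') - 1 = 2 * V' + 1 := by omega
  rw [h2] at hsum
  rw [h3] at hg
  -- ω A + V u A' < V ω A ;   (2V-1) A ≤ 2 V A'
  have h4 : u * ((2 * V' + 1) * A.card) ≤ u * (2 * (1 + V') * A'.card) := Nat.mul_le_mul_left _ hg
  have h5 : 2 * (ω * A.card) + u * ((2 * V' + 1) * A.card) < 2 * ((1 + V') * (ω * A.card)) := by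
    calc 2 * (ω * A.card) + u * ((2 * V' + 1) * A.card)
        ≤ 2 * (ω * A.card) + u * (2 * (1 + V') * A'.card) := by omega
      _ = 2 * (ω * A.card + (1 + V') * (u * A'.card)) := by ring
      _ < 2 * ((1 + V') * (ω * A.card)) := by omega
  have h6 : A.card * (2 * ω + u * (2 * V' + 1)) < A.card * (2 * (1 + V') * ω) := by
    calc A.card * (2 * ω + u * (2 * V' + 1)) = 2 * (ω * A.card) + u * ((2 * V' + 1) * A.card) := by
          ring
      _ < 2 * ((1 + V') * (ω * A.card)) := h5
      _ = _ := by ring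
  have h7 : 2 * ω + u * (2 * V' + 1) < 2 * (1 + V') * ω := Nat.lt_of_mul_lt_mul_left h6
  subst hu
  nlinarith

/-- resultant bound for polynomials supported in a window -/
lemma abs_resultant_le_window (g F : ℤ[X]) (hg : g.Monic) (hg0 : |g.coeff 0| = 1) (E : ℕ)
    (hE : F.natDegree ≤ E) (a ω : ℕ) (hwin : ∀ i ∈ F.support, a ≤ i ∧ i ≤ a + ω) :
    |((resultant g F g.natDegree E : ℤ) : ℝ)| ≤ l1 F ^ g.natDegree * MM g ^ ω := by
  set φ := Int.castRingHom ℂ with hφ
  have hinj : Function.Injective φ := φ.injective_int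
  have hdeg : (g.map φ).natDegree = g.natDegree := natDegree_map_eq_of_injective hinj g
  have hFdeg : (F.map φ).natDegree ≤ E := by
    rwa [natDegree_map_eq_of_injective hinj]
  have hs : (g.map φ).Splits := IsAlgClosed.splits _
  have key := resultant_eq_prod_eval (g.map φ) (F.map φ) E hFdeg hs
  rw [hdeg, resultant_map_map, (hg.map φ).leadingCoeff, one_pow, one_mul] at key
  have h1 : |((resultant g F g.natDegree E : ℤ) : ℝ)| = ‖φ (resultant g F g.natDegree E)‖ := by
    simp [hφ]
  rw [h1, key]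
  have hcard : (g.map φ).roots.card = g.natDegree := by
    rw [← hdeg]; exact (splits_iff_card_roots.mp hs)
  have hev : ∀ z : ℂ, ‖(F.map φ).eval z‖ ≤ l1 F * (‖z‖ ^ a * (max 1 ‖z‖) ^ ω) := by
    intro z
    rw [eval_map, eval₂_eq_sum, Polynomial.sum_def, l1, Finset.sum_mul]
    refine (norm_sum_le _ _).trans (Finset.sum_le_sum fun i hi => ?_)
    rw [norm_mul, norm_pow]
    have h1 : ‖φ (F.coeff i)‖ = |(F.coeff i : ℝ)| := by
      simp [hφ]
    rw [h1]
    obtain ⟨h2, h3⟩ := hwin i hi
    obtain ⟨j, rfl⟩ := Nat.exists_eq_add_of_le h2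
    have h4 : ‖z‖ ^ (a + j) ≤ ‖z‖ ^ a * (max 1 ‖z‖) ^ ω := by
      rw [pow_add]
      have h5 : ‖z‖ ^ j ≤ (max 1 ‖z‖) ^ ω := by
        calc ‖z‖ ^ j ≤ (max 1 ‖z‖) ^ j := by gcongr; exact le_max_right _ _
          _ ≤ (max 1 ‖z‖) ^ ω := pow_le_pow_right₀ (le_max_left _ _) (by omega)
      gcongr
    gcongr
  have h2 : ‖(Multiset.map (fun x => eval x (F.map φ)) (g.map φ).roots).prod‖ ≤
      l1 F ^ g.natDegree * (((g.map φ).roots.map (fun a => ‖a‖)).prod ^ a *
        ((g.map φ).roots.map (fun a => max 1 ‖a‖)).prod ^ ω) := by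
    rw [← hcard]
    generalize (g.map φ).roots = s
    induction s using Multiset.induction_on with
    | empty => simp
    | cons b s ih =>
      rw [Multiset.map_cons, Multiset.prod_cons, norm_mul, Multiset.card_cons,
        Multiset.map_cons, Multiset.prod_cons, Multiset.map_cons, Multiset.prod_cons,
        mul_pow, mul_pow, pow_succ']
      have h3 := hev b
      calc ‖eval b (F.map φ)‖ * ‖(Multiset.map (fun x => eval x (F.map φ)) s).prod‖
          ≤ (l1 F * (‖b‖ ^ a * (max 1 ‖b‖) ^ ω)) *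
            (l1 F ^ s.card * ((s.map (fun a => ‖a‖)).prod ^ a *
              ((s.map (fun a => max 1 ‖a‖)).prod ^ ω))) := by
            apply mul_le_mul h3 ih (norm_nonneg _)
            have := l1_nonneg F
            positivity
        _ = _ := by ring
  have h4 : MM g = ‖(g.map φ).leadingCoeff‖ * ((g.map φ).roots.map (fun a => max 1 ‖a‖)).prod :=
    mahlerMeasure_eq_leadingCoeff_mul_prod_roots _
  rw [(hg.map φ).leadingCoeff, norm_one, one_mul] at h4
  have h5 : ((g.map φ).roots.map (fun a => ‖a‖)).prod = 1 := by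
    have h6 : ((g.map φ).roots.map (fun a => ‖a‖)).prod = ‖(g.map φ).roots.prod‖ := by
      generalize (g.map φ).roots = s
      induction s using Multiset.induction_on with
      | empty => simp
      | cons b s ih => rw [Multiset.map_cons, Multiset.prod_cons, Multiset.prod_cons, norm_mul, ih]
    have h7 := hs.coeff_zero_eq_prod_roots_of_monic (hg.map φ)
    have h8 : ‖(g.map φ).coeff 0‖ = 1 := by
      rw [coeff_map]
      have h9 : ‖φ (g.coeff 0)‖ = ((|g.coeff 0| : ℤ) : ℝ) := by simp [hφ]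
      rw [h9, hg0]; simp
    rw [h7, norm_mul, norm_pow, norm_neg, norm_one, one_pow, one_mul] at h8
    rw [h6, h8]
  rw [h5, one_pow, one_mul, ← h4] at h2
  exact h2

end Pool.Agent.Lib.MP_7ab245_nt.Few
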