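import Mathlib
import Pool.Agent.Lib.MP_7ab245_nt.Sumset
import Pool.Agent.Lib.MP_7ab245_nt.AuxPoly
import Pool.Agent.Lib.MP_7ab245_nt.Few.Win
import Pool.Agent.Lib.MP_7ab245_nt.Few.Homs

/-! The auxiliary polynomial, with control of all supports. -/

set_option autoImplicit false

open Polynomial
open scoped Pointwise

namespace Pool.Agent.Lib.MP_7ab245_nt.Few

lemma support_mul_SS {E : Finset ℕ} {a b : ℕ} {f g : ℤ[X]} (hf : f.support ⊆ SS E a)
    (hg : g.support ⊆ SS E b) : (f * g).support ⊆ SS E (a + b) := by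
  intro n hn
  obtain ⟨i, hi, j, hj, rfl⟩ := support_mul_mem f g n hn
  rw [← SS_add]
  exact Finset.add_mem_add (hf hi) (hg hj)

lemma support_pow_SS {E : Finset ℕ} {h : ℤ[X]} (hh : h.support ⊆ E) (m : ℕ) :
    (h ^ m).support ⊆ SS E m := by
  induction m with
  | zero =>
    intro n hn
    rw [pow_zero, mem_support_iff, coeff_one] at hn
    simp only [SS, Finset.mem_singleton]
    by_contra h0
    exact hn (if_neg h0)
  | succ m ih =>
    rw [pow_succ]
    have h1 : h.support ⊆ SS E 1 := by
      rw [SS, SS, Finset.singleton_zero, zero_add]; exact hh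
    exact support_mul_SS ih h1

/-- Growth lemma. -/
lemma growth' (I : Finset ℕ) (N1 e V J : ℕ) (he : 1 ≤ e) (hJ1 : 1 ≤ J)
    (hN1 : (SS I (J * V)).card ≤ N1) (hbig : N1 * e ^ J ≤ (e + 1) ^ J) :
    ∃ L, V ≤ L ∧ L ≤ J * V ∧ e * (SS I L).card ≤ (e + 1) * (SS I (L - V)).card := by
  by_contra hcon
  push Not at hcon
  have key : ∀ t : ℕ, t ≤ J → (e + 1) ^ t ≤ e ^ t * (SS I (V * t)).card ∧
      (1 ≤ t → (e + 1) ^ t < e ^ t * (SS I (V * t)).card) := by
    intro t
    induction t with
    | zero => intro _; simp [SS]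
    | succ t ih =>
      intro ht
      have h1 := (ih (by omega)).1
      have h2 := hcon (V * (t + 1)) (by nlinarith) (by nlinarith)
      have h3 : V * (t + 1) - V = V * t := by
        rw [mul_add, mul_one, Nat.add_sub_cancel]
      rw [h3] at h2
      have h4 : (e + 1) ^ (t + 1) < e ^ (t + 1) * (SS I (V * (t + 1))).card := by
        calc (e + 1) ^ (t + 1) = (e + 1) * (e + 1) ^ t := by ring
          _ ≤ (e + 1) * (e ^ t * (SS I (V * t)).card) := by gcongr
          _ = e ^ t * ((e + 1) * (SS I (V * t)).card) := by ring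
          _ < e ^ t * (e * (SS I (V * (t + 1))).card) := by
              have : 0 < e ^ t := by positivity
              exact Nat.mul_lt_mul_of_pos_left h2 this
          _ = _ := by ring
      exact ⟨h4.le, fun _ => h4⟩
  have h5 := (key J le_rfl).2 hJ1
  have : (e + 1) ^ J < (e + 1) ^ J := by
    calc (e + 1) ^ J < e ^ J * (SS I (V * J)).card := h5
      _ = e ^ J * (SS I (J * V)).card := by rw [mul_comm V J]
      _ ≤ e ^ J * N1 := Nat.mul_le_mul_left _ hN1
      _ = N1 * e ^ J := by ring
      _ ≤ _ := hbig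
  exact lt_irrefl _ this

/-- division by a monic polynomial with controlled support -/
lemma div_support' (H0 : ℤ[X]) (hm : H0.Monic) (S' : Finset ℕ) :
    ∀ (S : Finset ℕ), (∀ s ∈ S', ∀ t ∈ H0.support, s + t ∈ S) → ∀ G : ℤ[X], G.support ⊆ S →
      ∃ R Q : ℤ[X], G = R + H0 * Q ∧ R.support ⊆ S \ S'.image (fun s => s + H0.natDegree) ∧
        Q.support ⊆ S' := by
  induction S' using Finset.induction_on_max with
  | empty =>
    intro S _ G hG
    exact ⟨G, 0, by simp, by simpa using hG, by simp⟩
  | insert m T hmax ih =>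
    intro S hS G hG
    set N := H0.natDegree with hN
    set c := G.coeff (m + N) with hc
    set G1 := G - H0 * (monomial m c) with hG1
    have hG1S : G1.support ⊆ S.erase (m + N) := by
      intro n hn
      rw [Finset.mem_erase]
      constructor
      · rintro rfl
        rw [mem_support_iff, hG1, coeff_sub, add_comm m N, coeff_mul_monomial] at hn
        apply hn
        have : H0.coeff N = 1 := hm
        rw [this, one_mul, hc, add_comm m N, sub_self]
      · by_contra hnS
        rw [mem_support_iff, hG1, coeff_sub] at hn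
        have h1 : G.coeff n = 0 := by
          by_contra h; exact hnS (hG (mem_support_iff.mpr h))
        rw [h1, zero_sub, neg_ne_zero, ← mem_support_iff] at hn
        obtain ⟨i, hi, j, hj, rfl⟩ := support_mul_mem _ _ _ hn
        have hjm : j = m := by
          rw [mem_support_iff, coeff_monomial] at hj
          by_contra hne
          exact hj (if_neg (fun h => hne h.symm))
        subst hjm
        apply hnS
        rw [add_comm]
        exact hS j (Finset.mem_insert_self _ _) i hi
    have hS2 : ∀ s ∈ T, ∀ t ∈ H0.support, s + t ∈ S.erase (m + N) := by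
      intro s hs t ht
      rw [Finset.mem_erase]
      refine ⟨?_, hS s (Finset.mem_insert_of_mem hs) t ht⟩
      have h1 := hmax s hs
      have h2 := le_natDegree_of_mem_supp t ht
      omega
    obtain ⟨R, Q, hRQ, hR, hQ⟩ := ih (S.erase (m + N)) hS2 G1 hG1S
    refine ⟨R, Q + monomial m c, ?_, ?_, ?_⟩
    · rw [mul_add, ← add_assoc, ← hRQ, hG1]; ring
    · intro n hn
      have := hR hn
      rw [Finset.mem_sdiff, Finset.mem_erase] at this
      rw [Finset.mem_sdiff]
      refine ⟨this.1.2, ?_⟩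
      rw [Finset.image_insert, Finset.mem_insert, not_or]
      exact ⟨this.1.1, this.2⟩
    · intro n hn
      rw [Finset.mem_insert]
      rw [mem_support_iff, coeff_add, coeff_monomial] at hn
      by_cases hnm : n = m
      · exact Or.inl hnm
      · rw [if_neg (fun h => hnm h.symm), add_zero, ← mem_support_iff] at hn
        exact Or.inr (hQ hn)

/-- Pigeonhole construction. -/
lemma pigeon' (H0 : ℤ[X]) (hm : H0.Monic) (S S' : Finset ℕ)
    (hS : ∀ s ∈ S', ∀ t ∈ H0.support, s + t ∈ S) (B M : ℕ) (hM : 0 < M)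
    (hcard : M ^ (S.card - S'.card) < B ^ S.card) :
    ∃ F : ℤ[X], F ≠ 0 ∧ F.support ⊆ S ∧ (∀ i, |F.coeff i| < B) ∧
      ∃ A Q : ℤ[X], A.support ⊆ S ∧ Q.support ⊆ S' ∧ F = C (M : ℤ) * A + H0 * Q := by
  classical
  have : NeZero M := ⟨hM.ne'⟩
  have hMz : (M : ℤ) ≠ 0 := by exact_mod_cast hM.ne'
  let G : (S → Fin B) → ℤ[X] := fun c => ∑ s : S, monomial (s : ℕ) ((c s : ℕ) : ℤ)
  have hcoeff : ∀ c : S → Fin B, ∀ n, (G c).coeff n = if h : n ∈ S then ((c ⟨n, h⟩ : ℕ) : ℤ) else 0 := by
    intro c n
    simp only [G, finsetSum_coeff, coeff_monomial]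
    split_ifs with h
    · rw [Finset.sum_eq_single ⟨n, h⟩]
      · simp
      · intro b _ hb
        rw [if_neg]
        intro hbn
        exact hb (Subtype.ext hbn)
      · intro h'; exact absurd (Finset.mem_univ _) h'
    · refine Finset.sum_eq_zero fun b _ => ?_
      rw [if_neg]
      rintro rfl
      exact h b.2
  have hGS : ∀ c, (G c).support ⊆ S := by
    intro c n hn
    rw [mem_support_iff, hcoeff] at hn
    by_contra h
    exact hn (dif_neg h)
  have hdiv := fun c => div_support' H0 hm S' S hS (G c) (hGS c)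
  choose R Q hRQ hR hQ using hdiv
  set T := S \ S'.image (fun s => s + H0.natDegree) with hT
  have hN : H0.natDegree ∈ H0.support := natDegree_mem_support_of_nonzero hm.ne_zero
  have hTcard : T.card = S.card - S'.card := by
    rw [hT, Finset.card_sdiff_of_subset, Finset.card_image_of_injective]
    · intro a b hab
      simpa using hab
    · intro x hx
      rw [Finset.mem_image] at hx
      obtain ⟨s, hs, rfl⟩ := hx
      exact hS s hs _ hN
  let Ψ : (S → Fin B) → (T → ZMod M) := fun c t => ((R c).coeff t : ZMod M)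
  have hlt : Fintype.card (T → ZMod M) < Fintype.card (S → Fin B) := by
    simp only [Fintype.card_fun, ZMod.card, Fintype.card_fin, Fintype.card_coe]
    rw [hTcard]; exact hcard
  obtain ⟨c, c', hne, heq⟩ := Fintype.exists_ne_map_eq_of_card_lt Ψ hlt
  refine ⟨G c - G c', ?_, ?_, ?_, ?_⟩
  · intro h0
    apply hne
    funext s
    have h1 : (G c - G c').coeff s = 0 := by rw [h0]; simp
    rw [coeff_sub, hcoeff, hcoeff, dif_pos s.2, dif_pos s.2] at h1
    apply Fin.ext
    have : (((c s : ℕ) : ℤ)) = ((c' s : ℕ) : ℤ) := by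
      have h2 := sub_eq_zero.mp h1
      simpa using h2
    exact_mod_cast this
  · intro n hn
    by_contra h
    rw [mem_support_iff, coeff_sub, hcoeff, hcoeff, dif_neg h, dif_neg h, sub_zero] at hn
    exact hn rfl
  · intro i
    rw [coeff_sub, hcoeff, hcoeff]
    split_ifs with h
    · have h1 := (c ⟨i, h⟩).2
      have h2 := (c' ⟨i, h⟩).2
      rw [abs_lt]
      constructor <;> omega
    · have hB : 0 < B := by
        by_contra hB0
        have : B = 0 := by omega
        subst this
        rcases Nat.eq_zero_or_pos S.card with h0 | h0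
        · rw [h0] at hcard; simp at hcard
        · rw [zero_pow h0.ne'] at hcard
          exact absurd hcard (by omega)
      simpa using hB
  · have hRR : ∃ W : ℤ[X], R c - R c' = C (M : ℤ) * W := by
      have : C (M : ℤ) ∣ R c - R c' := by
        rw [C_dvd_iff_dvd_coeff]
        intro i
        by_cases hi : i ∈ T
        · have := congrFun heq ⟨i, hi⟩
          simp only [Ψ] at this
          rw [coeff_sub]
          rw [← ZMod.intCast_zmod_eq_zero_iff_dvd]
          push_cast
          rw [this, sub_self]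
        · have h1 : (R c).coeff i = 0 := by
            by_contra h; exact hi (hR c (mem_support_iff.mpr h))
          have h2 : (R c').coeff i = 0 := by
            by_contra h; exact hi (hR c' (mem_support_iff.mpr h))
          rw [coeff_sub, h1, h2]; simp
      exact this
    obtain ⟨W, hW⟩ := hRR
    refine ⟨W, Q c - Q c', ?_, ?_, ?_⟩
    · intro n hn
      by_contra hnS
      have h1 : (R c).coeff n = 0 := by
        by_contra h; exact hnS (Finset.mem_sdiff.mp (hR c (mem_support_iff.mpr h))).1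
      have h2 : (R c').coeff n = 0 := by
        by_contra h; exact hnS (Finset.mem_sdiff.mp (hR c' (mem_support_iff.mpr h))).1
      have h3 : (R c - R c').coeff n = (M : ℤ) * W.coeff n := by rw [hW, coeff_C_mul]
      rw [coeff_sub, h1, h2, sub_zero] at h3
      rcases mul_eq_zero.mp h3.symm with h4 | h4
      · exact hMz h4
      · exact (mem_support_iff.mp hn) h4
    · intro n hn
      by_contra hnS
      have h1 : (Q c).coeff n = 0 := by
        by_contra h; exact hnS (hQ c (mem_support_iff.mpr h))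
      have h2 : (Q c').coeff n = 0 := by
        by_contra h; exact hnS (hQ c' (mem_support_iff.mpr h))
      rw [mem_support_iff, coeff_sub, h1, h2, sub_zero] at hn
      exact hn rfl
    · rw [← hW]
      nth_rewrite 1 [hRQ c, hRQ c']
      ring

/-- The auxiliary polynomial. -/
theorem exists_aux' (E : Finset ℕ) (h0 : 0 ∈ E) (d : ℕ) (hd : ∀ s ∈ E, s ≤ d) (V J N1 : ℕ)
    (hV : 1 ≤ V) (hJ1 : 1 ≤ J) (hN1 : (SS E (J * V)).card ≤ N1)
    (hbig : N1 * (2 * V - 1) ^ J ≤ (2 * V) ^ J) (ω : ℕ) (hω : 2 * V * (V * d) ≤ ω) (hω1 : 1 ≤ ω)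
    (p : ℕ) (hp : 2 ≤ p) (h : ℤ[X]) (hm : h.Monic) (hh : h.support ⊆ E) :
    ∃ L, V ≤ L ∧ L ≤ J * V ∧ ∃ x : ℕ, ∃ F : ℤ[X], F ≠ 0 ∧ F.support ⊆ SS E L ∧
      (∀ i ∈ F.support, i < x ∧ x ≤ i + ω) ∧ l1 F ≤ (N1 : ℝ) * p ∧
        ∃ A Q : ℤ[X], A.support ⊆ SS E L ∧ Q.support ⊆ SS E (L - V) ∧
          F = C (((p ^ V : ℕ)) : ℤ) * A + h ^ V * Q := by
  classical
  have he : 2 * V - 1 + 1 = 2 * V := by omega
  obtain ⟨L, hL1, hL2, hL3⟩ := growth' E N1 (2 * V - 1) V J (by omega) hJ1 hN1 (by rw [he]; exact hbig)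
  rw [he] at hL3
  have hI : E.Nonempty := ⟨0, h0⟩
  have hsub : SS E (L - V) ⊆ SS E L := SS_mono h0 (Nat.sub_le _ _)
  obtain ⟨x, hx1, hx2⟩ := exists_window (SS E L) (SS E (L - V)) (SS_nonempty hI _) hsub V (V * d) ω
    hV hL3 hω hω1
  set S := (SS E L).filter (fun a => a < x ∧ x ≤ a + ω) with hS
  set S' := (SS E (L - V)).filter (fun a => a + V * d < x ∧ x ≤ a + ω) with hS'
  have hSpos : 0 < S.card := hx1.card_pos
  have hSS : ∀ s ∈ S', ∀ t ∈ (h ^ V).support, s + t ∈ S := by
    intro s hs t ht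
    rw [hS', Finset.mem_filter] at hs
    have ht' := support_pow_SS hh V ht
    have htd : t ≤ V * d := SS_le hd V t ht'
    rw [hS, Finset.mem_filter]
    refine ⟨?_, by omega, by omega⟩
    have := Finset.add_mem_add hs.1 ht'
    rw [SS_add, Nat.sub_add_cancel hL1] at this
    exact this
  have hcard : (p ^ V) ^ (S.card - S'.card) < (p + 1) ^ S.card := by
    have h1 : V * (S.card - S'.card) ≤ S.card := by
      rw [Nat.mul_sub]
      omega
    calc (p ^ V) ^ (S.card - S'.card) = p ^ (V * (S.card - S'.card)) := by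
          rw [← pow_mul]
      _ ≤ p ^ S.card := Nat.pow_le_pow_right (by omega) h1
      _ < (p + 1) ^ S.card := Nat.pow_lt_pow_left (Nat.lt_succ_self _) hSpos.ne'
  obtain ⟨F, hF0, hFS, hFc, A, Q, hA, hQ, hFAQ⟩ :=
    pigeon' (h ^ V) (hm.pow V) S S' hSS (p + 1) (p ^ V) (by positivity) hcard
  have hFS' : F.support ⊆ SS E L := fun i hi => (Finset.mem_filter.mp (hFS hi)).1
  refine ⟨L, hL1, hL2, x, F, hF0, hFS', fun i hi => (Finset.mem_filter.mp (hFS hi)).2, ?_, A, Q,
    fun i hi => (Finset.mem_filter.mp (hA hi)).1, fun i hi => (Finset.mem_filter.mp (hQ hi)).1, hFAQ⟩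
  have hFcard : F.support.card ≤ N1 :=
    (Finset.card_le_card hFS').trans ((SS_card_mono' hI hL2).trans hN1)
  have h1 : l1 F ≤ F.support.card * (p : ℝ) := by
    unfold l1
    have : ∀ i ∈ F.support, |(F.coeff i : ℝ)| ≤ (p : ℝ) := by
      intro i _
      have h2 := hFc i
      have h3 : |F.coeff i| ≤ (p : ℤ) := by push_cast at h2 ⊢; omega
      have h4 : ((|F.coeff i| : ℤ) : ℝ) ≤ ((p : ℤ) : ℝ) := by exact_mod_cast h3
      push_cast at h4
      exact h4
    have := Finset.sum_le_card_nsmul _ _ _ this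
    simpa using this
  calc l1 F ≤ F.support.card * (p : ℝ) := h1
    _ ≤ (N1 : ℝ) * p := by
        gcongr

end Pool.Agent.Lib.MP_7ab245_nt.Few
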