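import Mathlib
import Pool.Agent.Lib.MP_7ab245_nt.Few.Homs

/-! Sets covered by few intervals. -/

set_option autoImplicit false

open scoped Pointwise

namespace Pool.Agent.Lib.MP_7ab245_nt.Few

/-- the union of the intervals `[s, s + ℓ]`, `s ∈ S` -/
def Blk (S : Finset ℕ) (ℓ : ℕ) : Finset ℕ := S.biUnion fun s => Finset.Icc s (s + ℓ)

lemma mem_Blk {S : Finset ℕ} {ℓ e : ℕ} : e ∈ Blk S ℓ ↔ ∃ s ∈ S, s ≤ e ∧ e ≤ s + ℓ := by
  unfold Blk
  simp only [Finset.mem_biUnion, Finset.mem_Icc]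

lemma SS_subset {E E' : Finset ℕ} (h : E ⊆ E') (L : ℕ) : SS E L ⊆ SS E' L := by
  induction L with
  | zero => exact subset_rfl
  | succ L ih => exact Finset.add_subset_add ih h

lemma card_SS_Blk (S : Finset ℕ) (ℓ L : ℕ) :
    (SS (Blk S ℓ) L).card ≤ (L + 1) ^ S.card * (L * ℓ + 1) := by
  classical
  have hsub : SS (Blk S ℓ) L ⊆ SS S L + Finset.range (L * ℓ + 1) := by
    induction L with
    | zero =>
      intro s hs
      simp only [SS, Finset.mem_singleton] at hs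
      rw [Finset.mem_add]
      exact ⟨0, by simp [SS], 0, by simp, by simp [hs]⟩
    | succ L ih =>
      intro s hs
      rw [SS, Finset.mem_add] at hs
      obtain ⟨a, ha, b, hb, rfl⟩ := hs
      have h1 := ih ha
      rw [Finset.mem_add] at h1
      obtain ⟨a', ha', c, hc, rfl⟩ := h1
      obtain ⟨t, ht, htb, hbt⟩ := mem_Blk.mp hb
      rw [Finset.mem_add]
      refine ⟨a' + t, Finset.add_mem_add ha' ht, c + (b - t), ?_, by omega⟩
      rw [Finset.mem_range] at hc ⊢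
      have h2 : (L + 1) * ℓ = L * ℓ + ℓ := by ring
      omega
  calc (SS (Blk S ℓ) L).card ≤ (SS S L + Finset.range (L * ℓ + 1)).card :=
        Finset.card_le_card hsub
    _ ≤ (SS S L).card * (Finset.range (L * ℓ + 1)).card := Finset.card_add_le
    _ ≤ (L + 1) ^ S.card * (L * ℓ + 1) := by
        rw [Finset.card_range]
        exact Nat.mul_le_mul_right _ (SS_card_le S L)

/-- additive maps are affine on blocks -/
lemma IsHom.block {S : Finset ℕ} {ℓ L : ℕ} {w : ℕ → ℝ} (hw : IsHom (Blk S ℓ) L w) (h0 : 0 ∈ S)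
    (hℓ : 1 ≤ ℓ) (hL : 2 ≤ L) (s : ℕ) (hs : s ∈ S) : ∀ j ≤ ℓ, w (s + j) = w s + j * w 1 := by
  have h1 : 1 ∈ Blk S ℓ := mem_Blk.mpr ⟨0, h0, by omega, by omega⟩
  intro j
  induction j with
  | zero => intro _; simp
  | succ j ih =>
    intro hj
    have h2 : s + j ∈ SS (Blk S ℓ) 1 := mem_SS_one.mpr (mem_Blk.mpr ⟨s, hs, by omega, by omega⟩)
    have h3 := hw.2 1 (by omega) (s + j) h2 1 h1
    rw [← add_assoc, h3, ih (by omega)]
    push_cast; ring

lemma dirichlet_blocks (S : Finset ℕ) (h0 : 0 ∈ S) (ℓ L : ℕ) (hℓ : 1 ≤ ℓ) (hL : 2 ≤ L)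
    (w : ℕ → ℝ) (hw : IsHom (Blk S ℓ) L w) :
    ∃ q : ℕ, 1 ≤ q ∧ q ≤ (4 * L + 2) ^ (S.card + 1) * ℓ ∧
      ∀ e ∈ Blk S ℓ, |q * w e - round (q * w e)| ≤ 1 / ((2 * L + 1 : ℕ) : ℝ) := by
  classical
  set N := 4 * L + 2 with hN
  have hNR : (0 : ℝ) < N := by rw [hN]; positivity
  have hℓR : (1 : ℝ) ≤ ℓ := by exact_mod_cast hℓ
  obtain ⟨q, hq1, hq2, hq3⟩ := dirichlet (insert 1 S) w (fun e => N * if e = 1 then ℓ else 1)
    (fun e => by
      have : 0 < N := by omega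
      split_ifs
      · positivity
      · omega)
  refine ⟨q, hq1, ?_, ?_⟩
  · refine hq2.trans ?_
    rw [Finset.prod_mul_distrib, Finset.prod_const, Finset.prod_ite_eq' (insert 1 S) 1,
      if_pos (Finset.mem_insert_self _ _)]
    apply Nat.mul_le_mul_right
    apply Nat.pow_le_pow_right (by omega)
    exact Finset.card_insert_le _ _
  · intro e he
    obtain ⟨s, hs, hse, hes⟩ := mem_Blk.mp he
    obtain ⟨j, rfl⟩ := Nat.exists_eq_add_of_le hse
    have hj : j ≤ ℓ := by omega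
    refine (round_le _ (round (q * w s) + j * round (q * w 1))).trans ?_
    rw [hw.block h0 hℓ hL s hs j hj]
    have h1 := hq3 s (Finset.mem_insert_of_mem hs)
    have h2 := hq3 1 (Finset.mem_insert_self _ _)
    rw [if_pos rfl] at h2
    have h1' : |q * w s - round (q * w s)| ≤ 1 / N := by
      refine h1.trans ?_
      apply one_div_le_one_div_of_le hNR
      push_cast
      split_ifs
      · nlinarith
      · simp
    push_cast at h2 ⊢
    have hjR : (j : ℝ) ≤ ℓ := by exact_mod_cast hj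
    calc |(q : ℝ) * (w s + j * w 1) - (round (q * w s) + j * round (q * w 1))|
        = |(q * w s - round (q * w s)) + j * (q * w 1 - round (q * w 1))| := by ring_nf
      _ ≤ |q * w s - round (q * w s)| + |(j : ℝ) * (q * w 1 - round (q * w 1))| := abs_add_le _ _
      _ = |q * w s - round (q * w s)| + j * |q * w 1 - round (q * w 1)| := by
          rw [abs_mul, Nat.abs_cast]
      _ ≤ 1 / N + ℓ * (1 / (N * ℓ)) := by gcongr
      _ = 2 / N := by field_simp; ring
      _ = 1 / (2 * L + 1) := by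
          rw [hN]; push_cast
          field_simp
          ring

/-- small additive maps for subsets of blocks -/
theorem incl_mem_span_blocks (S : Finset ℕ) (h0 : 0 ∈ S) (ℓ L : ℕ) (hℓ : 1 ≤ ℓ) (hL : 2 ≤ L)
    (E : Finset ℕ) (hE : E ⊆ Blk S ℓ) (Q : ℕ) (hQ : (4 * L + 2) ^ (S.card + 1) * ℓ ≤ Q) :
    (fun s : SS E L => ((s : ℕ) : ℝ)) ∈ Submodule.span ℝ (smallHoms E L (Q * L + 1)) := by
  classical
  have h00 : 0 ∈ Blk S ℓ := mem_Blk.mpr ⟨0, h0, by omega, by omega⟩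
  have h1 := incl_mem_span (Blk S ℓ) h00 L (by omega) Q (fun w hw => by
    obtain ⟨q, hq1, hq2, hq3⟩ := dirichlet_blocks S h0 ℓ L hℓ hL w hw
    exact ⟨q, hq1, hq2.trans hQ, hq3⟩)
  let r : (SS (Blk S ℓ) L → ℝ) →ₗ[ℝ] (SS E L → ℝ) :=
    { toFun := fun u s => u ⟨s, SS_subset hE L s.2⟩
      map_add' := fun u v => rfl
      map_smul' := fun c u => rfl }
  have h2 : r (fun s => ((s : ℕ) : ℝ)) ∈ (Submodule.span ℝ (smallHoms (Blk S ℓ) L (Q * L + 1))).map r :=
    Submodule.mem_map_of_mem h1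
  rw [Submodule.map_span] at h2
  refine Submodule.span_mono ?_ h2
  rintro _ ⟨u, ⟨z, hz1, hz2, hz3⟩, rfl⟩
  refine ⟨z, ⟨hz1.1, fun m hm s hs e he => ?_⟩, fun s hs => hz2 s (SS_subset hE L hs), fun s => ?_⟩
  · exact hz1.2 m hm s (SS_subset hE m hs) e (hE he)
  · exact hz3 _

end Pool.Agent.Lib.MP_7ab245_nt.Few
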