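import Mathlib

/-! Counting the powers of the roots of an irreducible polynomial. -/

set_option autoImplicit false

open Polynomial

namespace Pool.Agent.Lib.MP_7ab245_nt.Few

/-- the field of algebraic numbers -/
abbrev QQ := AlgebraicClosure ℚ

lemma alg_QQ : Algebra.IsAlgebraic ℚ QQ := by
  constructor
  intro x
  obtain ⟨p, hp, hx⟩ := (AlgebraicClosure.isAlgebraic ℚ).isAlgebraic x
  refine ⟨p, hp, ?_⟩
  rw [aeval_def] at hx ⊢
  rw [← hx]
  congr 1

lemma normal_QQ : Normal ℚ QQ :=
  { toIsAlgebraic := alg_QQ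
    splits' := fun _ => IsAlgClosed.splits _ }

lemma eq_minpoly_of_root' {K : Type*} [Field K] [CharZero K] (g : ℤ[X]) (hg : g.Monic)
    (hirr : Irreducible g) (α : K) (hroot : aeval α g = 0) : g = minpoly ℤ α := by
  have hint : IsIntegral ℤ α := ⟨g, hg, hroot⟩
  have hd := minpoly.isIntegrallyClosed_dvd hint hroot
  have hm := minpoly.monic hint
  obtain ⟨c, hc⟩ := hd
  rcases hirr.isUnit_or_isUnit hc with h | h
  · exact absurd h (minpoly.not_isUnit ℤ α)
  · have : c = 1 := by
      have hc' : c.Monic := by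
        refine hm.of_mul_monic_left ?_
        rw [← hc]; exact hg
      exact hc'.eq_one_of_isUnit h
    rw [hc, this, mul_one]

lemma dvd_of_root' {K : Type*} [Field K] [CharZero K] (g : ℤ[X]) (hg : g.Monic)
    (hirr : Irreducible g) (α : K) (hroot : aeval α g = 0) (G : ℤ[X]) (hG : aeval α G = 0) :
    g ∣ G := by
  have hint : IsIntegral ℤ α := ⟨g, hg, hroot⟩
  rw [eq_minpoly_of_root' g hg hirr α hroot]
  exact minpoly.isIntegrallyClosed_dvd hint hG

/-- Conjugate algebraic numbers with a multiplicative relation `x ^ a = y ^ b`, `a ≠ b`,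
are roots of unity. -/
lemma torsion_of_pow_eq (f : ℤ[X]) (hf : f.Monic) (hirr : Irreducible f) (x y : QQ)
    (hx : aeval x f = 0) (hy : aeval y f = 0) (hx0 : x ≠ 0) (a b : ℕ) (hab : a ≠ b)
    (h : x ^ a = y ^ b) : ∃ m : ℕ, 0 < m ∧ x ^ m = 1 := by
  classical
  have hnorm : Normal ℚ QQ := normal_QQ
  have hmin : ∀ z : QQ, aeval z f = 0 → minpoly ℚ z = f.map (algebraMap ℤ ℚ) := by
    intro z hz
    have h1 := eq_minpoly_of_root' f hf hirr z hz
    have hint : IsIntegral ℤ z := ⟨f, hf, hz⟩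
    rw [h1]
    exact minpoly.isIntegrallyClosed_eq_field_fractions' ℚ hint
  have hconj : IsConjRoot ℚ y x := by
    rw [IsConjRoot, hmin x hx, hmin y hy]
  obtain ⟨σ, hσ⟩ := isConjRoot_iff_exists_algEquiv.mp hconj
  -- σ x = y
  have hσx : ∀ m : ℕ, aeval ((σ^[m]) x) f = 0 := by
    intro m
    induction m with
    | zero => exact hx
    | succ m ih =>
      rw [Function.iterate_succ_apply']
      have h1 := congrArg (σ : QQ → QQ) ih
      rw [map_zero] at h1
      have h2 : aeval (σ ((σ^[m]) x)) f = σ (aeval ((σ^[m]) x) f) := by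
        have := aeval_algHom_apply (σ.toAlgHom.restrictScalars ℤ) ((σ^[m]) x) f
        simpa using this
      rw [h2]; exact h1
  have hpow : ∀ m : ℕ, x ^ (a ^ m) = ((σ^[m]) x) ^ (b ^ m) := by
    intro m
    induction m with
    | zero => simp
    | succ m ih =>
      have h1 : x ^ a ^ (m + 1) = (y ^ b) ^ (a ^ m) := by
        rw [← h, ← pow_mul, pow_succ']
      have h2 : (y ^ b) ^ (a ^ m) = (σ (x ^ (a ^ m))) ^ b := by
        rw [map_pow, hσ, ← pow_mul, ← pow_mul, mul_comm]
      rw [h1, h2, ih, map_pow, Function.iterate_succ_apply', ← pow_mul, pow_succ]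
  -- the orbit is finite
  have hfin : Set.Finite {z : QQ | aeval z f = 0} := by
    have h1 : {z : QQ | aeval z f = 0} ⊆ ((f.map (algebraMap ℤ QQ)).roots.toFinset : Set QQ) := by
      intro z hz
      rw [Finset.mem_coe, Multiset.mem_toFinset, mem_roots']
      refine ⟨(hf.map _).ne_zero, ?_⟩
      rw [IsRoot.def, eval_map]
      exact hz
    exact (Finset.finite_toSet _).subset h1
  have hninj : ¬ Set.InjOn (fun m : ℕ => (σ^[m]) x) Set.univ := by
    intro hinj
    have := Set.infinite_of_injOn_mapsTo (s := Set.univ) (t := {z : QQ | aeval z f = 0}) hinj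
      (fun m _ => hσx m) Set.infinite_univ
    exact this hfin
  have hper : ∃ m : ℕ, 0 < m ∧ (σ^[m]) x = x := by
    simp only [Set.InjOn, Set.mem_univ, forall_true_left] at hninj
    push Not at hninj
    obtain ⟨i, j, hij, hne⟩ := hninj
    have hσinj : ∀ i : ℕ, Function.Injective (σ^[i]) := fun i => σ.injective.iterate i
    rcases lt_or_gt_of_ne hne with h1 | h1
    · refine ⟨j - i, by omega, ?_⟩
      apply hσinj i
      rw [← Function.iterate_add_apply]
      have : i + (j - i) = j := by omega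
      rw [this]; exact hij.symm
    · refine ⟨i - j, by omega, ?_⟩
      apply hσinj j
      rw [← Function.iterate_add_apply]
      have : j + (i - j) = i := by omega
      rw [this]; exact hij
  obtain ⟨m, hm, hmx⟩ := hper
  have h1 := hpow m
  rw [hmx] at h1
  have hne : a ^ m ≠ b ^ m := by
    intro h2
    exact hab (Nat.pow_left_injective hm.ne' h2)
  rcases lt_or_gt_of_ne hne with h2 | h2
  · refine ⟨b ^ m - a ^ m, by omega, ?_⟩
    have h3 : x ^ (b ^ m) = x ^ (a ^ m) * x ^ (b ^ m - a ^ m) := by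
      rw [← pow_add]; congr 1; omega
    rw [h3] at h1
    have h4 : x ^ (a ^ m) ≠ 0 := pow_ne_zero _ hx0
    exact (mul_eq_left₀ h4).mp h1.symm
  · refine ⟨a ^ m - b ^ m, by omega, ?_⟩
    have h3 : x ^ (a ^ m) = x ^ (b ^ m) * x ^ (a ^ m - b ^ m) := by
      rw [← pow_add]; congr 1; omega
    rw [h3] at h1
    have h4 : x ^ (b ^ m) ≠ 0 := pow_ne_zero _ hx0
    exact (mul_eq_left₀ h4).mp h1

/-- the set of roots in the field of algebraic numbers -/
noncomputable def RR (f : ℤ[X]) : Finset QQ := by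
  classical exact (f.map (algebraMap ℤ QQ)).roots.toFinset

lemma mem_RR {f : ℤ[X]} (hf : f.Monic) {x : QQ} : x ∈ RR f ↔ aeval x f = 0 := by
  classical
  unfold RR
  rw [Multiset.mem_toFinset, mem_roots (hf.map _).ne_zero, IsRoot.def, eval_map]
  rfl

lemma card_RR {f : ℤ[X]} (hf : f.Monic) (hirr : Irreducible f) : (RR f).card = f.natDegree := by
  classical
  unfold RR
  have hirrQ : Irreducible (f.map (algebraMap ℤ ℚ)) :=
    (hf.irreducible_iff_irreducible_map_fraction_map (K := ℚ)).mp hirr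
  have hsep := hirrQ.separable.map (f := algebraMap ℚ QQ)
  rw [Polynomial.map_map] at hsep
  have heq : (algebraMap ℚ QQ).comp (algebraMap ℤ ℚ) = algebraMap ℤ QQ := RingHom.ext_int _ _
  rw [heq] at hsep
  rw [Multiset.toFinset_card_of_nodup (nodup_roots hsep),
    splits_iff_card_roots.mp (IsAlgClosed.splits _), hf.natDegree_map]

/-- zero counting -/
theorem count (f F : ℤ[X]) (hf : f.Monic) (hirr : Irreducible f)
    (hx0 : ∀ x : QQ, aeval x f = 0 → x ≠ 0)
    (hnt : ∀ x : QQ, aeval x f = 0 → ∀ m : ℕ, 0 < m → x ^ m ≠ 1) (hF : F ≠ 0) (D : ℕ)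
    (hD : 0 < D) (F1 : ℤ[X]) (hFD : F = expand ℤ D F1) (P : Finset ℕ)
    (hvan : ∀ q ∈ P, f ∣ expand ℤ q F) (κ : ℕ)
    (hfib : ∀ q ∈ P, ∀ x : QQ, aeval x f = 0 → ∀ S : Finset QQ,
      (∀ z ∈ S, (∃ y : QQ, aeval y f = 0 ∧ z = y ^ D) ∧ z ^ q = (x ^ D) ^ q) → S.card ≤ κ) :
    P.card * f.natDegree ≤ κ * F.natDegree := by
  classical
  set R := RR f with hR
  set RD := R.image (fun x => x ^ D) with hRD
  have hF1 : F1 ≠ 0 := by rintro rfl; rw [map_zero] at hFD; exact hF hFD
  have hcard1 : R.card ≤ D * RD.card := by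
    apply Finset.card_le_mul_card_image
    intro a _
    have hsub : R.filter (fun x => x ^ D = a) ⊆ (nthRoots D a).toFinset := by
      intro x hx
      rw [Finset.mem_filter] at hx
      rw [Multiset.mem_toFinset, mem_nthRoots hD]
      exact hx.2
    calc (R.filter (fun x => x ^ D = a)).card ≤ (nthRoots D a).toFinset.card :=
          Finset.card_le_card hsub
      _ ≤ Multiset.card (nthRoots D a) := Multiset.toFinset_card_le _
      _ ≤ D := card_nthRoots D a
  have hcard2 : ∀ q ∈ P, RD.card ≤ κ * (RD.image (fun z => z ^ q)).card := by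
    intro q hq
    apply Finset.card_le_mul_card_image
    intro a ha
    rw [Finset.mem_image] at ha
    obtain ⟨z, hz, rfl⟩ := ha
    rw [hRD, Finset.mem_image] at hz
    obtain ⟨x, hx, rfl⟩ := hz
    apply hfib q hq x ((mem_RR hf).mp hx)
    intro z hz
    rw [Finset.mem_filter, hRD, Finset.mem_image] at hz
    obtain ⟨⟨y, hy, rfl⟩, hz2⟩ := hz
    exact ⟨⟨y, (mem_RR hf).mp hy, rfl⟩, hz2⟩
  have hdisj : (P : Set ℕ).PairwiseDisjoint (fun q => RD.image (fun z => z ^ q)) := by
    intro q hq q' hq' hne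
    rw [Function.onFun, Finset.disjoint_left]
    intro a ha ha'
    rw [Finset.mem_image] at ha ha'
    obtain ⟨z, hz, rfl⟩ := ha
    obtain ⟨z', hz', hzz⟩ := ha'
    rw [hRD, Finset.mem_image] at hz hz'
    obtain ⟨x, hx, rfl⟩ := hz
    obtain ⟨y, hy, rfl⟩ := hz'
    rw [← pow_mul, ← pow_mul] at hzz
    have hx' := (mem_RR hf).mp hx
    have hy' := (mem_RR hf).mp hy
    have hne' : D * q ≠ D * q' := fun h => hne (Nat.eq_of_mul_eq_mul_left hD h)
    obtain ⟨m, hm, hm1⟩ := torsion_of_pow_eq f hf hirr x y hx' hy' (hx0 x hx') _ _ hne' hzz.symm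
    exact hnt x hx' m hm hm1
  set Z := P.biUnion (fun q => RD.image (fun z => z ^ q)) with hZ
  have hZcard : Z.card = ∑ q ∈ P, (RD.image (fun z => z ^ q)).card := by
    rw [hZ, Finset.card_biUnion]
    intro q hq q' hq' hne
    exact hdisj hq hq' hne
  have hZroots : Z ⊆ (F1.map (algebraMap ℤ QQ)).roots.toFinset := by
    intro a ha
    rw [hZ, Finset.mem_biUnion] at ha
    obtain ⟨q, hq, ha⟩ := ha
    rw [Finset.mem_image] at ha
    obtain ⟨z, hz, rfl⟩ := ha
    rw [hRD, Finset.mem_image] at hz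
    obtain ⟨x, hx, rfl⟩ := hz
    have hx' := (mem_RR hf).mp hx
    rw [Multiset.mem_toFinset, mem_roots]
    · rw [IsRoot.def, eval_map]
      obtain ⟨G, hG⟩ := hvan q hq
      have h1 : aeval x (expand ℤ q F) = 0 := by rw [hG, map_mul, hx', zero_mul]
      rw [expand_aeval, hFD, expand_aeval, ← pow_mul, mul_comm q D, pow_mul] at h1
      exact h1
    · exact (Polynomial.map_ne_zero_iff (algebraMap ℤ QQ).injective_int).mpr hF1
  have hZle : Z.card ≤ F1.natDegree := by
    calc Z.card ≤ (F1.map (algebraMap ℤ QQ)).roots.toFinset.card := Finset.card_le_card hZroots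
      _ ≤ Multiset.card (F1.map (algebraMap ℤ QQ)).roots := Multiset.toFinset_card_le _
      _ ≤ (F1.map (algebraMap ℤ QQ)).natDegree := card_roots' _
      _ ≤ F1.natDegree := natDegree_map_le
  have hsum : P.card * RD.card ≤ κ * Z.card := by
    rw [hZcard, Finset.mul_sum, ← smul_eq_mul, ← Finset.sum_const]
    exact Finset.sum_le_sum hcard2
  calc P.card * f.natDegree = P.card * R.card := by rw [hR, card_RR hf hirr]
    _ ≤ P.card * (D * RD.card) := Nat.mul_le_mul_left _ hcard1
    _ = D * (P.card * RD.card) := by ring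
    _ ≤ D * (κ * Z.card) := Nat.mul_le_mul_left _ hsum
    _ ≤ D * (κ * F1.natDegree) := Nat.mul_le_mul_left _ (Nat.mul_le_mul_left _ hZle)
    _ = κ * F.natDegree := by rw [hFD, natDegree_expand]; ring

lemma expand_contract_of_dvd {D : ℕ} (hD : 0 < D) (F : ℤ[X]) (h : ∀ s ∈ F.support, D ∣ s) :
    expand ℤ D (contract D F) = F := by
  ext n
  rw [coeff_expand hD]
  split_ifs with hn
  · rw [coeff_contract hD.ne', Nat.div_mul_cancel hn]
  · by_contra hne
    exact hn (h n (mem_support_iff.mpr (fun h0 => hne h0.symm)))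

end Pool.Agent.Lib.MP_7ab245_nt.Few
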