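import Mathlib
import Pool.Agent.Lib.MP_7ab245_nt.Few.Count
import Pool.Agent.Lib.MP_7ab245_nt.Few.Blocks

/-! There are few primes `q` for which the `q`-th powers of the roots collapse. -/

set_option autoImplicit false

open Polynomial
open scoped IntermediateField

namespace Pool.Agent.Lib.MP_7ab245_nt.Few

/-- A Galois automorphism acting on one of several roots of unity of prime order. -/
lemma exists_galois (B : Finset ℕ) (hB : ∀ q ∈ B, q.Prime) (ζ : ℕ → QQ)
    (hζ : ∀ q ∈ B, IsPrimitiveRoot (ζ q) q) (q₀ : ℕ) (hq₀ : q₀ ∈ B) (s : ℕ)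
    (hs : s.Coprime q₀) :
    ∃ σ : QQ ≃ₐ[ℚ] QQ, (∀ q ∈ B, q ≠ q₀ → σ (ζ q) = ζ q) ∧ σ (ζ q₀) = ζ q₀ ^ s := by
  classical
  set N := ∏ q ∈ B, q with hN
  have hNpos : 0 < N := Finset.prod_pos fun q hq => (hB q hq).pos
  have hcop : ∀ q ∈ B, ∀ q' ∈ B, q ≠ q' → q.Coprime q' := fun q hq q' hq' hne =>
    (Nat.coprime_primes (hB q hq) (hB q' hq')).mpr hne
  -- idempotents
  have hidem : ∀ q ∈ B, ∃ m : ℕ, m % q = 1 % q ∧ ∀ q' ∈ B, q' ≠ q → q' ∣ m := by
    intro q hq
    have h1 : (∏ q' ∈ B.erase q, q').Coprime q := by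
      apply Nat.Coprime.prod_left
      intro q' hq'
      rw [Finset.mem_erase] at hq'
      exact hcop q' hq'.2 q hq hq'.1
    obtain ⟨t, ht⟩ := Nat.exists_mul_mod_eq_one_of_coprime h1 (hB q hq).one_lt
    refine ⟨(∏ q' ∈ B.erase q, q') * t, ?_, ?_⟩
    · rw [ht.2, Nat.mod_eq_of_lt (hB q hq).one_lt]
    · intro q' hq' hne
      exact (Finset.dvd_prod_of_mem _ (Finset.mem_erase.mpr ⟨hne, hq'⟩)).mul_right _
  choose! m hm1 hm2 using hidem
  set η := ∏ q ∈ B, ζ q with hη
  have hpowζ : ∀ q ∈ B, ∀ a b : ℕ, a % q = b % q → ζ q ^ a = ζ q ^ b := by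
    intro q hq a b hab
    have h1 := (hζ q hq).pow_eq_one
    rw [← Nat.mod_add_div a q, ← Nat.mod_add_div b q, hab, pow_add, pow_add, pow_mul, pow_mul, h1,
      one_pow, one_pow]
  have hηm : ∀ q ∈ B, η ^ m q = ζ q := by
    intro q hq
    rw [hη, ← Finset.prod_pow, Finset.prod_eq_single q]
    · rw [hpowζ q hq (m q) 1 (hm1 q hq), pow_one]
    · intro q' hq' hne
      rw [hpowζ q' hq' (m q) 0 (by
        rw [Nat.zero_mod]
        exact Nat.mod_eq_zero_of_dvd (hm2 q hq q' hq' hne)), pow_zero]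
    · intro h; exact absurd hq h
  have hηN : η ^ N = 1 := by
    rw [hη, ← Finset.prod_pow]
    refine Finset.prod_eq_one fun q hq => ?_
    obtain ⟨c, hc⟩ := Finset.dvd_prod_of_mem (fun q => q) hq
    have : N = q * c := hc
    rw [this, pow_mul, (hζ q hq).pow_eq_one, one_pow]
  have hηprim : IsPrimitiveRoot η N := by
    refine ⟨hηN, fun l hl => ?_⟩
    rw [hN]
    apply Finset.prod_primes_dvd
    · intro q hq
      exact (hB q hq).prime
    · intro q hq
      have h1 : ζ q ^ l = 1 := by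
        rw [← hηm q hq, ← pow_mul, mul_comm, pow_mul, hl, one_pow]
      exact (hζ q hq).dvd_of_pow_eq_one l h1
  -- the exponent
  have hs1 : 1 ≤ s := by
    rcases Nat.eq_zero_or_pos s with h | h
    · exfalso
      rw [h, Nat.coprime_zero_left] at hs
      exact (hB q₀ hq₀).one_lt.ne' hs
    · exact h
  set a := 1 + (s - 1) * m q₀ with ha
  have ha1 : ∀ q ∈ B, q ≠ q₀ → a % q = 1 % q := by
    intro q hq hne
    obtain ⟨c, hc⟩ := hm2 q₀ hq₀ q hq hne
    rw [ha, hc]
    have : 1 + (s - 1) * (q * c) = 1 + q * ((s - 1) * c) := by ring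
    rw [this, Nat.add_mul_mod_self_left]
  have ha0 : a % q₀ = s % q₀ := by
    have h1 : m q₀ ≡ 1 [MOD q₀] := hm1 q₀ hq₀
    have h2 : a ≡ 1 + (s - 1) * 1 [MOD q₀] := Nat.ModEq.add_left 1 (Nat.ModEq.mul_left _ h1)
    have h3 : 1 + (s - 1) * 1 = s := by omega
    rw [h3] at h2
    exact h2
  have hacop : a.Coprime N := by
    rw [hN]
    apply Nat.Coprime.prod_right
    intro q hq
    rw [Nat.coprime_comm, (hB q hq).coprime_iff_not_dvd]
    intro hdvd
    have h1 := Nat.mod_eq_zero_of_dvd hdvd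
    by_cases hqq : q = q₀
    · subst hqq
      rw [ha0] at h1
      have h2 := Nat.dvd_of_mod_eq_zero h1
      have h3 := (hB q hq).coprime_iff_not_dvd.mp hs.symm
      exact h3 h2
    · rw [ha1 q hq hqq, Nat.mod_eq_of_lt (hB q hq).one_lt] at h1
      omega
  have hηa : IsPrimitiveRoot (η ^ a) N := hηprim.pow_of_coprime a hacop
  have hnorm : Normal ℚ QQ := normal_QQ
  have hconj : IsConjRoot ℚ (η ^ a) η := by
    rw [IsConjRoot]
    rw [← cyclotomic_eq_minpoly_rat hηa hNpos, ← cyclotomic_eq_minpoly_rat hηprim hNpos]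
  obtain ⟨σ, hσ⟩ := isConjRoot_iff_exists_algEquiv.mp hconj
  have hσζ : ∀ q ∈ B, σ (ζ q) = ζ q ^ a := by
    intro q hq
    rw [← hηm q hq, map_pow, hσ, ← pow_mul, ← pow_mul, mul_comm]
  refine ⟨σ, ?_, ?_⟩
  · intro q hq hne
    have h1 := hσζ q hq
    rw [hpowζ q hq a 1 (ha1 q hq hne), pow_one] at h1
    exact h1
  · have h1 := hσζ q₀ hq₀
    rw [hpowζ q₀ hq₀ a s ha0] at h1
    exact h1

/-- Minimality of the support: the terms with exponents divisible by `D * q` have a nonzero sum. -/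
lemma class_sum_ne_zero (f H : ℤ[X]) (hf : f.Monic) (hirr : Irreducible f)
    (hH0 : H.coeff 0 ≠ 0)
    (hmin : ∀ G : ℤ[X], G ≠ 0 → f ∣ G → G.support ⊆ H.support → H.support ⊆ G.support)
    (D : ℕ) (hD : 0 < D) (hDdef : D = H.support.gcd id)
    (q : ℕ) (hq : 2 ≤ q) (x : QQ) (hx : aeval x f = 0) :
    ∑ e ∈ (contract D H).support.filter (fun e => q ∣ e),
      (((contract D H).coeff e : ℤ) : QQ) * (x ^ D) ^ e ≠ 0 := by
  classical
  intro h1
  set H1 := contract D H with hH1
  set z0 := x ^ D with hz0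
  have hcoeff1 : ∀ n, H1.coeff n = H.coeff (n * D) := fun n => coeff_contract hD.ne' H n
  set G1 : ℤ[X] := ∑ e ∈ H1.support.filter (fun e => q ∣ e), monomial e (H1.coeff e) with hG1
  have hG1coeff : ∀ n, G1.coeff n = if q ∣ n then H1.coeff n else 0 := by
    intro n
    rw [hG1, finsetSum_coeff]
    simp only [coeff_monomial]
    rw [Finset.sum_ite_eq']
    by_cases hn : q ∣ n
    · rw [if_pos hn]
      split_ifs with h2
      · rfl
      · rw [Finset.mem_filter, not_and_or] at h2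
        rcases h2 with h3 | h3
        · exact (notMem_support_iff.mp h3).symm
        · exact absurd hn h3
    · rw [if_neg hn, if_neg]
      rw [Finset.mem_filter]
      exact fun h => hn h.2
  have hG1z : aeval z0 G1 = 0 := by
    rw [hG1, map_sum, ← h1]
    refine Finset.sum_congr rfl fun e _ => ?_
    rw [aeval_monomial]
    simp
  have hfG : f ∣ expand ℤ D G1 := by
    apply dvd_of_root' f hf hirr x hx
    rw [expand_aeval]; exact hG1z
  have hG1ne : G1 ≠ 0 := by
    intro h0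
    have h2 := hG1coeff 0
    rw [h0, coeff_zero, if_pos (dvd_zero q), hcoeff1, zero_mul] at h2
    exact hH0 h2.symm
  have hGsupp : ∀ n, n ∈ (expand ℤ D G1).support → n ∈ H.support ∧ D * q ∣ n := by
    intro n hn
    rw [mem_support_iff, coeff_expand hD] at hn
    split_ifs at hn with h2
    · rw [hG1coeff] at hn
      split_ifs at hn with h3
      · obtain ⟨m, rfl⟩ := h2
        rw [Nat.mul_div_cancel_left m hD] at hn h3
        refine ⟨?_, Nat.mul_dvd_mul_left D h3⟩
        rw [mem_support_iff, mul_comm, ← hcoeff1]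
        exact hn
      · exact absurd rfl hn
    · exact absurd rfl hn
  have hsub := hmin (expand ℤ D G1) ((expand_ne_zero hD).mpr hG1ne) hfG
    (fun n hn => (hGsupp n hn).1)
  have hdvd : D * q ∣ H.support.gcd id := Finset.dvd_gcd fun s hs => (hGsupp s (hsub hs)).2
  rw [← hDdef] at hdvd
  have h2 := Nat.le_of_dvd hD hdvd
  nlinarith

/-- `q` is bad if two different `D`-th powers of roots have the same `q`-th power -/
def BadPrime (f : ℤ[X]) (D q : ℕ) : Prop :=
  ∃ x y : QQ, aeval x f = 0 ∧ aeval y f = 0 ∧ x ^ D ≠ y ^ D ∧ (x ^ D) ^ q = (y ^ D) ^ q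

lemma aeval_galois (f : ℤ[X]) (σ : QQ →+* QQ) (x : QQ) (hx : aeval x f = 0) :
    aeval (σ x) f = 0 := by
  have h1 : aeval (σ x) f = σ (aeval x f) := by
    rw [aeval_def, aeval_def, hom_eval₂]
    congr 1
    exact RingHom.ext_int _ _
  rw [h1, hx, map_zero]

/-- all the roots of unity of prime order are powers of one element -/
lemma exists_gen (B : Finset ℕ) (hB : ∀ q ∈ B, q.Prime) (ζ : ℕ → QQ)
    (hζ : ∀ q ∈ B, ζ q ^ q = 1) :
    ∃ η : QQ, η ^ (∏ q ∈ B, q) = 1 ∧ ∀ q ∈ B, ∃ m : ℕ, ζ q = η ^ m := by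
  classical
  have hcop : ∀ q ∈ B, ∀ q' ∈ B, q ≠ q' → q.Coprime q' := fun q hq q' hq' hne =>
    (Nat.coprime_primes (hB q hq) (hB q' hq')).mpr hne
  have hidem : ∀ q ∈ B, ∃ m : ℕ, m % q = 1 % q ∧ ∀ q' ∈ B, q' ≠ q → q' ∣ m := by
    intro q hq
    have h1 : (∏ q' ∈ B.erase q, q').Coprime q := by
      apply Nat.Coprime.prod_left
      intro q' hq'
      rw [Finset.mem_erase] at hq'
      exact hcop q' hq'.2 q hq hq'.1
    obtain ⟨t, ht⟩ := Nat.exists_mul_mod_eq_one_of_coprime h1 (hB q hq).one_lt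
    refine ⟨(∏ q' ∈ B.erase q, q') * t, ?_, ?_⟩
    · rw [ht.2, Nat.mod_eq_of_lt (hB q hq).one_lt]
    · intro q' hq' hne
      exact (Finset.dvd_prod_of_mem _ (Finset.mem_erase.mpr ⟨hne, hq'⟩)).mul_right _
  choose! m hm1 hm2 using hidem
  have hpowζ : ∀ q ∈ B, ∀ a b : ℕ, a % q = b % q → ζ q ^ a = ζ q ^ b := by
    intro q hq a b hab
    rw [← Nat.mod_add_div a q, ← Nat.mod_add_div b q, hab, pow_add, pow_add, pow_mul, pow_mul,
      hζ q hq, one_pow, one_pow]
  refine ⟨∏ q ∈ B, ζ q, ?_, fun q hq => ⟨m q, ?_⟩⟩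
  · rw [← Finset.prod_pow]
    refine Finset.prod_eq_one fun q hq => ?_
    obtain ⟨c, hc⟩ := Finset.dvd_prod_of_mem (fun q => q) hq
    have : ∏ q ∈ B, q = q * c := hc
    rw [this, pow_mul, hζ q hq, one_pow]
  · rw [← Finset.prod_pow, Finset.prod_eq_single q]
    · rw [hpowζ q hq (m q) 1 (hm1 q hq), pow_one]
    · intro q' hq' hne
      rw [hpowζ q' hq' (m q) 0 (by
        rw [Nat.zero_mod]
        exact Nat.mod_eq_zero_of_dvd (hm2 q hq q' hq' hne)), pow_zero]
    · intro h; exact absurd hq h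

lemma deg_le (K : IntermediateField ℚ QQ) [FiniteDimensional ℚ K] (z : QQ) (p : K[X]) (hp : p ≠ 0)
    (hz : aeval z p = 0) : (minpoly ℚ z).natDegree ≤ p.natDegree * Module.finrank ℚ K := by
  have hint : IsIntegral K z := by
    rw [← isAlgebraic_iff_isIntegral]
    exact ⟨p, hp, hz⟩
  have h1 : (minpoly K z).natDegree ≤ p.natDegree := natDegree_le_of_dvd (minpoly.dvd K z hz) hp
  have h2 := IntermediateField.adjoin.finrank hint
  have h3 : FiniteDimensional K K⟮z⟯ := IntermediateField.adjoin.finiteDimensional hint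
  have h4 : FiniteDimensional ℚ K⟮z⟯ := FiniteDimensional.trans ℚ K K⟮z⟯
  have h5 := Module.finrank_mul_finrank ℚ K K⟮z⟯
  have h6 := minpoly.natDegree_le (A := ℚ) (IntermediateField.AdjoinSimple.gen K z)
  have h7 : minpoly ℚ (IntermediateField.AdjoinSimple.gen K z) = minpoly ℚ z := by
    rw [← minpoly.algebraMap_eq (B := K⟮z⟯) (B' := QQ) (algebraMap K⟮z⟯ QQ).injective]
    rfl
  rw [h7] at h6
  calc (minpoly ℚ z).natDegree ≤ Module.finrank ℚ K⟮z⟯ := h6
    _ = Module.finrank ℚ K * Module.finrank K K⟮z⟯ := h5.symm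
    _ ≤ Module.finrank ℚ K * p.natDegree := by rw [h2]; exact Nat.mul_le_mul_left _ h1
    _ = _ := by ring

lemma finrank_root (η : QQ) (N : ℕ) (hN : 0 < N) (hη : η ^ N = 1) :
    ∃ _ : FiniteDimensional ℚ ℚ⟮η⟯, Module.finrank ℚ ℚ⟮η⟯ ≤ N := by
  have h1 : aeval η (X ^ N - 1 : ℚ[X]) = 0 := by simp [hη]
  have h2 : (X ^ N - 1 : ℚ[X]) ≠ 0 := (monic_X_pow_sub_C (1 : ℚ) hN.ne').ne_zero
  have hint : IsIntegral ℚ η := by
    rw [← isAlgebraic_iff_isIntegral]
    exact ⟨_, h2, h1⟩
  refine ⟨IntermediateField.adjoin.finiteDimensional hint, ?_⟩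
  rw [IntermediateField.adjoin.finrank hint]
  refine (natDegree_le_of_dvd (minpoly.dvd ℚ η h1) h2).trans ?_
  have h3 := natDegree_X_pow_sub_C (R := ℚ) (n := N) (r := 1)
  rw [C_1] at h3
  rw [h3]

/-- A polynomial relation between the twists `H1 (ξ X)`, blockwise, for more twists than blocks. -/
lemma exists_relation (K : IntermediateField ℚ QQ) {ι : Type} [Fintype ι] (ξ : ι → K)
    (H1 : ℤ[X]) (S : Finset ℕ) (ℓ : ℕ) (hS : ∀ e ∈ H1.support, ∃ s ∈ S, s ≤ e ∧ e ≤ s + ℓ)
    (hcard : S.card < Fintype.card ι) :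
    ∃ a : ι → K[X], a ≠ 0 ∧ (∀ i, (a i).natDegree ≤ S.card * ℓ) ∧
      ∀ (τ : QQ →+* QQ) (w : QQ), ∑ i, ((a i).map (τ.comp (algebraMap K QQ))).eval w *
        aeval (τ (ξ i : QQ) * w) H1 = 0 := by
  classical
  set D0 := S.card * ℓ with hD0
  choose! blk hblk1 hblk2 hblk3 using hS
  let h : S → ι → K[X] := fun t i =>
    ∑ e ∈ H1.support.filter (fun e => blk e = t), C ((H1.coeff e : ℤ) * ξ i ^ e) * X ^ (e - t)
  let Pm : (Fin (D0 + 1) → K) →ₗ[K] K[X] :=
    { toFun := fun c => ∑ j, C (c j) * X ^ (j : ℕ)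
      map_add' := by
        intro c c'
        rw [← Finset.sum_add_distrib]
        refine Finset.sum_congr rfl fun j _ => ?_
        rw [Pi.add_apply, C_add]; ring
      map_smul' := by
        intro r c
        rw [RingHom.id_apply, Finset.smul_sum]
        refine Finset.sum_congr rfl fun j _ => ?_
        rw [Pi.smul_apply, smul_eq_mul, C_mul, smul_eq_C_mul]; ring }
  have hPm : ∀ c j, (Pm c).coeff (j : Fin (D0 + 1)) = c j := by
    intro c j
    simp only [Pm, LinearMap.coe_mk, AddHom.coe_mk, finsetSum_coeff, coeff_C_mul, coeff_X_pow]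
    rw [Finset.sum_eq_single j]
    · simp
    · intro b _ hb
      rw [if_neg]
      · simp
      · intro h; exact hb (Fin.ext h.symm)
    · intro h; exact absurd (Finset.mem_univ _) h
  have hPmdeg : ∀ c, (Pm c).natDegree ≤ D0 := by
    intro c
    simp only [Pm, LinearMap.coe_mk, AddHom.coe_mk]
    refine natDegree_sum_le_of_forall_le _ _ fun j _ => ?_
    refine (natDegree_C_mul_X_pow_le _ _).trans ?_
    have := j.2; omega
  let Φ : (ι → Fin (D0 + 1) → K) →ₗ[K] (S → Fin (D0 + ℓ + 1) → K) :=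
    { toFun := fun a t j => (∑ i, Pm (a i) * h t i).coeff j
      map_add' := by
        intro a b
        funext t j
        simp only [Pi.add_apply, map_add, add_mul, Finset.sum_add_distrib, coeff_add]
      map_smul' := by
        intro r a
        funext t j
        simp only [Pi.smul_apply, map_smul, smul_mul_assoc, ← Finset.smul_sum, coeff_smul,
          RingHom.id_apply] }
  have hlt : Module.finrank K (S → Fin (D0 + ℓ + 1) → K) <
      Module.finrank K (ι → Fin (D0 + 1) → K) := by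
    have h1 : Module.finrank K (S → Fin (D0 + ℓ + 1) → K) = S.card * (D0 + ℓ + 1) := by
      rw [Module.finrank_pi_fintype]
      simp
    have h2 : Module.finrank K (ι → Fin (D0 + 1) → K) = Fintype.card ι * (D0 + 1) := by
      rw [Module.finrank_pi_fintype]
      simp
    rw [h1, h2]
    calc S.card * (D0 + ℓ + 1) < (S.card + 1) * (D0 + 1) := by rw [hD0]; ring_nf; omega
      _ ≤ Fintype.card ι * (D0 + 1) := Nat.mul_le_mul_right _ hcard
  have hker := LinearMap.ker_ne_bot_of_finrank_lt (f := Φ) hlt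
  obtain ⟨a, ha, ha0⟩ := Submodule.exists_mem_ne_zero_of_ne_bot hker
  rw [LinearMap.mem_ker] at ha
  have hdegh : ∀ t i, (h t i).natDegree ≤ ℓ := by
    intro t i
    refine natDegree_sum_le_of_forall_le _ _ fun e he => ?_
    rw [Finset.mem_filter] at he
    refine (natDegree_C_mul_X_pow_le _ _).trans ?_
    have := hblk3 e he.1
    rw [he.2] at this
    omega
  have hzero : ∀ t, ∑ i, Pm (a i) * h t i = 0 := by
    intro t
    ext j
    rw [coeff_zero]
    by_cases hj : j < D0 + ℓ + 1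
    · have := congrFun (congrFun ha t) ⟨j, hj⟩
      exact congrArg Subtype.val this
    · rw [coeff_eq_zero_of_natDegree_lt]
      · refine lt_of_le_of_lt (natDegree_sum_le_of_forall_le (n := D0 + ℓ) _ _ fun i _ => ?_) (by omega)
        refine natDegree_mul_le.trans ?_
        have h1 := hPmdeg (a i)
        have h2 := hdegh t i
        omega
  refine ⟨fun i => Pm (a i), ?_, fun i => hPmdeg _, ?_⟩
  · intro h0
    apply ha0
    funext i j
    have h1 : Pm (a i) = 0 := congrFun h0 i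
    rw [← hPm (a i) j, h1, coeff_zero]; rfl
  · intro τ w
    have hH1 : ∀ i, aeval (τ (ξ i : QQ) * w) H1 =
        ∑ t : S, w ^ (t : ℕ) * ((h t i).map (τ.comp (algebraMap K QQ))).eval w := by
      intro i
      have h1 : ∀ t : S, w ^ (t : ℕ) * ((h t i).map (τ.comp (algebraMap K QQ))).eval w =
          ∑ e ∈ H1.support.filter (fun e => blk e = t),
            ((H1.coeff e : ℤ) : QQ) * (τ (ξ i : QQ) * w) ^ e := by
        intro t
        simp only [h]
        rw [Polynomial.map_sum, eval_finsetSum, Finset.mul_sum]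
        refine Finset.sum_congr rfl fun e he => ?_
        rw [Finset.mem_filter] at he
        have hte : (t : ℕ) ≤ e := by
          have := hblk2 e he.1
          rwa [he.2] at this
        rw [Polynomial.map_mul, map_C, Polynomial.map_pow, map_X, eval_mul, eval_C, eval_pow,
          eval_X, RingHom.comp_apply, map_mul, map_pow, map_intCast, map_mul, map_pow, map_intCast,
          mul_pow]
        have h2 : w ^ e = w ^ (t : ℕ) * w ^ (e - t) := by rw [← pow_add]; congr 1; omega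
        rw [h2]
        have h3 : (algebraMap K QQ) (ξ i) = (ξ i : QQ) := rfl
        rw [h3]
        ring
      rw [Finset.sum_congr rfl (fun t _ => h1 t)]
      rw [Finset.sum_coe_sort S (fun t => ∑ e ∈ H1.support.filter (fun e => blk e = t),
            ((H1.coeff e : ℤ) : QQ) * (τ (ξ i : QQ) * w) ^ e)]
      rw [Finset.sum_fiberwise_of_maps_to (fun e he => hblk1 e he)]
      rw [aeval_def, eval₂_eq_sum, Polynomial.sum_def]
      rfl
    simp only [hH1]
    simp only [Finset.mul_sum]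
    rw [Finset.sum_comm]
    refine Finset.sum_eq_zero fun t _ => ?_
    have h4 : (∑ i, Pm (a i) * h t i).map (τ.comp (algebraMap K QQ)) = 0 := by
      rw [hzero, Polynomial.map_zero]
    have h5 := congrArg (eval w) h4
    rw [Polynomial.map_sum, eval_finsetSum, eval_zero] at h5
    calc ∑ i, ((Pm (a i)).map (τ.comp (algebraMap K QQ))).eval w *
          (w ^ (t : ℕ) * ((h t i).map (τ.comp (algebraMap K QQ))).eval w)
        = w ^ (t : ℕ) * ∑ i, ((Pm (a i) * h t i).map (τ.comp (algebraMap K QQ))).eval w := by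
          rw [Finset.mul_sum]
          refine Finset.sum_congr rfl fun i _ => ?_
          rw [Polynomial.map_mul, eval_mul]; ring
      _ = 0 := by rw [h5, mul_zero]

end Pool.Agent.Lib.MP_7ab245_nt.Few
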