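import Mathlib
import Pool.Agent.Lib.MP_7ab245_nt.Few.Bad

/-! The number of bad primes. -/

set_option autoImplicit false

open Polynomial
open scoped IntermediateField

namespace Pool.Agent.Lib.MP_7ab245_nt.Few

/-- many bad primes force a large degree -/
lemma two_pow_le (z0 : QQ) (hz0 : z0 ≠ 0) (B : Finset ℕ) (hB : ∀ q ∈ B, q.Prime)
    (hconj : ∀ q ∈ B, ∃ ζ : QQ, IsPrimitiveRoot ζ q ∧ IsConjRoot ℚ (ζ * z0) z0)
    (hint : minpoly ℚ z0 ≠ 0) :
    2 ^ B.card ≤ (minpoly ℚ z0).natDegree := by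
  classical
  have hnorm : Normal ℚ QQ := normal_QQ
  have key : ∀ I : Finset ℕ, I ⊆ B → ∃ ξ : QQ, IsPrimitiveRoot ξ (∏ q ∈ I, q) ∧
      IsConjRoot ℚ (ξ * z0) z0 := by
    intro I
    induction I using Finset.induction_on with
    | empty => intro _; exact ⟨1, by simp, by rw [one_mul]⟩
    | insert q I hq ih =>
      intro hI
      obtain ⟨ξ, hξ, hξc⟩ := ih (fun x hx => hI (Finset.mem_insert_of_mem hx))
      have hqB : q ∈ B := hI (Finset.mem_insert_self _ _)
      obtain ⟨ζ, hζ, hζc⟩ := hconj q hqB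
      obtain ⟨σ, hσ⟩ := isConjRoot_iff_exists_algEquiv.mp hξc
      refine ⟨σ ζ * ξ, ?_, ?_⟩
      · rw [Finset.prod_insert hq]
        have h1 : IsPrimitiveRoot (σ ζ) q := hζ.map_of_injective σ.injective
        have h2 : orderOf (σ ζ) = q := IsPrimitiveRoot.iff_orderOf.mp h1
        have h3 : orderOf ξ = ∏ q ∈ I, q := IsPrimitiveRoot.iff_orderOf.mp hξ
        rw [IsPrimitiveRoot.iff_orderOf]
        rw [(Commute.all (σ ζ) ξ).orderOf_mul_eq_mul_orderOf_of_coprime, h2, h3]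
        rw [h2, h3]
        apply Nat.Coprime.prod_right
        intro q' hq'
        rw [Nat.coprime_primes (hB q hqB) (hB q' (hI (Finset.mem_insert_of_mem hq')))]
        rintro rfl
        exact hq hq'
      · have h1 : σ ζ * ξ * z0 = σ (ζ * z0) := by rw [map_mul, hσ, mul_assoc]
        rw [h1]
        have h2 : IsConjRoot ℚ (ζ * z0) (σ (ζ * z0)) := isConjRoot_of_algEquiv _ σ
        exact h2.symm.trans hζc
  choose! ξ hξ hξc using key
  have hcard : (B.powerset).card ≤ ((minpoly ℚ z0).aroots QQ).toFinset.card := by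
    apply Finset.card_le_card_of_injOn (fun I => ξ I * z0)
    · intro I hI
      rw [Finset.mem_coe, Finset.mem_powerset] at hI
      rw [Finset.mem_coe, Multiset.mem_toFinset, mem_aroots]
      refine ⟨hint, ?_⟩
      have h1 : minpoly ℚ (ξ I * z0) = minpoly ℚ z0 := hξc I hI
      rw [← h1]
      exact minpoly.aeval _ _
    · intro I hI J hJ hIJ
      rw [Finset.mem_coe, Finset.mem_powerset] at hI hJ
      have h1 : ξ I = ξ J := mul_right_cancel₀ hz0 hIJ
      have h2 : ∏ q ∈ I, q = ∏ q ∈ J, q := by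
        have h3 := IsPrimitiveRoot.iff_orderOf.mp (hξ I hI)
        have h4 := IsPrimitiveRoot.iff_orderOf.mp (hξ J hJ)
        rw [← h3, ← h4, h1]
      have h5 : ∀ (I J : Finset ℕ), I ⊆ B → J ⊆ B → ∏ q ∈ I, q = ∏ q ∈ J, q → I ⊆ J := by
        intro I J hI hJ h q hq
        have h6 : q ∣ ∏ q ∈ J, q := by rw [← h]; exact Finset.dvd_prod_of_mem (fun q => q) hq
        obtain ⟨q', hq', hdvd⟩ := ((hB q (hI hq)).prime.dvd_finsetProd_iff _).mp h6
        rwa [(Nat.prime_dvd_prime_iff_eq (hB q (hI hq)) (hB q' (hJ hq'))).mp hdvd]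
      exact Finset.Subset.antisymm (h5 I J hI hJ h2) (h5 J I hJ hI h2.symm)
  rw [Finset.card_powerset] at hcard
  refine hcard.trans ((Multiset.toFinset_card_le _).trans ?_)
  refine (card_roots' _).trans ?_
  exact natDegree_map_le

/-- The bound for the number of bad primes. -/
theorem card_bad_le (f H : ℤ[X]) (hf : f.Monic) (hirr : Irreducible f)
    (hx0 : ∀ x : QQ, aeval x f = 0 → x ≠ 0) (hfH : f ∣ H) (hH0 : H.coeff 0 ≠ 0)
    (hmin : ∀ G : ℤ[X], G ≠ 0 → f ∣ G → G.support ⊆ H.support → H.support ⊆ G.support)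
    (D : ℕ) (hD : 0 < D) (hDdef : D = H.support.gcd id)
    (S : Finset ℕ) (ℓ k R : ℕ) (hk : S.card ≤ k)
    (hS : ∀ e ∈ H.support, ∃ s ∈ S, s ≤ e ∧ e ≤ s + ℓ)
    (B : Finset ℕ) (hB : ∀ q ∈ B, q.Prime) (hBR : ∀ q ∈ B, q ≤ R)
    (hbad : ∀ q ∈ B, BadPrime f D q) :
    B.card < k + 1 ∨ 2 ^ B.card ≤ k * ℓ * R ^ k := by
  classical
  by_contra hcon
  rw [not_or] at hcon
  obtain ⟨hcon1, hcon2⟩ := hcon
  push Not at hcon1 hcon2
  have hDdvd : ∀ s ∈ H.support, D ∣ s := by
    intro s hs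
    rw [hDdef]
    exact Finset.gcd_dvd (f := id) hs
  set H1 := contract D H with hH1
  have hexp : expand ℤ D H1 = H := expand_contract_of_dvd hD H hDdvd
  have hcoeff1 : ∀ n, H1.coeff n = H.coeff (n * D) := fun n => coeff_contract hD.ne' H n
  have hH1ne : H1 ≠ 0 := by
    intro h0
    have := hcoeff1 0
    rw [h0, coeff_zero, zero_mul] at this
    exact hH0 this.symm
  -- blocks of `H1`
  set S1 := S.image (fun s => (s + (D - 1)) / D) with hS1
  have hS1card : S1.card ≤ k := Finset.card_image_le.trans hk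
  have hS1blk : ∀ e ∈ H1.support, ∃ s ∈ S1, s ≤ e ∧ e ≤ s + ℓ := by
    intro e he
    rw [mem_support_iff, hcoeff1, ← mem_support_iff] at he
    obtain ⟨s, hs, h1, h2⟩ := hS _ he
    refine ⟨(s + (D - 1)) / D, Finset.mem_image_of_mem _ hs, ?_, ?_⟩
    · have h3 : s + (D - 1) < D * (e + 1) := by
        have : D * (e + 1) = e * D + D := by ring
        omega
      have := Nat.div_lt_of_lt_mul h3
      omega
    · have h3 : s ≤ D * ((s + (D - 1)) / D) := by
        have h4 := Nat.div_add_mod (s + (D - 1)) D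
        have h5 := Nat.mod_lt (s + (D - 1)) hD
        omega
      have h6 : D * e ≤ D * ((s + (D - 1)) / D + ℓ) := by
        calc D * e = e * D := by ring
          _ ≤ s + ℓ := h2
          _ ≤ D * ((s + (D - 1)) / D) + D * ℓ := by nlinarith
          _ = _ := by ring
      exact Nat.le_of_mul_le_mul_left h6 hD
  -- a fixed root
  have hBne : B.Nonempty := by
    rw [← Finset.card_pos]; omega
  obtain ⟨q1, hq1⟩ := hBne
  obtain ⟨x₀, _, hx₀, _, _, _⟩ := hbad q1 hq1
  set z0 := x₀ ^ D with hz0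
  have hz00 : z0 ≠ 0 := pow_ne_zero _ (hx0 x₀ hx₀)
  have hH1z : ∀ y : QQ, aeval y f = 0 → aeval (y ^ D) H1 = 0 := by
    intro y hy
    rw [← expand_aeval, hexp]
    obtain ⟨c, hc⟩ := hfH
    rw [hc, map_mul, hy, zero_mul]
  have hnorm : Normal ℚ QQ := normal_QQ
  have hminp : ∀ z : QQ, aeval z f = 0 → minpoly ℚ z = f.map (algebraMap ℤ ℚ) := by
    intro z hz
    have h1 := eq_minpoly_of_root' f hf hirr z hz
    have hint : IsIntegral ℤ z := ⟨f, hf, hz⟩
    rw [h1]
    exact minpoly.isIntegrallyClosed_eq_field_fractions' ℚ hint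
  have hroot : ∀ q ∈ B, ∃ ζ : QQ, ζ ^ q = 1 ∧ ζ ≠ 1 ∧ aeval (ζ * z0) H1 = 0 ∧
      IsConjRoot ℚ (ζ * z0) z0 := by
    intro q hq
    obtain ⟨x, y, hx, hy, hne, heq⟩ := hbad q hq
    have hconj : IsConjRoot ℚ x₀ x := by rw [IsConjRoot, hminp x hx, hminp x₀ hx₀]
    obtain ⟨σ, hσ⟩ := isConjRoot_iff_exists_algEquiv.mp hconj
    have hσy : aeval (σ y) f = 0 := aeval_galois f (σ : QQ →ₐ[ℚ] QQ).toRingHom y hy
    have hval : (σ y) ^ D * z0⁻¹ * z0 = (σ y) ^ D := by
      rw [mul_assoc, inv_mul_cancel₀ hz00, mul_one]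
    refine ⟨(σ y) ^ D * z0⁻¹, ?_, ?_, ?_, ?_⟩
    · rw [mul_pow, inv_pow, hz0, ← hσ, ← map_pow, ← map_pow, ← heq, ← map_pow, ← map_pow]
      have h1 : σ ((x ^ D) ^ q) ≠ 0 := by
        rw [_root_.map_ne_zero]
        exact pow_ne_zero _ (pow_ne_zero _ (hx0 x hx))
      exact mul_inv_cancel₀ h1
    · intro h1
      have h2 : (σ y) ^ D = z0 := by
        rw [h1, one_mul] at hval
        exact hval.symm
      rw [hz0, ← hσ, ← map_pow, ← map_pow] at h2
      exact hne (σ.injective h2).symm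
    · rw [hval]
      exact hH1z _ hσy
    · rw [hval]
      have hc2 : IsConjRoot ℚ (σ y) x₀ := by rw [IsConjRoot, hminp _ hσy, hminp x₀ hx₀]
      obtain ⟨τ, hτ⟩ := isConjRoot_iff_exists_algEquiv.mp hc2
      have h1 : (σ y) ^ D = τ z0 := by rw [hz0, map_pow, hτ]
      rw [h1]
      exact (isConjRoot_of_algEquiv z0 τ).symm
  choose! ζ hζ1 hζ2 hζ3 hζ4 using hroot
  have hζprim : ∀ q ∈ B, IsPrimitiveRoot (ζ q) q := by
    intro q hq
    have h1 : orderOf (ζ q) = q := orderOf_eq_prime (hζ1 q hq) (hζ2 q hq) (hp := ⟨hB q hq⟩)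
    have h2 := IsPrimitiveRoot.orderOf (ζ q)
    rwa [h1] at h2
  have hz0int : IsIntegral ℚ z0 := (alg_QQ.isAlgebraic z0).isIntegral
  have h2pow := two_pow_le z0 hz00 B hB (fun q hq => ⟨ζ q, hζprim q hq, hζ4 q hq⟩)
    (minpoly.ne_zero hz0int)
  -- a subset with `k` elements
  obtain ⟨B0, hB0B, hB0card⟩ := Finset.exists_subset_card_eq (show k ≤ B.card by omega)
  have hB0 : ∀ q ∈ B0, q.Prime := fun q hq => hB q (hB0B hq)
  have hζ0 : ∀ q ∈ B0, IsPrimitiveRoot (ζ q) q := fun q hq => hζprim q (hB0B hq)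
  obtain ⟨η, hη1, hη2⟩ := exists_gen B0 hB0 ζ (fun q hq => hζ1 q (hB0B hq))
  set N := ∏ q ∈ B0, q with hN
  have hNpos : 0 < N := Finset.prod_pos fun q hq => (hB0 q hq).pos
  have hNle : N ≤ R ^ k := by
    rw [hN, ← hB0card]
    exact Finset.prod_le_pow_card _ _ _ fun q hq => hBR q (hB0B hq)
  obtain ⟨hfin, hfinle⟩ := finrank_root η N hNpos hη1
  set K := ℚ⟮η⟯ with hK
  have hζK : ∀ q ∈ B0, ζ q ∈ K := by
    intro q hq
    obtain ⟨m, hm⟩ := hη2 q hq
    rw [hm]
    exact pow_mem (IntermediateField.mem_adjoin_simple_self ℚ η) m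
  let ξ : Option B0 → K := fun o => match o with
    | none => 1
    | some q => ⟨ζ q, hζK q q.2⟩
  obtain ⟨a, ha0, hadeg, hrel⟩ := exists_relation K ξ H1 S1 ℓ hS1blk (by
    rw [Fintype.card_option, Fintype.card_coe, hB0card]; omega)
  -- some coefficient with a nontrivial index is nonzero
  have hex : ∃ q₀ : B0, a (some q₀) ≠ 0 := by
    by_contra hall
    push Not at hall
    have h1 : a none ≠ 0 := by
      intro h1
      apply ha0
      funext o
      cases o with
      | none => exact h1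
      | some q => exact hall q
    have h2 : (a none).map (algebraMap K QQ) * H1.map (algebraMap ℤ QQ) = 0 := by
      apply Polynomial.funext
      intro w
      have h3 := hrel (RingHom.id QQ) w
      rw [Fintype.sum_option] at h3
      have h4 : ∑ q : B0, ((a (some q)).map ((RingHom.id QQ).comp (algebraMap K QQ))).eval w *
          aeval ((RingHom.id QQ) (ξ (some q) : QQ) * w) H1 = 0 := by
        refine Finset.sum_eq_zero fun q _ => ?_
        rw [hall q, Polynomial.map_zero, eval_zero, zero_mul]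
      rw [h4, add_zero] at h3
      rw [eval_mul, eval_zero, ← h3, RingHom.id_comp]
      congr 1
      have h5 : ((ξ none : K) : QQ) = 1 := rfl
      rw [h5, map_one, one_mul, eval_map]
      rfl
    rcases mul_eq_zero.mp h2 with h3 | h3
    · exact h1 ((Polynomial.map_eq_zero _).mp h3)
    · exact hH1ne ((Polynomial.map_eq_zero_iff (algebraMap ℤ QQ).injective_int).mp h3)
  obtain ⟨q₀, hq₀⟩ := hex
  have hq₀B : (q₀ : ℕ) ∈ B := hB0B q₀.2
  have hq₀p : (q₀ : ℕ).Prime := hB q₀ hq₀B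
  -- all Galois twists are zeros
  have hvan : ∀ s : ℕ, s.Coprime (q₀ : ℕ) → aeval (ζ q₀ ^ s * z0) H1 = 0 := by
    intro s hs
    obtain ⟨σ, hσ1, hσ2⟩ := exists_galois B0 hB0 ζ hζ0 q₀ q₀.2 s hs
    have h1 := hrel (σ : QQ →ₐ[ℚ] QQ).toRingHom z0
    rw [Fintype.sum_eq_single (some q₀)] at h1
    · have h2 : (σ : QQ →ₐ[ℚ] QQ).toRingHom ((ξ (some q₀) : K) : QQ) = ζ q₀ ^ s := hσ2
      rw [h2] at h1
      rcases mul_eq_zero.mp h1 with h3 | h3
      · exfalso
        -- degree argument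
        have h4 : aeval (σ.symm z0) (a (some q₀)) = 0 := by
          apply σ.injective
          rw [map_zero]
          have h5 := hom_eval₂ (a (some q₀)) (algebraMap K QQ) (σ : QQ →ₐ[ℚ] QQ).toRingHom
            (σ.symm z0)
          have h6 : (σ : QQ →ₐ[ℚ] QQ).toRingHom (σ.symm z0) = z0 := σ.apply_symm_apply z0
          rw [h6] at h5
          rw [eval_map] at h3
          exact h5.trans h3
        have h5 := deg_le K (σ.symm z0) (a (some q₀)) hq₀ h4
        rw [minpoly.algEquiv_eq] at h5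
        have h6 : (a (some q₀)).natDegree * Module.finrank ℚ K ≤ k * ℓ * R ^ k := by
          calc (a (some q₀)).natDegree * Module.finrank ℚ K ≤ (S1.card * ℓ) * N :=
                Nat.mul_le_mul (hadeg _) hfinle
            _ ≤ (k * ℓ) * R ^ k := Nat.mul_le_mul (Nat.mul_le_mul_right _ hS1card) hNle
        omega
      · exact h3
    · intro o ho
      cases o with
      | none =>
        have h5 : ((ξ none : K) : QQ) = 1 := rfl
        rw [h5, map_one, one_mul, hH1z x₀ hx₀, mul_zero]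
      | some q =>
        have hne : (q : ℕ) ≠ q₀ := by
          intro h
          exact ho (by rw [Subtype.ext h])
        have h5 : (σ : QQ →ₐ[ℚ] QQ).toRingHom ((ξ (some q) : K) : QQ) = ζ q := hσ1 q q.2 hne
        rw [h5, hζ3 q (hB0B q.2), mul_zero]
  -- the class sum
  have hev : ∀ w : QQ, aeval (w * z0) H1 =
      ∑ e ∈ H1.support, (((H1.coeff e : ℤ) : QQ) * z0 ^ e) * w ^ e := by
    intro w
    rw [aeval_def, eval₂_eq_sum, Polynomial.sum_def]
    refine Finset.sum_congr rfl fun e _ => ?_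
    rw [mul_pow]
    have : (algebraMap ℤ QQ) (H1.coeff e) = ((H1.coeff e : ℤ) : QQ) := rfl
    rw [this]; ring
  have hall : ∀ s ∈ Finset.range (q₀ : ℕ),
      ∑ e ∈ H1.support, (((H1.coeff e : ℤ) : QQ) * z0 ^ e) * (ζ q₀ ^ s) ^ e = 0 := by
    intro s hs
    rw [← hev]
    rcases Nat.eq_zero_or_pos s with h | h
    · subst h
      rw [pow_zero, one_mul]
      exact hH1z x₀ hx₀
    · apply hvan
      rw [Nat.coprime_comm, hq₀p.coprime_iff_not_dvd]
      intro hd
      rw [Finset.mem_range] at hs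
      exact absurd (Nat.le_of_dvd h hd) (by omega)
  have hsum := Finset.sum_eq_zero hall
  rw [Finset.sum_comm] at hsum
  have hgeom : ∀ e ∈ H1.support, ∑ s ∈ Finset.range (q₀ : ℕ),
      (((H1.coeff e : ℤ) : QQ) * z0 ^ e) * (ζ q₀ ^ s) ^ e =
      if (q₀ : ℕ) ∣ e then (q₀ : QQ) * (((H1.coeff e : ℤ) : QQ) * z0 ^ e) else 0 := by
    intro e _
    rw [← Finset.mul_sum]
    split_ifs with hd
    · obtain ⟨c, hc⟩ := hd
      have h5 : ∀ s ∈ Finset.range (q₀ : ℕ), (ζ q₀ ^ s) ^ e = 1 := by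
        intro s _
        rw [hc, ← pow_mul, mul_comm s, mul_assoc, pow_mul, hζ1 q₀ hq₀B, one_pow]
      rw [Finset.sum_congr rfl h5]
      simp [mul_comm]
    · have h5 : ∑ s ∈ Finset.range (q₀ : ℕ), (ζ q₀ ^ s) ^ e =
          ∑ s ∈ Finset.range (q₀ : ℕ), (ζ q₀ ^ e) ^ s := by
        refine Finset.sum_congr rfl fun s _ => ?_
        rw [← pow_mul, ← pow_mul, mul_comm]
      have hcop : e.Coprime (q₀ : ℕ) := by
        rw [Nat.coprime_comm]
        exact (hq₀p.coprime_iff_not_dvd).mpr hd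
      rw [h5, ((hζprim q₀ hq₀B).pow_of_coprime _ hcop).geom_sum_eq_zero hq₀p.one_lt, mul_zero]
  rw [Finset.sum_congr rfl hgeom] at hsum
  have hcl := class_sum_ne_zero f H hf hirr hH0 hmin D hD hDdef q₀ hq₀p.two_le x₀ hx₀
  apply hcl
  have h6 : (q₀ : QQ) * ∑ e ∈ H1.support.filter (fun e => (q₀ : ℕ) ∣ e),
      ((H1.coeff e : ℤ) : QQ) * z0 ^ e = 0 := by
    rw [← hsum, Finset.mul_sum, Finset.sum_filter]
  rcases mul_eq_zero.mp h6 with h7 | h7
  · exfalso
    have : ((q₀ : ℕ) : ℕ) = 0 := by exact_mod_cast h7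
    exact hq₀p.ne_zero this
  · exact h7

end Pool.Agent.Lib.MP_7ab245_nt.Few
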