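import Mathlib
import Pool.Agent.Lib.MP_7ab245_nt.Few.AuxF
import Pool.Agent.Lib.MP_7ab245_nt.Few.Homs

/-! Derivations attached to additive maps on sumsets. -/

set_option autoImplicit false

open Polynomial
open scoped Pointwise

namespace Pool.Agent.Lib.MP_7ab245_nt.Few

/-- multiply the coefficient of `X ^ s` by `w s` -/
noncomputable def Dw (w : ℕ → ℤ) (F : ℤ[X]) : ℤ[X] :=
  ∑ s ∈ F.support, monomial s (w s * F.coeff s)

lemma coeff_Dw (w : ℕ → ℤ) (F : ℤ[X]) (n : ℕ) : (Dw w F).coeff n = w n * F.coeff n := by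
  rw [Dw, finsetSum_coeff]
  simp only [coeff_monomial]
  rw [Finset.sum_ite_eq']
  split_ifs with h
  · rfl
  · rw [notMem_support_iff.mp h, mul_zero]

lemma Dw_add (w : ℕ → ℤ) (F G : ℤ[X]) : Dw w (F + G) = Dw w F + Dw w G := by
  ext n; simp only [coeff_Dw, coeff_add]; ring

lemma Dw_C_mul (w : ℕ → ℤ) (c : ℤ) (F : ℤ[X]) : Dw w (C c * F) = C c * Dw w F := by
  ext n; simp only [coeff_Dw, coeff_C_mul]; ring

lemma Dw_Dw (w z : ℕ → ℤ) (F : ℤ[X]) : Dw z (Dw w F) = Dw (z * w) F := by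
  ext n; simp only [coeff_Dw, Pi.mul_apply]; ring

lemma Dw_one (F : ℤ[X]) : Dw 1 F = F := by
  ext n; simp [coeff_Dw]

lemma support_Dw (w : ℕ → ℤ) (F : ℤ[X]) : (Dw w F).support ⊆ F.support := by
  intro n hn
  rw [mem_support_iff, coeff_Dw] at hn
  exact mem_support_iff.mpr (right_ne_zero_of_mul hn)

lemma natDegree_Dw_le (w : ℕ → ℤ) (F : ℤ[X]) : (Dw w F).natDegree ≤ F.natDegree := by
  rw [natDegree_le_iff_coeff_eq_zero]
  intro N hN
  rw [coeff_Dw, coeff_eq_zero_of_natDegree_lt hN, mul_zero]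

lemma l1_eq_of_subset {F : ℤ[X]} {S : Finset ℕ} (h : F.support ⊆ S) :
    l1 F = ∑ i ∈ S, |(F.coeff i : ℝ)| := by
  unfold l1
  apply Finset.sum_subset h
  intro i _ hi
  rw [notMem_support_iff.mp hi]; simp

lemma l1_Dw_le (w : ℕ → ℤ) (F : ℤ[X]) (A : ℕ) (hw : ∀ s ∈ F.support, |w s| ≤ A) :
    l1 (Dw w F) ≤ A * l1 F := by
  rw [l1_eq_of_subset (support_Dw w F), l1, Finset.mul_sum]
  refine Finset.sum_le_sum fun i hi => ?_
  rw [coeff_Dw]
  push_cast
  rw [abs_mul]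
  have : ((|w i| : ℤ) : ℝ) ≤ ((A : ℤ) : ℝ) := by exact_mod_cast hw i hi
  push_cast at this
  gcongr

lemma Dw_mul {E : Finset ℕ} {L : ℕ} {w : ℕ → ℤ} (hw : IsHom E L w) {a b : ℕ} (hab : a + b ≤ L)
    {f g : ℤ[X]} (hf : f.support ⊆ SS E a) (hg : g.support ⊆ SS E b) :
    Dw w (f * g) = Dw w f * g + f * Dw w g := by
  ext n
  rw [coeff_Dw, coeff_add, coeff_mul, coeff_mul, coeff_mul, Finset.mul_sum,
    ← Finset.sum_add_distrib]
  refine Finset.sum_congr rfl fun x hx => ?_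
  rw [Finset.HasAntidiagonal.mem_antidiagonal] at hx
  rw [coeff_Dw, coeff_Dw]
  by_cases h1 : f.coeff x.1 = 0
  · rw [h1]; ring
  by_cases h2 : g.coeff x.2 = 0
  · rw [h2]; ring
  have h3 := hw.add_of (hf (mem_support_iff.mpr h1)) b hab x.2 (hg (mem_support_iff.mpr h2))
  rw [hx] at h3
  rw [h3]; ring

lemma Dw_pow_mul {E : Finset ℕ} {L : ℕ} {w : ℕ → ℤ} (hw : IsHom E L w) {h : ℤ[X]}
    (hh : h.support ⊆ E) : ∀ m b : ℕ, m + 1 + b ≤ L → ∀ Q : ℤ[X], Q.support ⊆ SS E b →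
      ∃ Q' : ℤ[X], Q'.support ⊆ SS E (b + 1) ∧ Dw w (h ^ (m + 1) * Q) = h ^ m * Q' := by
  have hh1 : h.support ⊆ SS E 1 := by
    rw [SS, SS, Finset.singleton_zero, zero_add]; exact hh
  intro m
  induction m with
  | zero =>
    intro b hb Q hQ
    refine ⟨Dw w (h * Q), ?_, by rw [zero_add, pow_one, pow_zero, one_mul]⟩
    refine (support_Dw _ _).trans ?_
    rw [add_comm b 1]
    exact support_mul_SS hh1 hQ
  | succ m ih =>
    intro b hb Q hQ
    obtain ⟨Q'', hQ''s, hQ''⟩ := ih b (by omega) Q hQ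
    refine ⟨Dw w h * Q + Q'', ?_, ?_⟩
    · intro n hn
      have := support_add hn
      rw [Finset.mem_union] at this
      rcases this with h1 | h1
      · rw [add_comm b 1]
        exact support_mul_SS ((support_Dw _ _).trans hh1) hQ h1
      · exact hQ''s h1
    · have h1 : h ^ (m + 1 + 1) * Q = h * (h ^ (m + 1) * Q) := by ring
      rw [h1, Dw_mul hw (a := 1) (b := m + 1 + b) (by omega) hh1
        (support_mul_SS (support_pow_SS hh (m + 1)) hQ), hQ'']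
      ring

/-- membership in the ideal `(M, h ^ m)` with controlled supports -/
def Rep (E : Finset ℕ) (L : ℕ) (M : ℤ) (h : ℤ[X]) (m : ℕ) (G : ℤ[X]) : Prop :=
  ∃ A Q : ℤ[X], A.support ⊆ SS E L ∧ Q.support ⊆ SS E (L - m) ∧ G = C M * A + h ^ m * Q

lemma Rep.Dw {E : Finset ℕ} {L : ℕ} {M : ℤ} {h : ℤ[X]} (hh : h.support ⊆ E) {w : ℕ → ℤ}
    (hw : IsHom E L w) {m : ℕ} (hm : m + 1 ≤ L) {G : ℤ[X]} (hG : Rep E L M h (m + 1) G) :
    Rep E L M h m (Dw w G) := by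
  obtain ⟨A, Q, hA, hQ, hGe⟩ := hG
  obtain ⟨Q', hQ's, hQ'⟩ := Dw_pow_mul hw hh m (L - (m + 1)) (by omega) Q hQ
  refine ⟨Few.Dw w A, Q', (support_Dw _ _).trans hA, ?_, ?_⟩
  · have : L - (m + 1) + 1 = L - m := by omega
    rwa [this] at hQ's
  · rw [hGe, Dw_add, Dw_C_mul, hQ']

/-- iterated version -/
lemma Rep.prod {E : Finset ℕ} {L : ℕ} {M : ℤ} {h : ℤ[X]} (hh : h.support ⊆ E) (A0 : ℕ)
    {V : ℕ} (hV : V ≤ L) {F : ℤ[X]} (hFs : F.support ⊆ SS E L) (hF : Rep E L M h V F) :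
    ∀ l : List (ℕ → ℤ), (∀ z ∈ l, IsHom E L z ∧ ∀ s ∈ SS E L, |z s| ≤ A0) → l.length ≤ V →
      Rep E L M h (V - l.length) (Few.Dw l.prod F) ∧ l1 (Few.Dw l.prod F) ≤ (A0 : ℝ) ^ l.length * l1 F ∧
        (Few.Dw l.prod F).support ⊆ SS E L := by
  intro l
  induction l with
  | nil =>
    intro _ _
    simp only [List.prod_nil, List.length_nil, Nat.sub_zero, pow_zero, one_mul]
    rw [Dw_one]
    exact ⟨hF, le_rfl, hFs⟩
  | cons z l ih =>
    intro hz hlen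
    rw [List.length_cons] at hlen
    obtain ⟨h1, h2, h3⟩ := ih (fun z' hz' => hz z' (List.mem_cons_of_mem z hz')) (by omega)
    obtain ⟨hzh, hzb⟩ := hz z List.mem_cons_self
    have hprod : Few.Dw (z :: l).prod F = Few.Dw z (Few.Dw l.prod F) := by
      rw [Dw_Dw, List.prod_cons]
    rw [hprod, List.length_cons]
    refine ⟨?_, ?_, (support_Dw _ _).trans h3⟩
    · have h4 : V - l.length = (V - (l.length + 1)) + 1 := by omega
      rw [h4] at h1
      exact Rep.Dw hh hzh (by omega) h1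
    · refine (l1_Dw_le z _ A0 fun s hs => hzb s (h3 hs)).trans ?_
      rw [pow_succ]
      calc (A0 : ℝ) * l1 (Few.Dw l.prod F) ≤ A0 * ((A0 : ℝ) ^ l.length * l1 F) := by gcongr
        _ = _ := by ring

end Pool.Agent.Lib.MP_7ab245_nt.Few
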