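import Mathlib
import Pool.Agent.Lib.MP_7ab245_nt.Few.Deriv
import Pool.Agent.Lib.MP_7ab245_nt.Dob

/-! From vanishing of sparse derivatives to divisibility by a power. -/

set_option autoImplicit false

open Polynomial
open scoped Pointwise

namespace Pool.Agent.Lib.MP_7ab245_nt.Few

lemma aeval_eq_sum_of_subset {F : ℤ[X]} {S : Finset ℕ} (h : F.support ⊆ S) (α : ℂ) :
    aeval α F = ∑ s ∈ S, (F.coeff s : ℂ) * α ^ s := by
  rw [aeval_eq_sum_range]
  have h1 : ∑ s ∈ F.support, (F.coeff s : ℂ) * α ^ s = ∑ s ∈ S, (F.coeff s : ℂ) * α ^ s := by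
    apply Finset.sum_subset h
    intro i _ hi
    rw [notMem_support_iff.mp hi]; simp
  rw [← h1]
  symm
  have h2 : F.support ⊆ Finset.range (F.natDegree + 1) := by
    intro s hs
    rw [Finset.mem_range]
    have := le_natDegree_of_mem_supp s hs
    omega
  rw [Finset.sum_subset h2]
  · refine Finset.sum_congr rfl fun i _ => ?_
    simp
  · intro i _ hi
    rw [notMem_support_iff.mp hi]; simp

/-- passage from small additive maps to the inclusion -/
lemma vanish_of_small (E : Finset ℕ) (L A : ℕ)
    (hincl : (fun s : SS E L => ((s : ℕ) : ℝ)) ∈ Submodule.span ℝ (smallHoms E L A))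
    (F : ℤ[X]) (hF : F.support ⊆ SS E L) (α : ℂ) (T : ℕ)
    (hvan : ∀ l : List (ℕ → ℤ), (∀ z ∈ l, IsHom E L z ∧
      ∀ s ∈ SS E L, |z s| ≤ ((A : ℕ) : ℤ)) → l.length < T →
      aeval α (Dw l.prod F) = 0) :
    ∀ t < T, aeval α (Dw (fun n => (n : ℤ) ^ t) F) = 0 := by
  classical
  intro t ht
  let Φ : (SS E L → ℝ) →ₗ[ℝ] ℂ :=
    { toFun := fun u => ∑ s : SS E L, (u s : ℂ) * ((F.coeff s : ℂ) * α ^ (s : ℕ))
      map_add' := by
        intro u v
        rw [← Finset.sum_add_distrib]
        refine Finset.sum_congr rfl fun s _ => ?_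
        simp only [Pi.add_apply]; push_cast; ring
      map_smul' := by
        intro c u
        rw [RingHom.id_apply, Complex.real_smul, Finset.mul_sum]
        refine Finset.sum_congr rfl fun s _ => ?_
        simp only [Pi.smul_apply, smul_eq_mul]; push_cast; ring }
  have hΦ : ∀ (u : SS E L → ℝ) (w : ℕ → ℤ), (∀ s : SS E L, u s = w s) →
      Φ u = aeval α (Dw w F) := by
    intro u w huw
    rw [aeval_eq_sum_of_subset ((support_Dw w F).trans hF), ← Finset.sum_coe_sort]
    refine Finset.sum_congr rfl fun s _ => ?_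
    rw [huw, coeff_Dw]; push_cast; ring
  have hpow := Submodule.pow_mem_pow _ hincl t
  rw [Submodule.span_pow] at hpow
  have hzero : ∀ u ∈ (smallHoms E L A) ^ t, Φ u = 0 := by
    intro u hu
    rw [Set.mem_pow] at hu
    obtain ⟨g, rfl⟩ := hu
    choose z hz1 hz2 hz3 using fun i : Fin t => (g i).2
    rw [hΦ _ (List.ofFn z).prod]
    · apply hvan
      · intro z' hz'
        rw [List.mem_ofFn] at hz'
        obtain ⟨i, rfl⟩ := hz'
        exact ⟨hz1 i, fun s hs => hz2 i s hs⟩
      · rw [List.length_ofFn]; exact ht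
    · intro s
      rw [List.prod_ofFn, List.prod_ofFn, Finset.prod_apply, Finset.prod_apply]
      push_cast
      exact Finset.prod_congr rfl fun i _ => hz3 i s
  have hker : Submodule.span ℝ ((smallHoms E L A) ^ t) ≤ LinearMap.ker Φ := by
    rw [Submodule.span_le]
    intro u hu
    exact hzero u hu
  have h1 : Φ ((fun s : SS E L => ((s : ℕ) : ℝ)) ^ t) = 0 := hker hpow
  rw [hΦ _ (fun n => (n : ℤ) ^ t)] at h1
  · exact h1
  · intro s
    simp

/-- vanishing of Euler derivatives gives divisibility by a power -/
theorem pow_dvd_of_vanish (f F : ℤ[X]) (hf : f.Monic) (hirr : Irreducible f) (α : ℂ)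
    (hroot : aeval α f = 0) (hα : α ≠ 0) (T : ℕ) (hF : F ≠ 0)
    (hvan : ∀ t < T, aeval α (Dw (fun n => (n : ℤ) ^ t) F) = 0) : f ^ T ∣ F := by
  classical
  set φ := Int.castRingHom ℂ with hφ
  have hinj : Function.Injective φ := φ.injective_int
  have hFne : F.map φ ≠ 0 := (Polynomial.map_ne_zero_iff hinj).mpr hF
  have haev : ∀ G : ℤ[X], aeval α G = (G.map φ).eval α := by
    intro G; rw [eval_map]; rfl
  -- polynomial weights
  have hpoly : ∀ P : ℤ[X], P.natDegree < T →
      ∑ s ∈ F.support, ((P.eval (s : ℤ) : ℤ) : ℂ) * (F.coeff s : ℂ) * α ^ s = 0 := by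
    intro P hP
    have h1 : ∀ s ∈ F.support, ((P.eval (s : ℤ) : ℤ) : ℂ) * (F.coeff s : ℂ) * α ^ s =
        ∑ i ∈ Finset.range (P.natDegree + 1), (P.coeff i : ℂ) *
          (((s : ℤ) ^ i * F.coeff s : ℤ) * α ^ s) := by
      intro s _
      rw [eval_eq_sum_range]
      push_cast
      rw [Finset.sum_mul, Finset.sum_mul]
      refine Finset.sum_congr rfl fun i _ => ?_
      ring
    rw [Finset.sum_congr rfl h1, Finset.sum_comm]
    refine Finset.sum_eq_zero fun i hi => ?_
    rw [← Finset.mul_sum]
    have h2 := hvan i (by rw [Finset.mem_range] at hi; omega)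
    rw [aeval_eq_sum_of_subset (support_Dw _ F)] at h2
    simp only [coeff_Dw] at h2
    rw [h2, mul_zero]
  have hmult : T ≤ (F.map φ).rootMultiplicity α := by
    rcases Nat.eq_zero_or_pos T with rfl | hT
    · exact Nat.zero_le _
    have hlt : T - 1 < (F.map φ).rootMultiplicity α := by
      rw [lt_rootMultiplicity_iff_isRoot_iterate_derivative hFne]
      intro m hm
      rw [IsRoot.def]
      have h1 : α ^ m * (derivative^[m] (F.map φ)).eval α = 0 := by
        have h2 := hpoly (descPochhammer ℤ m) (by rw [descPochhammer_natDegree]; omega)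
        rw [← h2, iterate_derivative_map, eval_map, eval₂_eq_sum_range' (n := F.natDegree + 1),
          Finset.mul_sum]
        · have h3 : ∑ s ∈ F.support, (((descPochhammer ℤ m).eval (s : ℤ) : ℤ) : ℂ) *
              (F.coeff s : ℂ) * α ^ s = ∑ s ∈ Finset.range (F.natDegree + 1 + m),
                ((s.descFactorial m : ℕ) : ℂ) * (F.coeff s : ℂ) * α ^ s := by
            have h4 : F.support ⊆ Finset.range (F.natDegree + 1 + m) := by
              intro s hs
              rw [Finset.mem_range]
              have := le_natDegree_of_mem_supp s hs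
              omega
            rw [← Finset.sum_subset h4]
            · refine Finset.sum_congr rfl fun s _ => ?_
              rw [descPochhammer_eval_eq_descFactorial]
              push_cast; rfl
            · intro s _ hs
              rw [notMem_support_iff.mp hs]; simp
          have h5 : ∑ s ∈ Finset.range (m + (F.natDegree + 1)),
              ((s.descFactorial m : ℕ) : ℂ) * (F.coeff s : ℂ) * α ^ s =
              ∑ i ∈ Finset.range (F.natDegree + 1),
                (((m + i).descFactorial m : ℕ) : ℂ) * (F.coeff (m + i) : ℂ) * α ^ (m + i) := by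
            rw [Finset.sum_range_add, Finset.sum_eq_zero (s := Finset.range m), zero_add]
            intro s hs
            rw [Finset.mem_range] at hs
            rw [Nat.descFactorial_eq_zero_iff_lt.mpr hs]; simp
          rw [h3, add_comm (F.natDegree + 1) m, h5]
          refine Finset.sum_congr rfl fun i _ => ?_
          rw [coeff_iterate_derivative, add_comm i m]
          simp only [hφ, nsmul_eq_mul, Int.coe_castRingHom]
          push_cast
          ring
        · refine (natDegree_iterate_derivative F m).trans_lt ?_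
          omega
      exact (mul_eq_zero.mp h1).resolve_left (pow_ne_zero m hα)
    omega
  -- factor out f
  have hfin : FiniteMultiplicity f F := FiniteMultiplicity.of_not_isUnit hirr.not_isUnit hF
  obtain ⟨G, hG, hfG⟩ := hfin.exists_eq_pow_mul_and_not_dvd
  set j := multiplicity f F with hj
  have hGα : (G.map φ).rootMultiplicity α = 0 := by
    apply rootMultiplicity_eq_zero
    intro h
    apply hfG
    apply dvd_of_root f hf hirr α hroot
    rw [haev]; exact h
  have hsep : (f.map φ).Separable := by
    have hirrQ : Irreducible (f.map (algebraMap ℤ ℚ)) :=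
      (hf.irreducible_iff_irreducible_map_fraction_map (K := ℚ)).mp hirr
    have hsep := hirrQ.separable
    have := hsep.map (f := algebraMap ℚ ℂ)
    rw [Polynomial.map_map] at this
    have heq : (algebraMap ℚ ℂ).comp (algebraMap ℤ ℚ) = φ := RingHom.ext_int _ _
    rwa [heq] at this
  have hf1 : (f.map φ).rootMultiplicity α ≤ 1 := rootMultiplicity_le_one_of_separable hsep α
  have hfne : f.map φ ≠ 0 := (Polynomial.map_ne_zero_iff hinj).mpr hf.ne_zero
  have hpow : ∀ i : ℕ, ((f.map φ) ^ i).rootMultiplicity α ≤ i := by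
    intro i
    induction i with
    | zero =>
      rw [pow_zero, rootMultiplicity_eq_zero]
      intro h
      rw [IsRoot.def, eval_one] at h
      exact one_ne_zero h
    | succ i ih =>
      rw [pow_succ, rootMultiplicity_mul (mul_ne_zero (pow_ne_zero _ hfne) hfne)]
      omega
  have hTj : T ≤ j := by
    have h1 : F.map φ = (f.map φ) ^ j * G.map φ := by
      rw [← Polynomial.map_pow, ← Polynomial.map_mul, ← hG]
    have hne : (f.map φ) ^ j * G.map φ ≠ 0 := by rw [← h1]; exact hFne
    rw [h1, rootMultiplicity_mul hne, hGα, add_zero] at hmult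
    exact hmult.trans (hpow j)
  exact (pow_dvd_pow f hTj).trans ⟨G, hG⟩

end Pool.Agent.Lib.MP_7ab245_nt.Few
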