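import Mathlib

/-! Numerical facts about the parameters. -/

set_option autoImplicit false

namespace Pool.Agent.Lib.MP_7ab245_nt.Few

/-- the logarithmic size of the construction -/
noncomputable def sg (k ℓ V : ℝ) : ℝ := (k + 2) * Real.log (4 * V ^ 4 + 2) + Real.log ℓ

lemma log_V_ge (V : ℝ) (hV : 120 ≤ V) : 4.71 ≤ Real.log V := by
  have h1 : Real.log ((2 : ℝ) ^ 34) ≤ Real.log (V ^ 5) := by
    apply Real.log_le_log (by positivity)
    calc (2 : ℝ) ^ 34 ≤ 120 ^ 5 := by norm_num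
      _ ≤ V ^ 5 := by gcongr
  rw [Real.log_pow, Real.log_pow] at h1
  push_cast at h1
  have := Real.log_two_gt_d9
  linarith

lemma log_four_V (V : ℝ) (hV : 120 ≤ V) : Real.log (4 * V ^ 4 + 2) ≤ 4.3 * Real.log V := by
  have hL := log_V_ge V hV
  have hV4 : (1 : ℝ) ≤ V ^ 4 := one_le_pow₀ (by linarith)
  have hV4' : (120 : ℝ) ^ 4 ≤ V ^ 4 := by gcongr
  have h1 : 4 * V ^ 4 + 2 ≤ (4 * (1 + 0.001)) * V ^ 4 := by
    have : (120 : ℝ) ^ 4 = 207360000 := by norm_num
    rw [this] at hV4'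
    linarith
  have h2 := Real.log_le_log (by positivity) h1
  rw [Real.log_mul (by norm_num) (by positivity), Real.log_mul (by norm_num) (by norm_num),
    Real.log_pow] at h2
  push_cast at h2
  have h3 : Real.log (1 + 0.001) ≤ 0.001 := by
    have := Real.log_le_sub_one_of_pos (x := 1 + 0.001) (by norm_num)
    linarith
  have h4 : Real.log 4 ≤ 1.3863 := by
    have : (4 : ℝ) = 2 ^ 2 := by norm_num
    rw [this, Real.log_pow]; push_cast
    have := Real.log_two_lt_d9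
    linarith
  linarith

lemma sg_le (k ℓ V : ℝ) (hk : 1 ≤ k) (hV1 : 40 * (k + 2) ≤ V)
    (hV2 : 25 * Real.log ℓ ≤ V * Real.log V) : sg k ℓ V ≤ 0.1475 * (V * Real.log V) := by
  have hV : 120 ≤ V := by linarith
  have hL := log_V_ge V hV
  have h1 := log_four_V V hV
  unfold sg
  calc (k + 2) * Real.log (4 * V ^ 4 + 2) + Real.log ℓ
      ≤ (V / 40) * (4.3 * Real.log V) + V * Real.log V / 25 := by
        have h2 : (k + 2) * Real.log (4 * V ^ 4 + 2) ≤ (V / 40) * (4.3 * Real.log V) := by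
          have : k + 2 ≤ V / 40 := by linarith
          have : 0 ≤ Real.log (4 * V ^ 4 + 2) := Real.log_nonneg (by
            have : 0 ≤ V ^ 4 := by positivity
            linarith)
          gcongr
        have h3 : Real.log ℓ ≤ V * Real.log V / 25 := by linarith
        linarith
    _ = 0.1475 * (V * Real.log V) := by ring

lemma sg_ge (k ℓ V : ℝ) (hk : 1 ≤ k) (hℓ : 1 ≤ ℓ) (hV1 : 40 * (k + 2) ≤ V) : 56 ≤ sg k ℓ V := by
  have hV : 120 ≤ V := by linarith
  have hL := log_V_ge V hV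
  have h1 : Real.log (V ^ 4) ≤ Real.log (4 * V ^ 4 + 2) := by
    apply Real.log_le_log (by positivity)
    have : 0 ≤ V ^ 4 := by positivity
    linarith
  rw [Real.log_pow] at h1
  push_cast at h1
  have h2 : 0 ≤ Real.log ℓ := Real.log_nonneg hℓ
  unfold sg
  have h3 : 18.84 ≤ Real.log (4 * V ^ 4 + 2) := by linarith
  have h4 : 3 * 18.84 ≤ (k + 2) * Real.log (4 * V ^ 4 + 2) := by gcongr; linarith
  linarith

/-- the first size bound -/
lemma log_N1_le (k ℓ V : ℕ) (hℓ : 1 ≤ ℓ) :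
    Real.log (((V ^ 4 + 1) ^ k * (V ^ 4 * ℓ + 1) : ℕ) : ℝ) ≤ sg k ℓ V := by
  have hℓR : (1 : ℝ) ≤ ℓ := by exact_mod_cast hℓ
  have hV4 : (0 : ℝ) ≤ (V : ℝ) ^ 4 := by positivity
  push_cast
  rw [Real.log_mul (by positivity) (by positivity), Real.log_pow]
  unfold sg
  have h1 : Real.log ((V : ℝ) ^ 4 + 1) ≤ Real.log (4 * (V : ℝ) ^ 4 + 2) :=
    Real.log_le_log (by positivity) (by linarith)
  have h2 : Real.log ((V : ℝ) ^ 4 * ℓ + 1) ≤ Real.log (4 * (V : ℝ) ^ 4 + 2) + Real.log ℓ := by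
    rw [← Real.log_mul (by positivity) (by positivity)]
    apply Real.log_le_log (by positivity)
    nlinarith
  have h3 : 0 ≤ Real.log (4 * (V : ℝ) ^ 4 + 2) := Real.log_nonneg (by linarith)
  have h4 : (k : ℝ) * Real.log ((V : ℝ) ^ 4 + 1) ≤ k * Real.log (4 * (V : ℝ) ^ 4 + 2) := by
    gcongr
  linarith

/-- the second size bound -/
lemma log_A_le (k ℓ V : ℕ) (hℓ : 1 ≤ ℓ) :
    Real.log (((4 * V ^ 4 + 2) ^ (k + 2) * ℓ : ℕ) : ℝ) ≤ sg k ℓ V := by
  have hℓR : (1 : ℝ) ≤ ℓ := by exact_mod_cast hℓ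
  push_cast
  rw [Real.log_mul (by positivity) (by positivity), Real.log_pow]
  unfold sg
  push_cast
  exact le_rfl

/-- the growth condition -/
lemma growth_ok (N1 V : ℕ) (hV : 1 ≤ V) (hN1 : 1 ≤ N1)
    (h : Real.log N1 ≤ (V : ℝ) ^ 2 / 2) :
    N1 * (2 * V - 1) ^ (V ^ 3) ≤ (2 * V) ^ (V ^ 3) := by
  have hVR : (1 : ℝ) ≤ V := by exact_mod_cast hV
  have hN1R : (1 : ℝ) ≤ N1 := by exact_mod_cast hN1
  obtain ⟨e, he⟩ : ∃ e, e = 2 * V - 1 := ⟨_, rfl⟩
  have he' : e + 1 = 2 * V := by omega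
  have he1 : 1 ≤ e := by omega
  rw [← he, ← he']
  have heR : (1 : ℝ) ≤ e := by exact_mod_cast he1
  have heV : (e : ℝ) + 1 = 2 * V := by exact_mod_cast he'
  obtain ⟨J, hJ⟩ : ∃ J, J = V ^ 3 := ⟨_, rfl⟩
  have hJR : (J : ℝ) = (V : ℝ) ^ 3 := by exact_mod_cast hJ
  rw [← hJ]
  have key : Real.log N1 + J * Real.log e ≤ J * Real.log (e + 1) := by
    have h2 : 1 / ((e : ℝ) + 1) ≤ Real.log (e + 1) - Real.log e := by
      rw [← Real.log_div (by positivity) (by positivity)]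
      have h3 := Real.one_sub_inv_le_log_of_pos (x := ((e : ℝ) + 1) / e) (by positivity)
      refine le_trans (le_of_eq ?_) h3
      rw [inv_div]
      field_simp
      ring
    have h4 : (J : ℝ) * (1 / (e + 1)) = (V : ℝ) ^ 2 / 2 := by
      rw [hJR, heV]
      field_simp
    have h5 : (J : ℝ) * (1 / (e + 1)) ≤ J * (Real.log (e + 1) - Real.log e) := by gcongr
    linarith
  have h1 : (((N1 * e ^ J : ℕ)) : ℝ) ≤ (((e + 1) ^ J : ℕ) : ℝ) := by
    push_cast
    rw [← Real.log_le_log_iff (by positivity) (by positivity),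
      Real.log_mul (by positivity) (by positivity), Real.log_pow, Real.log_pow]
    exact key
  exact_mod_cast h1

/-- choice of the prime `p` -/
lemma exists_p (σ : ℝ) (hσ : 0 ≤ σ) : ∃ p : ℕ, p.Prime ∧ 2 * σ ≤ Real.log p ∧
    Real.log p ≤ 2 * σ + 1.4 := by
  have hlog2 := Real.log_two_gt_d9
  have hlog2' := Real.log_two_lt_d9
  obtain ⟨m, hm⟩ : ∃ m : ℕ, m = ⌈2 * σ / Real.log 2⌉₊ := ⟨_, rfl⟩
  have hm1 : 2 * σ / Real.log 2 ≤ m := by rw [hm]; exact Nat.le_ceil _
  have hm2 : (m : ℝ) < 2 * σ / Real.log 2 + 1 := by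
    rw [hm]; exact Nat.ceil_lt_add_one (by positivity)
  have hm1' : 2 * σ ≤ m * Real.log 2 := by
    rwa [div_le_iff₀ (by linarith)] at hm1
  have hm2' : m * Real.log 2 ≤ 2 * σ + Real.log 2 := by
    have h1 : (m : ℝ) * Real.log 2 ≤ (2 * σ / Real.log 2 + 1) * Real.log 2 := by gcongr
    have h2 : (2 * σ / Real.log 2 + 1) * Real.log 2 = 2 * σ + Real.log 2 := by
      have : Real.log 2 ≠ 0 := by linarith
      field_simp
    linarith
  obtain ⟨p, hp, hp1, hp2⟩ := Nat.exists_prime_lt_and_le_two_mul (2 ^ m) (by positivity)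
  refine ⟨p, hp, ?_, ?_⟩
  · have h1 : (2 : ℝ) ^ m ≤ p := by exact_mod_cast hp1.le
    have h3 := Real.log_le_log (by positivity) h1
    rw [Real.log_pow] at h3
    linarith
  · have hpR : (0 : ℝ) < p := by exact_mod_cast hp.pos
    have h2 : (p : ℝ) ≤ 2 * 2 ^ m := by exact_mod_cast hp2
    have h4 := Real.log_le_log hpR h2
    rw [Real.log_mul (by norm_num) (by positivity), Real.log_pow] at h4
    linarith

/-- numerical inequality behind H1 -/
lemma num1 (n T logA logN1 ℓp σ ω μ Y : ℝ) (hn : 1 ≤ n) (hT : 60 ≤ T) (hσ : 56 ≤ σ)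
    (hA : logA ≤ σ) (hN1 : logN1 ≤ σ) (hp : 2 * σ ≤ ℓp) (hω : ω = Y * n) (hY : Y * μ ≤ 1) :
    n * (T * logA + logN1 + ℓp) + ω * μ < T * n * ℓp := by
  have h1 : ω * μ = n * (Y * μ) := by rw [hω]; ring
  rw [h1]
  have h2 : T * logA ≤ T * σ := by gcongr
  have h3 : T * logA + logN1 + ℓp + Y * μ < T * ℓp := by
    have h4 : (T - 1) * (2 * σ) ≤ (T - 1) * ℓp := by
      apply mul_le_mul_of_nonneg_left hp; linarith
    have h5 : 60 * σ ≤ T * σ := by gcongr
    linarith
  calc n * (T * logA + logN1 + ℓp) + n * (Y * μ) = n * (T * logA + logN1 + ℓp + Y * μ) := by ring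
    _ < n * (T * ℓp) := by
        apply mul_lt_mul_of_pos_left h3; linarith
    _ = T * n * ℓp := by ring

/-- numerical inequality behind H2 -/
lemma num2 (n T V L logN1 ℓp σ ω μ Y q lq l16 : ℝ) (hn : 1 ≤ n) (hVT : V = 2 * T) (hT : 60 ≤ T)
    (hσ : 56 ≤ σ) (hσ' : σ ≤ 0.1475 * (V * L))
    (hN1 : logN1 ≤ σ) (hp : ℓp ≤ 2 * σ + 1.4) (hω : ω = Y * n) (hY0 : 0 ≤ Y) (hμ0 : 0 ≤ μ)
    (hμ : μ * Y ^ 2 ≤ V / 10) (hlq : 2 * L ≤ lq) (hL : 1 ≤ L)
    (hq : q ≤ 1.96 * Y * l16) (h16 : l16 ≤ 1.27 * lq) :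
    n * (logN1 + ℓp) + q * ω * μ < n * T * lq := by
  have h1 : q * ω * μ = n * (q * (Y * μ)) := by rw [hω]; ring
  rw [h1]
  have hV : 120 ≤ V := by linarith
  have h2 : logN1 + ℓp ≤ 0.2287 * (V * lq) := by
    have h3 : V * (2 * L) ≤ V * lq := by gcongr
    linarith
  have hYμ : 0 ≤ Y * μ := by positivity
  have h3 : q * (Y * μ) ≤ 0.25 * (V * lq) := by
    calc q * (Y * μ) ≤ (1.96 * Y * l16) * (Y * μ) := by gcongr
      _ ≤ (1.96 * Y * (1.27 * lq)) * (Y * μ) := by gcongr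
      _ = 2.4892 * lq * (μ * Y ^ 2) := by ring
      _ ≤ 2.4892 * lq * (V / 10) := by
          have : 0 ≤ lq := by linarith
          gcongr
      _ ≤ 0.25 * (V * lq) := by
          have : 0 ≤ V * lq := by
            have : 0 ≤ lq := by linarith
            positivity
          linarith
  have h4 : 0 < V * lq := by
    have : 0 < lq := by linarith
    positivity
  calc n * (logN1 + ℓp) + n * (q * (Y * μ)) = n * (logN1 + ℓp + q * (Y * μ)) := by ring
    _ < n * (T * lq) := by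
        apply mul_lt_mul_of_pos_left _ (by linarith)
        have h5 : T * lq = 0.5 * (V * lq) := by rw [hVT]; ring
        rw [h5]; linarith
    _ = n * T * lq := by ring

/-- numerical inequality behind the bound for the bad primes -/
lemma num3 (k ℓ V Y l16 b R : ℝ) (hk : 1 ≤ k) (hℓ : 1 ≤ ℓ) (hV1 : 40 * (k + 2) ≤ V)
    (hV2 : 25 * Real.log ℓ ≤ V * Real.log V) (hY : 2 * V ^ 2 ≤ Y)
    (hR0 : 40000 ≤ R) (hl16 : l16 = Real.log (16 * R))
    (hR1 : 9 * R ≤ (1.1 * Y) * l16 + 9) (hsq : l16 ≤ 0.067 * Real.sqrt R)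
    (hb : b * Real.log 2 ≤ Real.log k + Real.log ℓ + k * l16) : b ≤ 0.1 * Y := by
  have hV : 120 ≤ V := by linarith
  have hYpos : 28800 ≤ Y := by nlinarith
  have hsqR : Real.sqrt R * Real.sqrt R = R := Real.mul_self_sqrt (by linarith)
  have hs : (200 : ℝ) ≤ Real.sqrt R := by
    rw [Real.le_sqrt (by norm_num) (by linarith)]
    linarith
  -- √R ≤ 0.01 Y
  have h1 : Real.sqrt R ≤ 0.01 * Y := by
    have h2 : 9 * (Real.sqrt R * Real.sqrt R) ≤ (1.1 * Y) * (0.067 * Real.sqrt R) + 9 := by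
      rw [hsqR]
      refine hR1.trans ?_
      gcongr
    by_contra hcon
    push Not at hcon
    nlinarith
  have h2 : l16 ≤ 2 * Real.log Y := by
    rw [hl16]
    have h3 : 16 * R ≤ Y ^ 2 := by
      rw [← hsqR]
      nlinarith
    have h4 := Real.log_le_log (by linarith) h3
    rw [Real.log_pow] at h4
    push_cast at h4
    exact h4
  -- log Y ≤ √Y
  have hsY : Real.sqrt Y * Real.sqrt Y = Y := Real.mul_self_sqrt (by linarith)
  have hsYpos : 0 < Real.sqrt Y := Real.sqrt_pos.mpr (by linarith)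
  have h3 : Real.log Y ≤ Real.sqrt Y := by
    have h4 : Real.log Y = 2 * Real.log (Real.sqrt Y) := by
      conv_lhs => rw [← hsY]
      rw [Real.log_mul hsYpos.ne' hsYpos.ne']; ring
    have h5 : Real.log (Real.sqrt Y / 2) ≤ Real.sqrt Y / 2 - 1 :=
      Real.log_le_sub_one_of_pos (by positivity)
    rw [Real.log_div hsYpos.ne' (by norm_num)] at h5
    have := Real.log_two_lt_d9
    linarith
  have h4 : 1.4 * V ≤ Real.sqrt Y := by
    rw [Real.le_sqrt (by linarith) (by linarith)]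
    nlinarith
  have h5 : k * l16 ≤ 0.036 * Y := by
    calc k * l16 ≤ (V / 40) * (2 * Real.log Y) := by
          have : 0 ≤ l16 := by
            rw [hl16]; exact Real.log_nonneg (by linarith)
          gcongr
          linarith
      _ ≤ (Real.sqrt Y / 1.4 / 40) * (2 * Real.sqrt Y) := by
          have : V ≤ Real.sqrt Y / 1.4 := by
            rw [le_div_iff₀ (by norm_num)]; linarith
          have : 0 ≤ Real.log Y := Real.log_nonneg (by linarith)
          gcongr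
      _ = (1 / 28) * (Real.sqrt Y * Real.sqrt Y) := by ring
      _ = (1 / 28) * Y := by rw [hsY]
      _ ≤ 0.036 * Y := by
          apply mul_le_mul_of_nonneg_right (by norm_num) (by linarith)
  have h6 : Real.log V ≤ V - 1 := Real.log_le_sub_one_of_pos (by linarith)
  have h7 : Real.log ℓ ≤ 0.02 * Y := by
    have : V * Real.log V ≤ V * V := by gcongr; linarith
    nlinarith
  have h8 : Real.log k ≤ 0.001 * Y := by
    have h9 : Real.log k ≤ k - 1 := Real.log_le_sub_one_of_pos (by linarith)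
    nlinarith
  have hlog2 := Real.log_two_gt_d9
  by_contra hcon
  push Not at hcon
  have h9 : 0.1 * Y * Real.log 2 < b * Real.log 2 := by
    apply mul_lt_mul_of_pos_right hcon; linarith
  have h10 : 0.1 * Y * 0.69 ≤ 0.1 * Y * Real.log 2 := by gcongr; linarith
  linarith

end Pool.Agent.Lib.MP_7ab245_nt.Few
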