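import Mathlib

/-! Explicit supply of primes. -/

set_option autoImplicit false

open Nat (primesLE)

namespace Pool.Agent.Lib.MP_7ab245_nt.Few

/-- the primes in `(R, 16 R]` -/
def PP (R : ℕ) : Finset ℕ := (primesLE (16 * R)).filter (fun q => R < q)

lemma mem_PP {R q : ℕ} : q ∈ PP R ↔ q ≤ 16 * R ∧ q.Prime ∧ R < q := by
  rw [PP, Finset.mem_filter, Nat.mem_primesLE]; tauto

lemma log_bound (R : ℕ) (hR : 40000 ≤ R) : Real.log (16 * R) ≤ 0.067 * Real.sqrt R := by
  have hR' : (40000 : ℝ) ≤ R := by exact_mod_cast hR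
  have hs : (200 : ℝ) ≤ Real.sqrt R := by
    rw [Real.le_sqrt (by norm_num) (by linarith)]
    linarith
  have h1 : (16 * R : ℝ) = (4 * Real.sqrt R) ^ 2 := by
    rw [mul_pow, Real.sq_sqrt (by linarith)]; norm_num
  have h2 : (4 * Real.sqrt R : ℝ) = 800 * (Real.sqrt R / 200) := by ring
  have h3 : Real.log (Real.sqrt R / 200) ≤ Real.sqrt R / 200 - 1 :=
    Real.log_le_sub_one_of_pos (by positivity)
  have h4 : Real.log 800 ≤ 6.7 := by
    have h5 : Real.log (800 ^ 10) ≤ 67 := by
      rw [Real.log_le_iff_le_exp (by norm_num)]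
      have h5 : (2.718281 : ℝ) < Real.exp 1 := by
        have := Real.exp_one_gt_d9
        linarith
      have h6 : Real.exp 67 = Real.exp 1 ^ 67 := by rw [← Real.exp_nat_mul]; norm_num
      rw [h6]
      calc (800 ^ 10 : ℝ) ≤ 2.718281 ^ 67 := by norm_num
        _ ≤ Real.exp 1 ^ 67 := by gcongr
    rw [Real.log_pow] at h5
    push_cast at h5
    linarith
  rw [h1, Real.log_pow, h2, Real.log_mul (by norm_num) (by positivity)]
  push_cast
  linarith

lemma primes_many (R : ℕ) (hR : 40000 ≤ R) :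
    9 * (R : ℝ) ≤ (PP R).card * Real.log (16 * R) := by
  have hR' : (40000 : ℝ) ≤ R := by exact_mod_cast hR
  have hs : (200 : ℝ) ≤ Real.sqrt R := by
    rw [Real.le_sqrt (by norm_num) (by linarith)]
    linarith
  have hss : Real.sqrt R * Real.sqrt R = R := Real.mul_self_sqrt (by linarith)
  have hlog := log_bound R hR
  have h1 := Chebyshev.theta_ge (16 * R)
  have h2 := Chebyshev.theta_le_log4_mul_x (x := (R : ℝ)) (by linarith)
  have hsum : Chebyshev.theta ((16 * R : ℕ) : ℝ) - Chebyshev.theta (R : ℝ) =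
      ∑ q ∈ PP R, Real.log q := by
    rw [Chebyshev.theta_eq_sum_primesLE_log, Chebyshev.theta_eq_sum_primesLE_log]
    have h3 : primesLE (16 * R) = primesLE R ∪ PP R := by
      ext q
      rw [Finset.mem_union, mem_PP, Nat.mem_primesLE, Nat.mem_primesLE]
      constructor
      · rintro ⟨h4, h5⟩
        by_cases h6 : q ≤ R
        · exact Or.inl ⟨h6, h5⟩
        · exact Or.inr ⟨h4, h5, by omega⟩
      · rintro (⟨h4, h5⟩ | ⟨h4, h5, h6⟩)
        · exact ⟨by omega, h5⟩
        · exact ⟨h4, h5⟩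
    have h4 : Disjoint (primesLE R) (PP R) := by
      rw [Finset.disjoint_left]
      intro q hq hq'
      rw [Nat.mem_primesLE] at hq
      rw [mem_PP] at hq'
      omega
    rw [h3, Finset.sum_union h4]; ring
  have hle : ∑ q ∈ PP R, Real.log q ≤ (PP R).card * Real.log (16 * R) := by
    rw [← nsmul_eq_mul]
    apply Finset.sum_le_card_nsmul
    intro q hq
    rw [mem_PP] at hq
    apply Real.log_le_log
    · exact_mod_cast hq.2.1.pos
    · exact_mod_cast hq.1
  have hlog2 : (0.6931471803 : ℝ) < Real.log 2 := Real.log_two_gt_d9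
  have hlog2' : Real.log 2 < 0.6931471808 := Real.log_two_lt_d9
  have hlog4 : Real.log 4 ≤ 1.3863 := by
    have : (4 : ℝ) = 2 ^ 2 := by norm_num
    rw [this, Real.log_pow]; push_cast; linarith
  push_cast at h1
  have h5 : Real.log (16 * (R : ℝ) + 1) ≤ Real.log (16 * R) + 1 := by
    have h6 : (16 * (R : ℝ) + 1) ≤ (16 * R) * 2 := by linarith
    have h7 := Real.log_le_log (by positivity) h6
    rw [Real.log_mul (by positivity) (by norm_num)] at h7
    linarith
  have h6 : Real.sqrt (16 * (R : ℝ)) = 4 * Real.sqrt R := by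
    rw [Real.sqrt_mul (by norm_num)]
    have : Real.sqrt 16 = 4 := by
      rw [show (16 : ℝ) = 4 ^ 2 by norm_num]
      exact Real.sqrt_sq (by norm_num)
    rw [this]
  rw [h6] at h1
  have h7 : 2 * (4 * Real.sqrt R) * Real.log (16 * (R : ℝ)) ≤ 0.536 * R := by
    calc 2 * (4 * Real.sqrt R) * Real.log (16 * (R : ℝ))
        ≤ 2 * (4 * Real.sqrt R) * (0.067 * Real.sqrt R) := by gcongr
      _ = 0.536 * (Real.sqrt R * Real.sqrt R) := by ring
      _ = 0.536 * R := by rw [hss]
  have h8 : Real.log (16 * (R : ℝ)) ≤ 0.001 * R := by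
    refine hlog.trans ?_
    have : 200 * Real.sqrt R ≤ R := by nlinarith
    linarith
  push_cast at hsum
  have h9 : Real.log 4 * (R : ℝ) ≤ 1.3863 * R := by gcongr
  have h10 : 16 * (R : ℝ) * 0.6931471803 ≤ 16 * R * Real.log 2 := by gcongr
  linarith

/-- choice of the range -/
lemma exists_R (X : ℝ) (hX : 28800 ≤ X) : ∃ R : ℕ, 40000 ≤ R ∧
    X * Real.log (16 * R) < 9 * R ∧ 9 * (R : ℝ) ≤ X * Real.log (16 * R) + 9 := by
  classical
  have hex : ∃ R : ℕ, 40000 ≤ R ∧ X * Real.log (16 * R) < 9 * R := by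
    obtain ⟨R, hR⟩ := exists_nat_ge (X ^ 2)
    have hR6 : (40000 : ℝ) ≤ R := by nlinarith
    have hR6' : 40000 ≤ R := by exact_mod_cast hR6
    refine ⟨R, hR6', ?_⟩
    have h1 := log_bound R hR6'
    have h2 : X ≤ Real.sqrt R := by
      rw [Real.le_sqrt (by linarith) (by linarith)]; exact hR
    have h3 : Real.sqrt R * Real.sqrt R = R := Real.mul_self_sqrt (by linarith)
    calc X * Real.log (16 * R) ≤ X * (0.067 * Real.sqrt R) := by gcongr
      _ ≤ Real.sqrt R * (0.067 * Real.sqrt R) := by gcongr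
      _ = 0.067 * (Real.sqrt R * Real.sqrt R) := by ring
      _ = 0.067 * R := by rw [h3]
      _ < 9 * R := by linarith
  obtain ⟨R, hRdef⟩ : ∃ R, R = Nat.find hex := ⟨_, rfl⟩
  obtain ⟨h1, h2⟩ := Nat.find_spec hex
  rw [← hRdef] at h1 h2
  refine ⟨R, h1, h2, ?_⟩
  have hR6 : (40000 : ℝ) ≤ R := by exact_mod_cast h1
  have hlog13 : 13 ≤ Real.log (16 * R) := by
    have h3 : ((2 : ℝ) ^ 19) ≤ 16 * R := by
      have : (2 : ℝ) ^ 19 = 524288 := by norm_num
      rw [this]; linarith
    have h4 := Real.log_le_log (by norm_num) h3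
    rw [Real.log_pow] at h4
    push_cast at h4
    have := Real.log_two_gt_d9
    linarith
  by_cases hR0 : R = 40000
  · have : (R : ℝ) = 40000 := by exact_mod_cast hR0
    nlinarith
  · have hlt : R - 1 < R := by omega
    have hmin := Nat.find_min hex (show R - 1 < Nat.find hex by omega)
    rw [not_and_or] at hmin
    rcases hmin with h | h
    · exfalso; omega
    · push Not at h
      have hcast : ((R - 1 : ℕ) : ℝ) = R - 1 := by
        rw [Nat.cast_sub (by omega)]; simp
      rw [hcast] at h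
      have h3 : Real.log (16 * ((R : ℝ) - 1)) ≤ Real.log (16 * R) :=
        Real.log_le_log (by linarith) (by linarith)
      have h4 : X * Real.log (16 * ((R : ℝ) - 1)) ≤ X * Real.log (16 * R) := by
        gcongr
      linarith

end Pool.Agent.Lib.MP_7ab245_nt.Few
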