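import Mathlib
import Pool.Agent.Lib.MP_7ab245_nt.Few.Engine
import Pool.Agent.Lib.MP_7ab245_nt.Few.Blocks
import Pool.Agent.Lib.MP_7ab245_nt.Few.Bad2
import Pool.Agent.Lib.MP_7ab245_nt.Few.Primes
import Pool.Agent.Lib.MP_7ab245_nt.Few.Params

/-! The contradiction for small Mahler measure. -/

set_option autoImplicit false

open Polynomial

namespace Pool.Agent.Lib.MP_7ab245_nt.Few

/-- the span condition for all relevant lengths -/
lemma span_ok (S : Finset ℕ) (h0 : 0 ∈ S) (ℓ k L Lm : ℕ) (hℓ : 1 ≤ ℓ) (hL : 2 ≤ L) (hLm : L ≤ Lm)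
    (hk : S.card ≤ k) (E : Finset ℕ) (hE : E ⊆ Blk S ℓ) :
    (fun s : SS E L => ((s : ℕ) : ℝ)) ∈
      Submodule.span ℝ (smallHoms E L ((4 * Lm + 2) ^ (k + 2) * ℓ)) := by
  have hQ : (4 * L + 2) ^ (S.card + 1) * ℓ ≤ (4 * Lm + 2) ^ (k + 1) * ℓ := by
    apply Nat.mul_le_mul_right
    calc (4 * L + 2) ^ (S.card + 1) ≤ (4 * Lm + 2) ^ (S.card + 1) :=
          Nat.pow_le_pow_left (by omega) _
      _ ≤ (4 * Lm + 2) ^ (k + 1) := Nat.pow_le_pow_right (by omega) (by omega)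
  have h1 := incl_mem_span_blocks S h0 ℓ L hℓ hL E hE _ hQ
  refine Submodule.span_mono ?_ h1
  rintro u ⟨z, hz1, hz2, hz3⟩
  refine ⟨z, hz1, fun s hs => (hz2 s hs).trans ?_, hz3⟩
  have h2 : (4 * Lm + 2) ^ (k + 1) * ℓ * L + 1 ≤ (4 * Lm + 2) ^ (k + 2) * ℓ := by
    have h3 : 1 ≤ (4 * Lm + 2) ^ (k + 1) * ℓ := Nat.one_le_iff_ne_zero.mpr (by positivity)
    calc (4 * Lm + 2) ^ (k + 1) * ℓ * L + 1
        ≤ (4 * Lm + 2) ^ (k + 1) * ℓ * L + (4 * Lm + 2) ^ (k + 1) * ℓ := by omega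
      _ = (4 * Lm + 2) ^ (k + 1) * ℓ * (L + 1) := by ring
      _ ≤ (4 * Lm + 2) ^ (k + 1) * ℓ * (4 * Lm + 2) := Nat.mul_le_mul_left _ (by omega)
      _ = _ := by ring
  exact_mod_cast h2

set_option maxHeartbeats 1000000 in
/-- The contradiction for small Mahler measure. -/
theorem few_core (f H : ℤ[X]) (hf : f.Monic) (hirr : Irreducible f) (hf0 : |f.coeff 0| = 1)
    (α : ℂ) (hroot : aeval α f = 0) (hα : α ≠ 0) (hx0 : ∀ x : QQ, aeval x f = 0 → x ≠ 0)
    (hnt : ∀ x : QQ, aeval x f = 0 → ∀ m : ℕ, 0 < m → x ^ m ≠ 1)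
    (hfH : f ∣ H) (hH0 : H.coeff 0 ≠ 0)
    (hmin : ∀ G : ℤ[X], G ≠ 0 → f ∣ G → G.support ⊆ H.support → H.support ⊆ G.support)
    (hprim : ∀ p : ℕ, p.Prime → H.map (Int.castRingHom (ZMod p)) ≠ 0)
    (k ℓ : ℕ) (hk1 : 1 ≤ k) (hℓ : 1 ≤ ℓ) (S : Finset ℕ) (hk : S.card ≤ k)
    (hblk : ∀ e ∈ H.support, ∃ s ∈ S, s ≤ e ∧ e ≤ s + ℓ)
    (T V : ℕ) (hVT : V = 2 * T) (hV1 : 40 * ((k : ℝ) + 2) ≤ V)
    (hV2 : 25 * Real.log ℓ ≤ V * Real.log V)
    (hμ : Real.log (MM f) * (2 * (V : ℝ) ^ 2 * H.natDegree) ^ 2 ≤ V / 10 * (f.natDegree : ℝ) ^ 2) :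
    False := by
  classical
  set n := f.natDegree with hn
  set d := H.natDegree with hd
  have hHne : H ≠ 0 := by rintro rfl; simp at hH0
  have hn1 : 1 ≤ n := by
    rcases Nat.eq_zero_or_pos n with h1 | h1
    · exfalso
      have := hf.natDegree_eq_zero.mp (hn ▸ h1)
      rw [this] at hirr
      exact not_irreducible_one hirr
    · exact h1
  have hnd : n ≤ d := natDegree_le_of_dvd hfH hHne
  have hnR : (1 : ℝ) ≤ n := by exact_mod_cast hn1
  have hndR : (n : ℝ) ≤ d := by exact_mod_cast hnd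
  have hkR : (1 : ℝ) ≤ k := by exact_mod_cast hk1
  have hℓR : (1 : ℝ) ≤ ℓ := by exact_mod_cast hℓ
  have hfne : f ≠ 0 := hf.ne_zero
  have hμ0 : 0 ≤ Real.log (MM f) := Real.log_nonneg (MM_one_le hfne)
  set μ := Real.log (MM f) with hμdef
  have hV120 : (120 : ℝ) ≤ V := by linarith
  have hV120' : 120 ≤ V := by exact_mod_cast hV120
  have hL := log_V_ge V hV120
  have hVTR : (V : ℝ) = 2 * T := by rw [hVT]; push_cast; ring
  have hT60 : (60 : ℝ) ≤ T := by linarith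
  have hsg1 := sg_ge k ℓ V hkR hℓR hV1
  have hsg2 := sg_le k ℓ V hkR hV1 hV2
  obtain ⟨σ, hσ⟩ : ∃ σ, σ = sg k ℓ V := ⟨_, rfl⟩
  rw [← hσ] at hsg1 hsg2
  -- sizes
  obtain ⟨N1, hN1⟩ : ∃ N1, N1 = (V ^ 4 + 1) ^ k * (V ^ 4 * ℓ + 1) := ⟨_, rfl⟩
  obtain ⟨A, hA⟩ : ∃ A, A = (4 * V ^ 4 + 2) ^ (k + 2) * ℓ := ⟨_, rfl⟩
  have hlogN1 : Real.log N1 ≤ σ := by rw [hN1, hσ]; exact log_N1_le k ℓ V hℓ
  have hlogA : Real.log A ≤ σ := by rw [hA, hσ]; exact log_A_le k ℓ V hℓ
  have hN1pos : 1 ≤ N1 := by rw [hN1]; exact Nat.one_le_iff_ne_zero.mpr (by positivity)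
  have hApos : 1 ≤ A := by
    rw [hA]
    exact Nat.one_le_iff_ne_zero.mpr (by positivity)
  have hJV : V ^ 3 * V = V ^ 4 := by ring
  have hE0 : 0 ∈ H.support := mem_support_iff.mpr hH0
  have hEblk : H.support ⊆ Blk S ℓ := fun e he => mem_Blk.mpr (hblk e he)
  have hS0 : 0 ∈ S := by
    obtain ⟨s, hs, h1, _⟩ := hblk 0 hE0
    have : s = 0 := by omega
    rwa [this] at hs
  have hcardN1 : (SS H.support (V ^ 3 * V)).card ≤ N1 := by
    rw [hJV, hN1]
    calc (SS H.support (V ^ 4)).card ≤ (SS (Blk S ℓ) (V ^ 4)).card :=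
          Finset.card_le_card (SS_subset hEblk _)
      _ ≤ (V ^ 4 + 1) ^ S.card * (V ^ 4 * ℓ + 1) := card_SS_Blk S ℓ _
      _ ≤ (V ^ 4 + 1) ^ k * (V ^ 4 * ℓ + 1) :=
          Nat.mul_le_mul_right _ (Nat.pow_le_pow_right (by omega) hk)
  have hgrow : N1 * (2 * V - 1) ^ (V ^ 3) ≤ (2 * V) ^ (V ^ 3) := by
    apply growth_ok N1 V (by omega) hN1pos
    have h1 : Real.log V ≤ V - 1 := Real.log_le_sub_one_of_pos (by linarith)
    have h2 : (V : ℝ) * Real.log V ≤ V * V := by gcongr; linarith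
    have h3 : (0 : ℝ) ≤ (V : ℝ) * V := by positivity
    calc Real.log N1 ≤ σ := hlogN1
      _ ≤ 0.1475 * (V * Real.log V) := hsg2
      _ ≤ 0.1475 * ((V : ℝ) * V) := by gcongr
      _ ≤ (V : ℝ) ^ 2 / 2 := by rw [sq]; linarith
  -- the prime p
  obtain ⟨p, hpp, hlogp1, hlogp2⟩ := exists_p σ (by linarith)
  have hpF : Fact p.Prime := ⟨hpp⟩
  -- the monic lift
  obtain ⟨h, hhm, hhs, -, hhmap⟩ := exists_lift p (H.map (Int.castRingHom (ZMod p))) (hprim p hpp)
  have hhE : h.support ⊆ H.support := by rw [hhs]; exact support_map_subset _ _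
  have hGh : f.map (Int.castRingHom (ZMod p)) ∣ h.map (Int.castRingHom (ZMod p)) := by
    rw [hhmap]
    exact (Polynomial.map_dvd _ hfH).mul_left _
  have hGd : (f.map (Int.castRingHom (ZMod p))).natDegree = n := hf.natDegree_map _
  -- gcd of exponents
  obtain ⟨D, hD⟩ : ∃ D : ℕ, D = H.support.gcd id := ⟨_, rfl⟩
  have hdmem : d ∈ H.support := natDegree_mem_support_of_nonzero hHne
  have hDpos : 0 < D := by
    rcases Nat.eq_zero_or_pos D with h0 | h0
    · exfalso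
      rw [hD, Finset.gcd_eq_zero_iff] at h0
      have := h0 d hdmem
      simp only [id] at this
      omega
    · exact h0
  -- the window
  obtain ⟨ω, hω⟩ : ∃ ω : ℕ, ω = 2 * V * (V * d) := ⟨_, rfl⟩
  have hωR : (ω : ℝ) = 2 * (V : ℝ) ^ 2 * d := by rw [hω]; push_cast; ring
  obtain ⟨Y, hY⟩ : ∃ Y : ℝ, Y = ω / n := ⟨_, rfl⟩
  have hYn : (ω : ℝ) = Y * n := by rw [hY]; field_simp
  have hYge : 2 * (V : ℝ) ^ 2 ≤ Y := by
    rw [hY, le_div_iff₀ (by linarith), hωR]
    gcongr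
  have hVV : (120 : ℝ) * V ≤ (V : ℝ) ^ 2 := by rw [sq]; gcongr
  have hY28 : 28800 ≤ Y := by linarith
  have hYpos : 0 < Y := by linarith
  -- the range of primes
  obtain ⟨R, hR6, hR1, hR2⟩ := exists_R (1.1 * Y) (by linarith)
  have hR6R : (40000 : ℝ) ≤ R := by exact_mod_cast hR6
  have hmany := primes_many R hR6
  have hlb := log_bound R hR6
  obtain ⟨l16, hl16⟩ : ∃ l : ℝ, l = Real.log (16 * R) := ⟨_, rfl⟩
  rw [← hl16] at hR1 hR2 hmany hlb
  have hlog2 := Real.log_two_gt_d9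
  have hlog2' := Real.log_two_lt_d9
  have hl16ge : 13 ≤ l16 := by
    have h3 : ((2 : ℝ) ^ 19) ≤ 16 * R := by
      have : (2 : ℝ) ^ 19 = 524288 := by norm_num
      rw [this]; linarith
    have h4 := Real.log_le_log (by norm_num) h3
    rw [Real.log_pow, ← hl16] at h4
    push_cast at h4
    linarith
  have hYR : Y ≤ R := by
    have h1 : 1.1 * Y * 13 ≤ 1.1 * Y * l16 := by gcongr
    linarith
  have hcard : 1.1 * Y < (PP R).card := by
    by_contra hlt
    push Not at hlt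
    have : ((PP R).card : ℝ) * l16 ≤ (1.1 * Y) * l16 := by gcongr
    linarith
  obtain ⟨B, hB⟩ : ∃ B, B = (PP R).filter (fun q => BadPrime f D q) := ⟨_, rfl⟩
  obtain ⟨P, hP⟩ : ∃ P, P = (PP R).filter (fun q => ¬ BadPrime f D q) := ⟨_, rfl⟩
  have hBcard : (B.card : ℝ) ≤ 0.1 * Y := by
    have h1 := card_bad_le f H hf hirr hx0 hfH hH0 hmin D hDpos hD S ℓ k (16 * R) hk hblk B
      (fun q hq => by rw [hB] at hq; exact (mem_PP.mp (Finset.mem_filter.mp hq).1).2.1)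
      (fun q hq => by rw [hB] at hq; exact (mem_PP.mp (Finset.mem_filter.mp hq).1).1)
      (fun q hq => by rw [hB] at hq; exact (Finset.mem_filter.mp hq).2)
    rcases h1 with h1 | h1
    · have h2 : (B.card : ℝ) ≤ k := by
        have : B.card ≤ k := by omega
        exact_mod_cast this
      linarith
    · have h2 : ((2 ^ B.card : ℕ) : ℝ) ≤ ((k * ℓ * (16 * R) ^ k : ℕ) : ℝ) := by exact_mod_cast h1
      push_cast at h2
      have h3 := Real.log_le_log (by positivity) h2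
      have hRpos : (0 : ℝ) < R := by linarith
      rw [Real.log_mul (by positivity) (by positivity), Real.log_mul (by positivity) (by positivity),
        Real.log_pow, Real.log_pow, ← hl16] at h3
      exact num3 k ℓ V Y l16 B.card R hkR hℓR hV1 hV2 hYge hR6R hl16 hR2 hlb h3
  have hPB : P.card + B.card = (PP R).card := by
    rw [hP, hB, add_comm]; exact Finset.card_filter_add_card_filter_not _
  have hPcard : Y < P.card := by
    have h1 : ((P.card + B.card : ℕ) : ℝ) = (PP R).card := by exact_mod_cast hPB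
    push_cast at h1
    linarith
  -- consequences of the hypothesis
  have hμ1 : μ * Y ^ 2 ≤ V / 10 := by
    have h1 : μ * (2 * (V : ℝ) ^ 2 * d) ^ 2 = (μ * Y ^ 2) * (n : ℝ) ^ 2 := by
      rw [← hωR, hYn]; ring
    rw [h1] at hμ
    exact le_of_mul_le_mul_right hμ (by positivity)
  have hμY : Y * μ ≤ 1 := by
    have h1 : (Y * μ) * Y ≤ 1 * Y := by
      calc (Y * μ) * Y = μ * Y ^ 2 := by ring
        _ ≤ V / 10 := hμ1
        _ ≤ 1 * Y := by linarith
    exact le_of_mul_le_mul_right h1 hYpos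
  have hmemP : ∀ q ∈ P, q ≤ 16 * R ∧ q.Prime ∧ R < q := by
    intro q hq
    rw [hP] at hq
    exact mem_PP.mp (Finset.mem_filter.mp hq).1
  have hfib : ∀ q ∈ P, ¬ BadPrime f D q := by
    intro q hq
    rw [hP] at hq
    exact (Finset.mem_filter.mp hq).2
  clear hP hB hPB hBcard
  refine engine f hf hirr hf0 α hroot hα hx0 hnt H.support hE0 d
    (fun s hs => le_natDegree_of_mem_supp s hs) hnd D hDpos
    (fun s hs => by rw [hD]; exact Finset.gcd_dvd (f := id) hs) p h hhm hhE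
    (f.map (Int.castRingHom (ZMod p))) dvd_rfl hGh V (V ^ 3) T N1 A (by omega)
    (Nat.one_le_pow _ _ (by omega)) hcardN1 hgrow (by omega) hApos ?_ ω hω.ge P
    (fun q hq => (hmemP q hq).2.1) 1 ?_ ?_ ?_ ?_
  · -- span
    intro L hL1 hL2
    rw [hJV] at hL2
    rw [hA]
    exact span_ok S hS0 ℓ k L (V ^ 4) hℓ (by omega) hL2 hk H.support hEblk
  · -- fibres
    intro q hq x hx S' hS'
    have hnb := hfib q hq
    rw [Finset.card_le_one]
    intro a ha b hb
    obtain ⟨⟨y, hy, rfl⟩, ha2⟩ := hS' a ha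
    obtain ⟨⟨y', hy', rfl⟩, hb2⟩ := hS' b hb
    by_contra hne
    exact hnb ⟨y, y', hy, hy', hne, ha2.trans hb2.symm⟩
  · -- H1
    have hVmT : ((V - T : ℕ) : ℝ) = T := by
      have : V - T = T := by omega
      rw [this]
    rw [hVmT, hGd]
    exact num1 n T (Real.log A) (Real.log N1) (Real.log p) σ ω μ Y hnR hT60 hsg1 hlogA hlogN1
      hlogp1 hYn hμY
  · -- H2
    intro q hq
    have hq' := hmemP q hq
    have hqR : (R : ℝ) < q := by exact_mod_cast hq'.2.2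
    have hq16 : (q : ℝ) ≤ 16 * R := by exact_mod_cast hq'.1
    have hlogqR : Real.log R ≤ Real.log q := Real.log_le_log (by linarith) hqR.le
    have hlq : 2 * Real.log V ≤ Real.log q := by
      have h1 : (V : ℝ) ^ 2 ≤ q := by linarith
      have h2 := Real.log_le_log (by positivity) h1
      rw [Real.log_pow] at h2
      push_cast at h2
      exact h2
    have hqle : (q : ℝ) ≤ 1.96 * Y * l16 := by
      have h1 : (28800 : ℝ) * 13 ≤ Y * l16 := by gcongr
      linarith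
    have h16 : l16 ≤ 1.27 * Real.log q := by
      have h1 : l16 = Real.log 16 + Real.log R := by
        rw [hl16, Real.log_mul (by norm_num) (by linarith)]
      have h2 : Real.log 16 = 4 * Real.log 2 := by
        have : (16 : ℝ) = 2 ^ 4 := by norm_num
        rw [this, Real.log_pow]; push_cast; ring
      have h3 : 15 * Real.log 2 ≤ Real.log R := by
        have h4 : ((2 : ℝ) ^ 15) ≤ R := by
          have : (2 : ℝ) ^ 15 = 32768 := by norm_num
          rw [this]; linarith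
        have h5 := Real.log_le_log (by norm_num) h4
        rw [Real.log_pow] at h5
        push_cast at h5
        exact h5
      linarith
    exact num2 n T V (Real.log V) (Real.log N1) (Real.log p) σ ω μ Y q (Real.log q) l16 hnR hVTR
      hT60 hsg1 hsg2 hlogN1 hlogp2 hYn hYpos.le hμ0 hμ1 hlq (by linarith) hqle h16
  · -- H3
    rw [one_mul]
    have h1 : (ω : ℝ) < ((P.card * n : ℕ) : ℝ) := by
      push_cast
      rw [hYn]
      apply mul_lt_mul_of_pos_right hPcard; linarith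
    exact_mod_cast h1

end Pool.Agent.Lib.MP_7ab245_nt.Few
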