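import Mathlib
import Pool.Agent.Lib.MP_7ab245_nt.Few.Core2

/-! The main theorem: reduction to the normalised situation. -/

set_option autoImplicit false

open Polynomial

namespace Pool.Agent.Lib.MP_7ab245_nt.Few

lemma exists_V (k ℓ : ℕ) (W : ℝ)
    (hW : W = k + Real.log (ℓ + 16) / Real.log (Real.log (ℓ + 16))) :
    ∃ T V : ℕ, V = 2 * T ∧ 40 * ((k : ℝ) + 2) ≤ V ∧
      25 * Real.log ((ℓ + 1 : ℕ) : ℝ) ≤ V * Real.log V ∧ 40 * (V : ℝ) ^ 3 ≤ 3000000 * W ^ 3 ∧
      2 ≤ W := by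
  have hlog2 := Real.log_two_gt_d9
  have hlog2' := Real.log_two_lt_d9
  have hℓ0 : (0 : ℝ) ≤ ℓ := by positivity
  have hk0 : (0 : ℝ) ≤ k := by positivity
  obtain ⟨lam, hlam⟩ : ∃ x, x = Real.log ((ℓ : ℝ) + 16) := ⟨_, rfl⟩
  obtain ⟨y, hy⟩ : ∃ x, x = Real.log lam := ⟨_, rfl⟩
  rw [← hlam, ← hy] at hW
  have hlam1 : 2.772 ≤ lam := by
    have h1 : Real.log ((2 : ℝ) ^ 4) ≤ Real.log ((ℓ : ℝ) + 16) := by
      apply Real.log_le_log (by norm_num)
      linarith
    rw [Real.log_pow, ← hlam] at h1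
    push_cast at h1
    linarith
  have he1 := Real.exp_one_gt_d9
  have he2 := Real.exp_one_lt_d9
  have hy1 : 1 ≤ y := by
    rw [hy, Real.le_log_iff_exp_le (by linarith)]
    linarith
  have hy2 : y ≤ lam / 2 := by
    have h1 : Real.log (lam / 2) ≤ lam / 2 - 1 := Real.log_le_sub_one_of_pos (by linarith)
    rw [Real.log_div (by linarith) (by norm_num), ← hy] at h1
    linarith
  have hq2 : 2 ≤ lam / y := by
    rw [le_div_iff₀ (by linarith)]; linarith
  have hy3 : Real.log y ≤ 0.375 * y := by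
    have h1 : Real.log (y / Real.exp 1) ≤ y / Real.exp 1 - 1 :=
      Real.log_le_sub_one_of_pos (by positivity)
    rw [Real.log_div (by linarith) (by positivity), Real.log_exp] at h1
    have h2 : y / Real.exp 1 ≤ 0.375 * y := by
      rw [div_le_iff₀ (by positivity)]
      nlinarith
    linarith
  have hW2 : 2 ≤ W := by linarith
  obtain ⟨T, hT⟩ : ∃ T : ℕ, T = ⌈20 * W⌉₊ := ⟨_, rfl⟩
  have hT1 : 20 * W ≤ T := by rw [hT]; exact Nat.le_ceil _
  have hT2 : (T : ℝ) < 20 * W + 1 := by rw [hT]; exact Nat.ceil_lt_add_one (by linarith)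
  refine ⟨T, 2 * T, rfl, ?_, ?_, ?_, hW2⟩
  · push_cast; linarith
  · push_cast
    obtain ⟨v, hv⟩ : ∃ v : ℝ, v = 2 * T := ⟨_, rfl⟩
    rw [← hv]
    have hv1 : 40 * (lam / y) ≤ v := by linarith
    have hv2 : 0.625 * y ≤ Real.log v := by
      have h1 : Real.log (40 * (lam / y)) ≤ Real.log v :=
        Real.log_le_log (by linarith) hv1
      rw [Real.log_mul (by norm_num) (by linarith), Real.log_div (by linarith) (by linarith),
        ← hy] at h1
      have h2 : 0 ≤ Real.log 40 := Real.log_nonneg (by norm_num)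
      linarith
    have h3 : Real.log ((ℓ : ℝ) + 1) ≤ lam := by
      rw [hlam]; exact Real.log_le_log (by linarith) (by linarith)
    calc 25 * Real.log ((ℓ : ℝ) + 1) ≤ 25 * lam := by linarith
      _ = (40 * (lam / y)) * (0.625 * y) := by field_simp; ring
      _ ≤ v * Real.log v := by gcongr; linarith
  · push_cast
    have h1 : 2 * (T : ℝ) ≤ 41 * W := by linarith
    calc 40 * (2 * (T : ℝ)) ^ 3 ≤ 40 * (41 * W) ^ 3 := by gcongr
      _ = 2756840 * W ^ 3 := by ring
      _ ≤ 3000000 * W ^ 3 := by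
          have : 0 ≤ W ^ 3 := by positivity
          linarith

lemma MM_C (a : ℤ) : MM (C a) = ((|a| : ℤ) : ℝ) := by
  unfold MM
  rw [map_C, mahlerMeasure_const]
  simp

lemma MM_neg (f : ℤ[X]) : MM (-f) = MM f := by
  have h2 : (-f : ℤ[X]) = C (-1 : ℤ) * f := by simp
  rw [h2, MM_mul, MM_C]
  simp

lemma MM_X : MM (X : ℤ[X]) = 1 := by
  unfold MM
  rw [map_X]
  have := mahlerMeasure_X_sub_C 0
  rw [C_0, sub_zero] at this
  rw [this]; simp

lemma MM_X_pow_sub_one (m : ℕ) (hm : 0 < m) : MM (X ^ m - 1 : ℤ[X]) = 1 := by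
  unfold MM
  have h1 : (X ^ m - 1 : ℤ[X]).map (Int.castRingHom ℂ) = X ^ m - C 1 := by simp
  rw [h1, mahlerMeasure_eq_leadingCoeff_mul_prod_roots, (monic_X_pow_sub_C (1 : ℂ) hm.ne').leadingCoeff,
    norm_one, one_mul]
  apply Multiset.prod_eq_one
  intro x hx
  rw [Multiset.mem_map] at hx
  obtain ⟨z, hz, rfl⟩ := hx
  have hz2 := (mem_roots'.mp hz).2
  rw [IsRoot.def, eval_sub, eval_pow, eval_X, eval_C, sub_eq_zero] at hz2
  have h2 := Complex.norm_eq_one_of_pow_eq_one hz2 hm.ne'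
  rw [h2]; simp

/-- a minimal multiple -/
lemma exists_minimal (f H : ℤ[X]) (hf : f.Monic) (hirr : Irreducible f) (α : ℂ)
    (hroot : aeval α f = 0) (hα : α ≠ 0) (hH : H ≠ 0) (hfH : f ∣ H) :
    ∃ G : ℤ[X], ∃ a : ℕ, f ∣ G ∧ G.coeff 0 ≠ 0 ∧ (∀ e ∈ G.support, e + a ∈ H.support) ∧
      (∀ G' : ℤ[X], G' ≠ 0 → f ∣ G' → G'.support ⊆ G.support → G.support ⊆ G'.support) ∧
      ∀ p : ℕ, p.Prime → G.map (Int.castRingHom (ZMod p)) ≠ 0 := by
  classical
  have hex : ∃ m : ℕ, ∃ G : ℤ[X], G ≠ 0 ∧ f ∣ G ∧ G.support ⊆ H.support ∧ G.support.card = m :=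
    ⟨_, H, hH, hfH, subset_rfl, rfl⟩
  obtain ⟨G0, hG0, hfG0, hG0H, hG0card⟩ := Nat.find_spec hex
  have hminG0 : ∀ G' : ℤ[X], G' ≠ 0 → f ∣ G' → G'.support ⊆ H.support →
      G0.support.card ≤ G'.support.card := by
    intro G' h1 h2 h3
    rw [hG0card]
    exact Nat.find_min' hex ⟨G', h1, h2, h3, rfl⟩
  set G1 := G0.primPart with hG1
  have hG1prim : G1.IsPrimitive := isPrimitive_primPart G0
  have hG1ne : G1 ≠ 0 := hG1prim.ne_zero
  have hcont : G0.content ≠ 0 := by
    rw [Ne, content_eq_zero_iff]; exact hG0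
  have hG01 : G0 = C G0.content * G1 := eq_C_content_mul_primPart G0
  have hsupp1 : G1.support = G0.support := by
    ext n
    rw [mem_support_iff, mem_support_iff, hG01, coeff_C_mul]
    constructor
    · intro h1; exact mul_ne_zero hcont h1
    · exact right_ne_zero_of_mul
  have hfG1 : f ∣ G1 := (hf.isPrimitive.dvd_primPart_iff_dvd hG0).mpr hfG0
  obtain ⟨a, ha⟩ : ∃ a, a = G1.natTrailingDegree := ⟨_, rfl⟩
  have hamem : a ∈ G1.support := by rw [ha]; exact natTrailingDegree_mem_support_of_nonzero hG1ne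
  have hXa : X ^ a ∣ G1 := by
    rw [X_pow_dvd_iff]
    intro i hi
    rw [ha] at hi
    exact coeff_eq_zero_of_lt_natTrailingDegree hi
  obtain ⟨G, hG⟩ := hXa
  have hcoeff : ∀ i, G.coeff i = G1.coeff (i + a) := by
    intro i
    rw [hG, coeff_X_pow_mul]
  have hsuppG : ∀ e, e ∈ G.support ↔ e + a ∈ G1.support := by
    intro e
    rw [mem_support_iff, mem_support_iff, hcoeff]
  refine ⟨G, a, ?_, ?_, ?_, ?_, ?_⟩
  · apply dvd_of_root f hf hirr α hroot
    obtain ⟨c, hc⟩ := hfG1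
    have h1 : aeval α G1 = 0 := by rw [hc, map_mul, hroot, zero_mul]
    rw [hG, map_mul, map_pow, aeval_X] at h1
    exact (mul_eq_zero.mp h1).resolve_left (pow_ne_zero _ hα)
  · rw [hcoeff, zero_add]
    exact mem_support_iff.mp hamem
  · intro e he
    rw [hsuppG, hsupp1] at he
    exact hG0H he
  · intro G' hG' hfG' hsub
    have h1 : (X ^ a * G').support ⊆ (G'.support.image (fun e => e + a)) := by
      intro n hn
      rw [mem_support_iff, coeff_X_pow_mul'] at hn
      split_ifs at hn with h2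
      · rw [Finset.mem_image]
        exact ⟨n - a, mem_support_iff.mpr hn, by omega⟩
      · exact absurd rfl hn
    have h2 : (X ^ a * G').support ⊆ H.support := by
      intro n hn
      have h3 := h1 hn
      rw [Finset.mem_image] at h3
      obtain ⟨e, he, rfl⟩ := h3
      have h4 := (hsuppG e).mp (hsub he)
      rw [hsupp1] at h4
      exact hG0H h4
    have h3 := hminG0 (X ^ a * G') (mul_ne_zero (pow_ne_zero _ X_ne_zero) hG') (hfG'.mul_left _) h2
    have h4 : (X ^ a * G').support.card ≤ G'.support.card :=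
      (Finset.card_le_card h1).trans Finset.card_image_le
    have h5 : G.support.card ≤ G0.support.card := by
      rw [← hsupp1]
      have h6 : G.support.image (fun e => e + a) ⊆ G1.support := by
        intro n hn
        rw [Finset.mem_image] at hn
        obtain ⟨e, he, rfl⟩ := hn
        exact (hsuppG e).mp he
      have h7 := Finset.card_le_card h6
      rwa [Finset.card_image_of_injective _ (add_left_injective a)] at h7
    have h6 : G'.support = G.support := Finset.eq_of_subset_of_card_le hsub (by omega)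
    rw [h6]
  · intro p hp h0
    have hpF : Fact p.Prime := ⟨hp⟩
    have h1 : G1.map (Int.castRingHom (ZMod p)) = 0 := by
      rw [hG, Polynomial.map_mul, h0, mul_zero]
    have h2 : C (p : ℤ) ∣ G1 := by
      rw [C_dvd_iff_dvd_coeff]
      intro i
      have h3 := congrArg (fun P => P.coeff i) h1
      simp only [coeff_map, coeff_zero] at h3
      exact (ZMod.intCast_zmod_eq_zero_iff_dvd _ _).mp h3
    have h3 := hG1prim (p : ℤ) h2
    rw [Int.isUnit_iff] at h3
    have := hp.two_le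
    omega

/-- the monic case with small Mahler measure -/
lemma few_monic (k ℓ : ℕ) (S : Finset ℕ) (hS : S.card ≤ k) (hk1 : 1 ≤ k) (f H : ℤ[X])
    (hf : f.Monic) (hirr : Irreducible f) (hH : H ≠ 0)
    (hsupp : ∀ e ∈ H.support, ∃ s ∈ S, s ≤ e ∧ e ≤ s + ℓ) (hfH : f ∣ H) (hM : 1 < MM f)
    (hM2 : MM f < 2) (W : ℝ)
    (hW : W = k + Real.log (ℓ + 16) / Real.log (Real.log (ℓ + 16))) :
    ((f.natDegree : ℝ) / H.natDegree) ^ 2 / (3000000 * W ^ 3) ≤ Real.log (MM f) := by
  classical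
  have hfne : f ≠ 0 := hf.ne_zero
  -- basic facts
  have hn1 : 1 ≤ f.natDegree := by
    rcases Nat.eq_zero_or_pos f.natDegree with h1 | h1
    · exfalso
      have := hf.natDegree_eq_zero.mp h1
      rw [this] at hirr
      exact not_irreducible_one hirr
    · exact h1
  have hf00 : f.coeff 0 ≠ 0 := by
    intro h0
    have h1 : X ∣ f := X_dvd_iff.mpr h0
    obtain ⟨c, hc⟩ := h1
    rcases hirr.isUnit_or_isUnit hc with h2 | h2
    · exact not_isUnit_X h2
    · obtain ⟨u, hu, hcu⟩ := Polynomial.isUnit_iff.mp h2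
      have h3 : MM f = 1 := by
        rw [hc, MM_mul, MM_X, one_mul, ← hcu, MM_C]
        rcases Int.isUnit_iff.mp hu with h4 | h4 <;> rw [h4] <;> simp
      linarith
  have hf0 : |f.coeff 0| = 1 := by
    have h1 := norm_coeff_le_choose_mul_mahlerMeasure 0 (f.map (Int.castRingHom ℂ))
    rw [Nat.choose_zero_right, Nat.cast_one, one_mul, coeff_map] at h1
    have h2 : ‖(Int.castRingHom ℂ) (f.coeff 0)‖ = ((|f.coeff 0| : ℤ) : ℝ) := by simp
    rw [h2] at h1
    have h3 : ((|f.coeff 0| : ℤ) : ℝ) < ((2 : ℤ) : ℝ) := by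
      push_cast
      push_cast at h1
      linarith
    have h4 : |f.coeff 0| < 2 := by exact_mod_cast h3
    have h5 := abs_pos.mpr hf00
    exact le_antisymm (Int.lt_add_one_iff.mp h4) h5
  -- a complex root
  obtain ⟨α, hα⟩ : ∃ α : ℂ, aeval α f = 0 := by
    have h1 : (f.map (Int.castRingHom ℂ)).degree ≠ 0 := by
      rw [degree_map_eq_of_injective (Int.castRingHom ℂ).injective_int]
      intro h0
      exact absurd (natDegree_eq_zero_iff_degree_le_zero.mpr h0.le) (by omega)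
    obtain ⟨z, hz⟩ := IsAlgClosed.exists_root _ h1
    rw [IsRoot.def, eval_map] at hz
    exact ⟨z, hz⟩
  have hα0 : α ≠ 0 := by
    rintro rfl
    apply hf00
    have h1 : aeval (0 : ℂ) f = ((f.coeff 0 : ℤ) : ℂ) := by
      rw [← coeff_zero_eq_aeval_zero' ]; rfl
    rw [h1] at hα
    exact_mod_cast hα
  have hx0 : ∀ x : QQ, aeval x f = 0 → x ≠ 0 := by
    rintro x hx rfl
    apply hf00
    have h1 : aeval (0 : QQ) f = ((f.coeff 0 : ℤ) : QQ) := by
      rw [← coeff_zero_eq_aeval_zero' ]; rfl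
    rw [h1] at hx
    exact_mod_cast hx
  have hnt : ∀ x : QQ, aeval x f = 0 → ∀ m : ℕ, 0 < m → x ^ m ≠ 1 := by
    intro x hx m hm hxm
    have h1 : f ∣ X ^ m - 1 := by
      apply dvd_of_root' f hf hirr x hx
      rw [map_sub, map_pow, aeval_X, map_one, hxm, sub_self]
    obtain ⟨c, hc⟩ := h1
    have hne : (X ^ m - 1 : ℤ[X]) ≠ 0 := (monic_X_pow_sub_C (1 : ℤ) hm.ne').ne_zero
    have hcne : c ≠ 0 := by
      rintro rfl
      rw [mul_zero] at hc
      exact hne hc
    have h2 := MM_X_pow_sub_one m hm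
    rw [hc, MM_mul] at h2
    have h3 := MM_one_le hcne
    nlinarith
  obtain ⟨G, a, hfG, hG0, hGH, hGmin, hGprim⟩ :=
    exists_minimal f H hf hirr α hα hα0 hH hfH
  have hGne : G ≠ 0 := by rintro rfl; simp at hG0
  have hdG : G.natDegree ≤ H.natDegree := by
    have h1 := hGH _ (natDegree_mem_support_of_nonzero hGne)
    have h2 := le_natDegree_of_mem_supp _ h1
    omega
  have hnd : f.natDegree ≤ G.natDegree := natDegree_le_of_dvd hfG hGne
  obtain ⟨T, V, hVT, hV1, hV2, hV3, hW2⟩ := exists_V k ℓ W hW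
  have hblk : ∀ e ∈ G.support, ∃ s ∈ S.image (fun s => s - a), s ≤ e ∧ e ≤ s + (ℓ + 1) := by
    intro e he
    obtain ⟨s, hs, h1, h2⟩ := hsupp _ (hGH e he)
    exact ⟨s - a, Finset.mem_image_of_mem _ hs, by omega, by omega⟩
  by_contra hcon
  push Not at hcon
  refine few_core f G hf hirr hf0 α hα hα0 hx0 hnt hfG hG0 hGmin hGprim k (ℓ + 1) hk1 (by omega)
    (S.image (fun s => s - a)) (Finset.card_image_le.trans hS) hblk T V hVT hV1 hV2 ?_
  have hnR : (1 : ℝ) ≤ f.natDegree := by exact_mod_cast hn1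
  have hdR : (G.natDegree : ℝ) ≤ H.natDegree := by exact_mod_cast hdG
  have hd1 : (1 : ℝ) ≤ H.natDegree := by
    have : 1 ≤ H.natDegree := hn1.trans (hnd.trans hdG)
    exact_mod_cast this
  have hμ0 : 0 ≤ Real.log (MM f) := Real.log_nonneg hM.le
  have hWpos : 0 < W := by linarith
  have h1 : Real.log (MM f) * (3000000 * W ^ 3) < ((f.natDegree : ℝ) / H.natDegree) ^ 2 := by
    rwa [lt_div_iff₀ (by positivity)] at hcon
  have h2 : Real.log (MM f) * (3000000 * W ^ 3) * (H.natDegree : ℝ) ^ 2 ≤ (f.natDegree : ℝ) ^ 2 := by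
    have h3 : Real.log (MM f) * (3000000 * W ^ 3) * (H.natDegree : ℝ) ^ 2 ≤
        ((f.natDegree : ℝ) / H.natDegree) ^ 2 * (H.natDegree : ℝ) ^ 2 := by gcongr
    have h4 : ((f.natDegree : ℝ) / H.natDegree) ^ 2 * (H.natDegree : ℝ) ^ 2 =
        (f.natDegree : ℝ) ^ 2 := by
      rw [← mul_pow, div_mul_cancel₀ _ (by linarith)]
    rwa [h4] at h3
  have hV0 : (0 : ℝ) ≤ V := by positivity
  calc Real.log (MM f) * (2 * (V : ℝ) ^ 2 * G.natDegree) ^ 2
      ≤ Real.log (MM f) * (2 * (V : ℝ) ^ 2 * H.natDegree) ^ 2 := by gcongr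
    _ = (V / 10) * (Real.log (MM f) * (40 * (V : ℝ) ^ 3) * (H.natDegree : ℝ) ^ 2) := by ring
    _ ≤ (V / 10) * (Real.log (MM f) * (3000000 * W ^ 3) * (H.natDegree : ℝ) ^ 2) := by gcongr
    _ ≤ V / 10 * (f.natDegree : ℝ) ^ 2 := by gcongr

/-- The main theorem. -/
theorem few_main (k ℓ : ℕ) (S : Finset ℕ) (hS : S.card ≤ k) (f H : ℤ[X])
    (hirr : Irreducible f) (hH : H ≠ 0)
    (hsupp : ∀ e ∈ H.support, ∃ s ∈ S, s ≤ e ∧ e ≤ s + ℓ) (hfH : f ∣ H) (hM : 1 < MM f) :
    ((f.natDegree : ℝ) / H.natDegree) ^ 2 /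
      (3000000 * ((k : ℝ) + Real.log (ℓ + 16) / Real.log (Real.log (ℓ + 16))) ^ 3) ≤
      Real.log (MM f) := by
  classical
  obtain ⟨W, hW⟩ : ∃ W : ℝ, W = k + Real.log (ℓ + 16) / Real.log (Real.log (ℓ + 16)) := ⟨_, rfl⟩
  rw [← hW]
  have hfne : f ≠ 0 := hirr.ne_zero
  have hk1 : 1 ≤ k := by
    obtain ⟨e, he⟩ := support_nonempty.mpr hH
    obtain ⟨s, hs, _⟩ := hsupp e he
    exact (Finset.card_pos.mpr ⟨s, hs⟩).trans_le hS
  by_cases hM2 : MM f < 2
  · -- the leading coefficient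
    have hlc : |f.leadingCoeff| = 1 := by
      have h2 := leadingCoeff_le_mahlerMeasure (f.map (Int.castRingHom ℂ))
      rw [leadingCoeff_map_of_injective (Int.castRingHom ℂ).injective_int] at h2
      have h3 : ‖(Int.castRingHom ℂ) f.leadingCoeff‖ = ((|f.leadingCoeff| : ℤ) : ℝ) := by
        simp
      rw [h3] at h2
      have h4 : ((|f.leadingCoeff| : ℤ) : ℝ) < ((2 : ℤ) : ℝ) := by
        push_cast
        push_cast at h2
        linarith
      have h5 : |f.leadingCoeff| < 2 := by exact_mod_cast h4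
      have h6 := abs_pos.mpr (leadingCoeff_ne_zero.mpr hfne)
      omega
    rcases (abs_eq (by norm_num : (0:ℤ) ≤ 1)).mp hlc with h1 | h1
    · exact few_monic k ℓ S hS hk1 f H h1 hirr hH hsupp hfH hM hM2 W hW
    · have h2 : (-f).Monic := by rw [Monic, leadingCoeff_neg, h1]; norm_num
      have h3 : Irreducible (-f) := by
        have := (Associated.refl f).neg_left
        exact this.irreducible_iff.mpr hirr
      have h4 := few_monic k ℓ S hS hk1 (-f) H h2 h3 hH hsupp ((neg_dvd).mpr hfH)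
        (by rw [MM_neg]; exact hM) (by rw [MM_neg]; exact hM2) W hW
      rwa [MM_neg, natDegree_neg] at h4
  · push Not at hM2
    obtain ⟨T, V, hVT, hV1, hV2, hV3, hW2⟩ := exists_V k ℓ W hW
    have hlog2 := Real.log_two_gt_d9
    have h1 : Real.log 2 ≤ Real.log (MM f) := Real.log_le_log (by norm_num) hM2
    have hnd : (f.natDegree : ℝ) ≤ H.natDegree := by
      exact_mod_cast natDegree_le_of_dvd hfH hH
    have h2 : (f.natDegree : ℝ) / H.natDegree ≤ 1 :=
      div_le_one_of_le₀ hnd (by positivity)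
    have h3 : ((f.natDegree : ℝ) / H.natDegree) ^ 2 ≤ 1 := pow_le_one₀ (by positivity) h2
    have h4 : (8 : ℝ) ≤ W ^ 3 := by
      calc (8 : ℝ) = 2 ^ 3 := by norm_num
        _ ≤ W ^ 3 := by gcongr
    refine le_trans ?_ h1
    rw [div_le_iff₀ (by linarith)]
    nlinarith

end Pool.Agent.Lib.MP_7ab245_nt.Few
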